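import Mathlib
import Pool.Agent.H376R2.MR.Mv
import Pool.Agent.W37.RK.BL1

/-! Moments of Dirichlet polynomials with bounded coefficients. -/

set_option autoImplicit false

namespace Pool.Agent.D0H91.MG

open Finset MeasureTheory
open Pool.Agent.H376R2.MR (er ch DP FK mv)

/-- `∑_{n ≤ N} d n n^{it}` -/
noncomputable def SD (d : ℕ → ℂ) (N : ℕ) (t : ℝ) : ℂ := ∑ n ∈ Icc 1 N, d n * er t (Real.log n)

theorem er_add' (s t x : ℝ) : er (s + t) x = er s x * er t x := by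
  unfold er
  rw [← Complex.exp_add]
  congr 1
  push_cast
  ring

theorem er_nrm (t x : ℝ) : ‖er t x‖ = 1 := by
  unfold er
  exact Complex.norm_exp_ofReal_mul_I _

theorem SD_cont (d : ℕ → ℂ) (N : ℕ) : Continuous (SD d N) := by
  unfold SD er
  fun_prop

theorem SD_le (d : ℕ → ℂ) (hd : ∀ n, ‖d n‖ ≤ 1) (N : ℕ) (t : ℝ) : ‖SD d N t‖ ≤ N := by
  unfold SD
  refine (norm_sum_le _ _).trans ?_
  calc ∑ n ∈ Icc 1 N, ‖d n * er t (Real.log n)‖ ≤ ∑ n ∈ Icc 1 N, (1 : ℝ) := by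
        refine Finset.sum_le_sum fun n _ => ?_
        rw [norm_mul, er_nrm, mul_one]
        exact hd n
    _ = N := by simp

theorem SD_shift (a : ℕ → ℂ) (M k : ℕ) (s : ℝ) :
    SD a M (k + s) = DP (Icc 1 M) (fun n => a n * er s (Real.log n)) (-(k : ℤ)) := by
  unfold SD DP
  refine Finset.sum_congr rfl fun n _ => ?_
  rw [er_add']
  have : er (k : ℝ) (Real.log n) = ch (-(k : ℤ)) (Real.log n) := by
    unfold er ch
    congr 1
    push_cast
    ring
  rw [this]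
  ring

theorem SD_neg (a : ℕ → ℂ) (M : ℕ) (t : ℝ) :
    ‖SD a M (-t)‖ = ‖SD (fun n => (starRingEnd ℂ) (a n)) M t‖ := by
  rw [← RCLike.norm_conj (SD a M (-t))]
  congr 1
  unfold SD
  rw [map_sum]
  refine Finset.sum_congr rfl fun n _ => ?_
  rw [map_mul]
  congr 1
  unfold er
  rw [← Complex.exp_conj]
  congr 1
  rw [map_mul, Complex.conj_I, Complex.conj_ofReal]
  push_cast
  ring

theorem mv_half : ∃ C : ℝ, 0 < C ∧ ∀ (a : ℕ → ℂ) (M K : ℕ), 1 ≤ M → 1 ≤ K →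
    ∫ t in (0 : ℝ)..K, ‖SD a M t‖ ^ 2 ≤
      C * (1 + Real.log M) * ∑ n ∈ Icc 1 M, ‖a n‖ ^ 2 * ((n : ℝ) + K) := by
  obtain ⟨C, hC, hmv⟩ := mv
  refine ⟨C, hC, fun a M K hM hK => ?_⟩
  set R : ℝ := C * (1 + Real.log M) * ∑ n ∈ Icc 1 M, ‖a n‖ ^ 2 * ((n : ℝ) + K) with hR
  have hcont : Continuous fun t => ‖SD a M t‖ ^ 2 := (SD_cont a M).norm.pow 2
  have h1 := intervalIntegral.sum_integral_adjacent_intervals (f := fun t => ‖SD a M t‖ ^ 2)
    (μ := volume) (a := fun k : ℕ => (k : ℝ)) (n := K) (fun k _ => hcont.intervalIntegrable _ _)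
  simp only [Nat.cast_zero] at h1
  rw [← h1]
  have h2 : ∀ k : ℕ, ∫ t in (k : ℝ)..((k + 1 : ℕ) : ℝ), ‖SD a M t‖ ^ 2 =
      ∫ s in (0 : ℝ)..1, ‖SD a M (k + s)‖ ^ 2 := by
    intro k
    rw [intervalIntegral.integral_comp_add_left (fun t => ‖SD a M t‖ ^ 2) (k : ℝ)]
    push_cast
    rw [add_zero]
  rw [Finset.sum_congr rfl fun k _ => h2 k]
  rw [← intervalIntegral.integral_finsetSum]
  · have h3 : ∀ s : ℝ, ∑ k ∈ range K, ‖SD a M (k + s)‖ ^ 2 ≤ R := by
      intro s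
      have h4 := hmv (Icc 1 M) (fun n => a n * er s (Real.log n)) 1 M K le_rfl (by exact_mod_cast hM)
        (fun n hn => by
          rw [Finset.mem_Icc] at hn
          exact ⟨by exact_mod_cast hn.1, by exact_mod_cast hn.2⟩) hK
      rw [div_one] at h4
      have h5 : ∑ n ∈ Icc 1 M, ‖a n * er s (Real.log n)‖ ^ 2 * ((n : ℝ) + K) =
          ∑ n ∈ Icc 1 M, ‖a n‖ ^ 2 * ((n : ℝ) + K) := by
        refine Finset.sum_congr rfl fun n _ => ?_
        rw [norm_mul, er_nrm, mul_one]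
      rw [h5] at h4
      refine le_trans ?_ h4
      rw [Finset.sum_congr rfl fun k _ => by rw [SD_shift]]
      have h6 : ∑ k ∈ range K, ‖DP (Icc 1 M) (fun n => a n * er s (Real.log n)) (-(k : ℤ))‖ ^ 2 =
          ∑ j ∈ (range K).image (fun k : ℕ => -(k : ℤ)),
            ‖DP (Icc 1 M) (fun n => a n * er s (Real.log n)) j‖ ^ 2 := by
        rw [Finset.sum_image]
        intro x _ y _ h
        simpa using h
      rw [h6]
      refine Finset.sum_le_sum_of_subset_of_nonneg ?_ fun _ _ _ => by positivity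
      intro j hj
      rw [Finset.mem_image] at hj
      obtain ⟨k, hk, rfl⟩ := hj
      rw [Finset.mem_range] at hk
      unfold FK
      rw [Finset.mem_Ioo]
      omega
    calc ∫ s in (0 : ℝ)..1, ∑ k ∈ range K, ‖SD a M (k + s)‖ ^ 2 ≤ ∫ _ in (0 : ℝ)..1, R := by
          apply intervalIntegral.integral_mono_on zero_le_one
          · apply Continuous.intervalIntegrable
            refine continuous_finsetSum _ fun k _ => ?_
            exact ((SD_cont a M).comp (by fun_prop)).norm.pow 2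
          · exact intervalIntegrable_const
          · intro s _
            exact h3 s
      _ = R := by simp
  · intro k _
    exact (((SD_cont a M).comp (by fun_prop)).norm.pow 2).intervalIntegrable _ _

theorem mv_full : ∃ C : ℝ, 0 < C ∧ ∀ (a : ℕ → ℂ) (M K : ℕ), 1 ≤ M → 1 ≤ K →
    ∫ t in (-(K : ℝ))..K, ‖SD a M t‖ ^ 2 ≤
      C * (1 + Real.log M) * ∑ n ∈ Icc 1 M, ‖a n‖ ^ 2 * ((n : ℝ) + K) := by
  obtain ⟨C, hC, h⟩ := mv_half
  refine ⟨2 * C, by positivity, fun a M K hM hK => ?_⟩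
  have hcont : Continuous fun t => ‖SD a M t‖ ^ 2 := (SD_cont a M).norm.pow 2
  rw [← intervalIntegral.integral_add_adjacent_intervals (hcont.intervalIntegrable (-(K : ℝ)) 0)
    (hcont.intervalIntegrable 0 K)]
  have h1 := h a M K hM hK
  have h2 := h (fun n => (starRingEnd ℂ) (a n)) M K hM hK
  have h3 : ∫ t in (-(K : ℝ))..0, ‖SD a M t‖ ^ 2 =
      ∫ t in (0 : ℝ)..K, ‖SD (fun n => (starRingEnd ℂ) (a n)) M t‖ ^ 2 := by
    have h4 := intervalIntegral.integral_comp_neg (a := (0 : ℝ)) (b := (K : ℝ))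
      (fun t => ‖SD a M t‖ ^ 2)
    rw [neg_zero] at h4
    rw [← h4]
    refine intervalIntegral.integral_congr fun t _ => ?_
    beta_reduce
    rw [SD_neg]
  rw [h3]
  have h5 : ∑ n ∈ Icc 1 M, ‖(starRingEnd ℂ) (a n)‖ ^ 2 * ((n : ℝ) + K) =
      ∑ n ∈ Icc 1 M, ‖a n‖ ^ 2 * ((n : ℝ) + K) := by
    refine Finset.sum_congr rfl fun n _ => ?_
    rw [RCLike.norm_conj]
  rw [h5] at h2
  linarith

theorem mv_scaled : ∃ C : ℝ, 0 < C ∧ ∀ (a : ℕ → ℂ) (M : ℕ) (T : ℝ), 1 ≤ M → 1 ≤ T →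
    ∫ ξ in (-T)..T, ‖SD a M (2 * Real.pi * ξ)‖ ^ 2 ≤
      C * (1 + Real.log M) * ∑ n ∈ Icc 1 M, ‖a n‖ ^ 2 * ((n : ℝ) + T) := by
  obtain ⟨C, hC, h⟩ := mv_full
  refine ⟨8 * C, by positivity, fun a M T hM hT => ?_⟩
  have hpi : (0 : ℝ) < 2 * Real.pi := by positivity
  have hpi3 := Real.pi_gt_three
  have hpi4 := Real.pi_lt_d2
  have hcont : Continuous fun t => ‖SD a M t‖ ^ 2 := (SD_cont a M).norm.pow 2
  rw [intervalIntegral.integral_comp_mul_left (fun t => ‖SD a M t‖ ^ 2) hpi.ne']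
  set K : ℕ := ⌈2 * Real.pi * T⌉₊ with hK
  have hK1 : 2 * Real.pi * T ≤ K := Nat.le_ceil _
  have hK2 : (K : ℝ) ≤ 8 * T := by
    have := Nat.ceil_lt_add_one (show 0 ≤ 2 * Real.pi * T by positivity)
    rw [← hK] at this
    nlinarith
  have hK0 : 1 ≤ K := by
    have : (1 : ℝ) ≤ K := by nlinarith
    exact_mod_cast this
  have h1 : ∫ t in (2 * Real.pi * -T)..(2 * Real.pi * T), ‖SD a M t‖ ^ 2 ≤
      ∫ t in (-(K : ℝ))..K, ‖SD a M t‖ ^ 2 := by
    apply intervalIntegral.integral_mono_interval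
    · linarith
    · nlinarith
    · exact hK1
    · exact Filter.Eventually.of_forall fun t => by positivity
    · exact hcont.intervalIntegrable _ _
  have h2 := h a M K hM hK0
  have h0 : 0 ≤ ∫ t in (2 * Real.pi * -T)..(2 * Real.pi * T), ‖SD a M t‖ ^ 2 := by
    apply intervalIntegral.integral_nonneg
    · nlinarith
    · intro t _
      positivity
  have h3 : (2 * Real.pi)⁻¹ ≤ 1 := inv_le_one_of_one_le₀ (by nlinarith)
  have hlog : 0 ≤ Real.log M := Real.log_natCast_nonneg M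
  rw [smul_eq_mul]
  calc (2 * Real.pi)⁻¹ * ∫ t in (2 * Real.pi * -T)..(2 * Real.pi * T), ‖SD a M t‖ ^ 2
      ≤ 1 * ∫ t in (2 * Real.pi * -T)..(2 * Real.pi * T), ‖SD a M t‖ ^ 2 :=
        mul_le_mul_of_nonneg_right h3 h0
    _ ≤ C * (1 + Real.log M) * ∑ n ∈ Icc 1 M, ‖a n‖ ^ 2 * ((n : ℝ) + K) := by
        rw [one_mul]
        exact h1.trans h2
    _ ≤ C * (1 + Real.log M) * ∑ n ∈ Icc 1 M, ‖a n‖ ^ 2 * (8 * ((n : ℝ) + T)) := by
        gcongr with n hn
        have : (0 : ℝ) ≤ n := Nat.cast_nonneg n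
        linarith
    _ = _ := by
        rw [Finset.mul_sum, Finset.mul_sum]
        refine Finset.sum_congr rfl fun n _ => ?_
        ring

/-! ### powers -/

theorem er_prod (t : ℝ) {q : ℕ} (p : Fin q → ℕ) (hp : ∀ i, 0 < p i) :
    ∏ i, er t (Real.log (p i)) = er t (Real.log ((∏ i, p i : ℕ) : ℝ)) := by
  unfold er
  rw [← Complex.exp_sum]
  congr 1
  rw [Nat.cast_prod, Real.log_prod (fun i _ => by
    have := hp i
    positivity)]
  push_cast
  rw [Finset.mul_sum, Finset.sum_mul]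

/-- coefficients of the `q`-th power -/
noncomputable def cf (d : ℕ → ℂ) (N q n : ℕ) : ℂ :=
  ∑ p ∈ (Fintype.piFinset (fun _ : Fin q => Icc 1 N)).filter (fun p => ∏ i, p i = n), ∏ i, d (p i)

theorem SD_pow (d : ℕ → ℂ) (N q : ℕ) (t : ℝ) : SD d N t ^ q = SD (cf d N q) (N ^ q) t := by
  unfold SD cf
  rw [Finset.sum_pow']
  rw [← Finset.sum_fiberwise_of_maps_to (s := Fintype.piFinset (fun _ : Fin q => Icc 1 N))
    (t := Icc 1 (N ^ q)) (g := fun p : Fin q → ℕ => ∏ i, p i)]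
  · refine Finset.sum_congr rfl fun n _ => ?_
    rw [Finset.sum_mul]
    refine Finset.sum_congr rfl fun p hp => ?_
    rw [Finset.mem_filter, Fintype.mem_piFinset] at hp
    rw [Finset.prod_mul_distrib, er_prod t p fun i => by
      have := hp.1 i
      rw [Finset.mem_Icc] at this
      omega, hp.2]
  · intro p hp
    rw [Fintype.mem_piFinset] at hp
    rw [Finset.mem_Icc]
    constructor
    · refine Nat.succ_le_of_lt (Finset.prod_pos fun i _ => ?_)
      have := hp i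
      rw [Finset.mem_Icc] at this
      omega
    · calc ∏ i, p i ≤ ∏ _i : Fin q, N := Finset.prod_le_prod' fun i _ => by
            have := hp i
            rw [Finset.mem_Icc] at this
            exact this.2
        _ = N ^ q := by simp

theorem cf_le (d : ℕ → ℂ) (hd : ∀ n, ‖d n‖ ≤ 1) (N q n : ℕ) (hn : 1 ≤ n) :
    ‖cf d N q n‖ ≤ (n.divisors.card : ℝ) ^ q := by
  unfold cf
  refine (norm_sum_le _ _).trans ?_
  calc _ ≤ ∑ p ∈ (Fintype.piFinset (fun _ : Fin q => Icc 1 N)).filter (fun p => ∏ i, p i = n),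
        (1 : ℝ) := by
        refine Finset.sum_le_sum fun p _ => ?_
        rw [norm_prod]
        exact Finset.prod_le_one (fun i _ => norm_nonneg _) fun i _ => hd _
    _ = (((Fintype.piFinset (fun _ : Fin q => Icc 1 N)).filter (fun p => ∏ i, p i = n)).card : ℝ) := by
        simp
    _ ≤ ((Fintype.piFinset (fun _ : Fin q => n.divisors)).card : ℝ) := by
        apply Nat.cast_le.2
        apply Finset.card_le_card
        intro p hp
        rw [Finset.mem_filter] at hp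
        rw [Fintype.mem_piFinset]
        intro i
        rw [Nat.mem_divisors]
        refine ⟨?_, by omega⟩
        rw [← hp.2]
        exact Finset.dvd_prod_of_mem _ (Finset.mem_univ i)
    _ = (n.divisors.card : ℝ) ^ q := by
        rw [Fintype.card_piFinset]
        simp

/-- moments of Dirichlet polynomials with bounded coefficients -/
theorem moment (q : ℕ) : ∃ (C : ℝ) (E : ℕ), 0 < C ∧ ∀ (d : ℕ → ℂ), (∀ n, ‖d n‖ ≤ 1) → ∀ (N : ℕ) (T : ℝ),
    1 ≤ N → 1 ≤ T → ∫ ξ in (-T)..T, ‖SD d N (2 * Real.pi * ξ)‖ ^ (2 * q) ≤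
      C * ((N : ℝ) ^ q + T) * (N : ℝ) ^ q * (1 + Real.log N) ^ E := by
  obtain ⟨C, hC, h⟩ := mv_scaled
  refine ⟨C * (1 + q) ^ (2 ^ (2 * q) + 1), 2 ^ (2 * q) + 1, by positivity, fun d hd N T hN hT => ?_⟩
  have hNq : 1 ≤ N ^ q := Nat.one_le_pow _ _ hN
  have h1 := h (cf d N q) (N ^ q) T hNq hT
  have e1 : ∀ ξ : ℝ, ‖SD d N (2 * Real.pi * ξ)‖ ^ (2 * q) =
      ‖SD (cf d N q) (N ^ q) (2 * Real.pi * ξ)‖ ^ 2 := by
    intro ξ
    rw [← SD_pow, norm_pow, ← pow_mul, mul_comm q 2]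
  rw [intervalIntegral.integral_congr fun ξ _ => e1 ξ]
  refine h1.trans ?_
  have hl0 : 0 ≤ Real.log N := Real.log_natCast_nonneg N
  have hlq : Real.log ((N ^ q : ℕ) : ℝ) = q * Real.log N := by
    push_cast
    rw [Real.log_pow]
  have hq0 : (0 : ℝ) ≤ q := Nat.cast_nonneg q
  have hb : 1 + Real.log ((N ^ q : ℕ) : ℝ) ≤ (1 + q) * (1 + Real.log N) := by
    rw [hlq]
    nlinarith
  have hb0 : 0 ≤ 1 + Real.log ((N ^ q : ℕ) : ℝ) := by
    rw [hlq]; positivity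
  have h2 : ∑ n ∈ Icc 1 (N ^ q), ‖cf d N q n‖ ^ 2 * ((n : ℝ) + T) ≤
      (N : ℝ) ^ q * ((N : ℝ) ^ q + T) * ∑ n ∈ Icc 1 (N ^ q), (n.divisors.card : ℝ) ^ (2 * q) / n := by
    rw [Finset.mul_sum]
    refine Finset.sum_le_sum fun n hn => ?_
    rw [Finset.mem_Icc] at hn
    have hn0 : (0 : ℝ) < n := by exact_mod_cast hn.1
    have hn1 : (n : ℝ) ≤ (N : ℝ) ^ q := by exact_mod_cast hn.2
    have h3 := cf_le d hd N q n hn.1
    calc ‖cf d N q n‖ ^ 2 * ((n : ℝ) + T) ≤ ((n.divisors.card : ℝ) ^ q) ^ 2 * ((n : ℝ) + T) := by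
          gcongr
      _ = (n.divisors.card : ℝ) ^ (2 * q) * ((n : ℝ) + T) := by rw [← pow_mul, mul_comm q 2]
      _ = (n * ((n : ℝ) + T)) * ((n.divisors.card : ℝ) ^ (2 * q) / n) := by
          field_simp
      _ ≤ _ := by gcongr
  have h4 := W37.RK.sum_card_pow_div (2 * q) (N ^ q)
  calc C * (1 + Real.log ((N ^ q : ℕ) : ℝ)) * ∑ n ∈ Icc 1 (N ^ q), ‖cf d N q n‖ ^ 2 * ((n : ℝ) + T)
      ≤ C * (1 + Real.log ((N ^ q : ℕ) : ℝ)) * ((N : ℝ) ^ q * ((N : ℝ) ^ q + T) *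
        (1 + Real.log ((N ^ q : ℕ) : ℝ)) ^ (2 ^ (2 * q))) := by
        refine mul_le_mul_of_nonneg_left (h2.trans ?_) (by positivity)
        exact mul_le_mul_of_nonneg_left h4 (by positivity)
    _ = C * ((N : ℝ) ^ q * ((N : ℝ) ^ q + T)) * (1 + Real.log ((N ^ q : ℕ) : ℝ)) ^ (2 ^ (2 * q) + 1) := by
        ring
    _ ≤ C * ((N : ℝ) ^ q * ((N : ℝ) ^ q + T)) * ((1 + q) * (1 + Real.log N)) ^ (2 ^ (2 * q) + 1) := by
        gcongr
    _ = _ := by
        rw [mul_pow]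
        ring

end Pool.Agent.D0H91.MG
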