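import Mathlib
import Pool.Agent.Y957.VK.E1
import Pool.Agent.D0H91.MG.Mom

/-! The Plancherel step with a splitting according to the size of the Dirichlet polynomial. -/

set_option autoImplicit false

namespace Pool.Agent.D0H91.MG

open Finset MeasureTheory FourierTransform
open scoped ENNReal
open Pool.Agent.H376R2.MR (er)
open Pool.Agent.Y957.VK (Dn Gn Gn_int four_Gn tail_int)
open Pool.Agent.Y957.AD (memLp_of_bdd)

theorem Dn_eq (d : ℕ → ℂ) (N : ℕ) (ξ : ℝ) : Dn d 1 N ξ = SD d N ξ := by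
  unfold Dn SD
  simp only [one_mul]

theorem Gn_bdd (d : ℕ → ℂ) (hd : ∀ n, ‖d n‖ ≤ 1) {B : ℝ → ℂ} {bb : ℝ} (hB : ∀ y, ‖B y‖ ≤ bb) (c : ℝ) (N : ℕ)
    (u : ℝ) : ‖Gn d B c N u‖ ≤ N * bb := by
  unfold Gn
  refine (norm_sum_le _ _).trans ?_
  calc ∑ n ∈ Finset.Icc 1 N, ‖d n * B (u + c * Real.log n)‖ ≤ ∑ n ∈ Finset.Icc 1 N, bb := by
        refine Finset.sum_le_sum fun n _ => ?_
        rw [norm_mul]
        calc ‖d n‖ * ‖B (u + c * Real.log n)‖ ≤ 1 * bb :=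
              mul_le_mul (hd n) (hB _) (norm_nonneg _) zero_le_one
          _ = bb := one_mul bb
    _ = N * bb := by simp

theorem real_split (q : ℕ) (hq : 1 ≤ q) {V0 E : ℝ} (hV0 : 0 < V0) (hE : 0 ≤ E) :
    E ^ 2 ≤ V0 ^ 2 + E ^ (2 * q) / V0 ^ (2 * q - 2) := by
  rcases le_total E V0 with h | h
  · have h1 : E ^ 2 ≤ V0 ^ 2 := pow_le_pow_left₀ hE h 2
    have h2 : 0 ≤ E ^ (2 * q) / V0 ^ (2 * q - 2) := by positivity
    linarith
  · have h1 : V0 ^ (2 * q - 2) ≤ E ^ (2 * q - 2) := pow_le_pow_left₀ hV0.le h _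
    have h2 : E ^ 2 ≤ E ^ (2 * q) / V0 ^ (2 * q - 2) := by
      rw [le_div_iff₀ (by positivity)]
      calc E ^ 2 * V0 ^ (2 * q - 2) ≤ E ^ 2 * E ^ (2 * q - 2) :=
            mul_le_mul_of_nonneg_left h1 (by positivity)
        _ = E ^ (2 * q) := by
            rw [← pow_add]
            congr 1
            omega
    have h3 : 0 ≤ V0 ^ 2 := by positivity
    linarith

/-- the mean square of `∑ d n B (u + log n)` -/
theorem l2 (d : ℕ → ℂ) (hd : ∀ n, ‖d n‖ ≤ 1) (N : ℕ) (B : ℝ → ℂ) (hBi : Integrable B) (bb : ℝ)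
    (hBb : ∀ y, ‖B y‖ ≤ bb) (q : ℕ) (hq : 1 ≤ q) (T V0 F0 W L2B MM : ℝ) (hT : 1 ≤ T) (hV0 : 0 < V0)
    (hF0 : 0 ≤ F0) (hL : 0 ≤ L2B) (hMM : 0 ≤ MM)
    (h1 : ∀ ξ : ℝ, |ξ| ≤ T → ‖𝓕 B ξ‖ ≤ F0) (h2 : ∀ ξ : ℝ, T < |ξ| → ‖𝓕 B ξ‖ ≤ W / |ξ|)
    (h3 : ∫⁻ y, ‖B y‖ₑ ^ 2 ≤ ENNReal.ofReal L2B)
    (h4 : ∫ ξ in (-T)..T, ‖SD d N (2 * Real.pi * ξ)‖ ^ (2 * q) ≤ MM) :
    ∫⁻ u, ‖Gn d B 1 N u‖ₑ ^ 2 ≤
      ENNReal.ofReal (V0 ^ 2 * L2B + F0 ^ 2 * MM / V0 ^ (2 * q - 2) + N ^ 2 * (2 * W ^ 2) / T) := by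
  have hT0 : 0 < T := by linarith
  have hFc : Continuous (𝓕 B) := VectorFourier.fourierIntegral_continuous Real.continuous_fourierChar
      (by exact continuous_inner) hBi
  have hFm : Measurable (fun ξ => ‖𝓕 B ξ‖ₑ ^ 2) := hFc.measurable.enorm.pow_const 2
  rw [← Pool.Agent.TH794.QD.plancherel _ (Gn_int d hBi 1 N)
    (memLp_of_bdd (Gn_int d hBi 1 N) (Gn_bdd d hd hBb 1 N))]
  set c : ℝ := F0 ^ 2 / V0 ^ (2 * q - 2) with hc
  have hc0 : 0 ≤ c := by positivity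
  set K : ℝ := N ^ 2 * (2 * W ^ 2) with hK
  have hK0 : 0 ≤ K := by positivity
  have hpt : ∀ ξ : ℝ, ‖𝓕 (Gn d B 1 N) ξ‖ₑ ^ 2 ≤ ENNReal.ofReal (V0 ^ 2) * ‖𝓕 B ξ‖ₑ ^ 2 +
      ((Set.Icc (-T) T).indicator (fun ξ => ENNReal.ofReal (c * ‖SD d N (2 * Real.pi * ξ)‖ ^ (2 * q))) ξ +
      (Set.Iic T)ᶜ.indicator (fun x => ENNReal.ofReal (K / 2 * (x ^ 2)⁻¹)) |ξ|) := by
    intro ξ
    have e1 : ‖𝓕 (Gn d B 1 N) ξ‖ = ‖SD d N (2 * Real.pi * ξ)‖ * ‖𝓕 B ξ‖ := by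
      rw [four_Gn _ hBi, norm_mul, Dn_eq]
    have e2 : ‖𝓕 (Gn d B 1 N) ξ‖ₑ ^ 2 = ENNReal.ofReal ((‖SD d N (2 * Real.pi * ξ)‖ * ‖𝓕 B ξ‖) ^ 2) := by
      rw [← e1, ENNReal.ofReal_pow (norm_nonneg _), ofReal_norm]
    have e3 : ‖𝓕 B ξ‖ₑ ^ 2 = ENNReal.ofReal (‖𝓕 B ξ‖ ^ 2) := by
      rw [ENNReal.ofReal_pow (norm_nonneg _), ofReal_norm]
    rw [e2, e3]
    set E := ‖SD d N (2 * Real.pi * ξ)‖ with hE
    have hE0 : 0 ≤ E := norm_nonneg _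
    set F := ‖𝓕 B ξ‖ with hF
    have hF0' : 0 ≤ F := norm_nonneg _
    by_cases hξ : |ξ| ≤ T
    · have m1 : ξ ∈ Set.Icc (-T) T := abs_le.1 hξ
      rw [Set.indicator_of_mem m1, Set.indicator_of_notMem (by simpa using hξ), add_zero,
        ← ENNReal.ofReal_mul (by positivity), ← ENNReal.ofReal_add (by positivity) (by positivity)]
      apply ENNReal.ofReal_le_ofReal
      have s1 := real_split q hq hV0 hE0
      have s2 : F ^ 2 ≤ F0 ^ 2 := pow_le_pow_left₀ hF0' (h1 ξ hξ) 2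
      calc (E * F) ^ 2 = E ^ 2 * F ^ 2 := by ring
        _ ≤ (V0 ^ 2 + E ^ (2 * q) / V0 ^ (2 * q - 2)) * F ^ 2 :=
            mul_le_mul_of_nonneg_right s1 (by positivity)
        _ = V0 ^ 2 * F ^ 2 + E ^ (2 * q) / V0 ^ (2 * q - 2) * F ^ 2 := by ring
        _ ≤ V0 ^ 2 * F ^ 2 + E ^ (2 * q) / V0 ^ (2 * q - 2) * F0 ^ 2 := by
            have : 0 ≤ E ^ (2 * q) / V0 ^ (2 * q - 2) := by positivity
            have := mul_le_mul_of_nonneg_left s2 this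
            linarith
        _ = V0 ^ 2 * F ^ 2 + c * E ^ (2 * q) := by
            rw [hc]; ring
    · have hξ1 : T < |ξ| := not_le.1 hξ
      have hξ0 : 0 < |ξ| := by linarith
      refine le_add_left (le_add_left ?_)
      rw [Set.indicator_of_mem (by simpa using hξ)]
      apply ENNReal.ofReal_le_ofReal
      have s1 : E ≤ N := SD_le d hd N _
      have s2 : F ≤ W / |ξ| := h2 ξ hξ1
      calc (E * F) ^ 2 ≤ (N * (W / |ξ|)) ^ 2 := by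
            apply pow_le_pow_left₀ (by positivity)
            exact mul_le_mul s1 s2 hF0' (Nat.cast_nonneg N)
        _ = _ := by
            rw [hK]
            field_simp
  have hcont : Continuous fun ξ : ℝ => c * ‖SD d N (2 * Real.pi * ξ)‖ ^ (2 * q) := by
    refine continuous_const.mul (Continuous.pow ?_ _)
    exact ((SD_cont d N).comp (by fun_prop)).norm
  have hmeas : Measurable (fun ξ : ℝ => ENNReal.ofReal (c * ‖SD d N (2 * Real.pi * ξ)‖ ^ (2 * q))) :=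
    hcont.measurable.ennreal_ofReal
  have hI2 : ∫⁻ ξ, (Set.Icc (-T) T).indicator
      (fun ξ => ENNReal.ofReal (c * ‖SD d N (2 * Real.pi * ξ)‖ ^ (2 * q))) ξ ≤ ENNReal.ofReal (c * MM) := by
    rw [lintegral_indicator measurableSet_Icc, ← ofReal_integral_eq_lintegral_ofReal]
    · apply ENNReal.ofReal_le_ofReal
      rw [integral_const_mul, integral_Icc_eq_integral_Ioc, ← intervalIntegral.integral_of_le (by linarith)]
      exact mul_le_mul_of_nonneg_left h4 hc0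
    · exact hcont.continuousOn.integrableOn_Icc
    · exact Filter.Eventually.of_forall fun ξ => by positivity
  have hI3 := tail_int hT hK0
  calc ∫⁻ ξ, ‖𝓕 (Gn d B 1 N) ξ‖ₑ ^ 2 ≤ ∫⁻ ξ, (ENNReal.ofReal (V0 ^ 2) * ‖𝓕 B ξ‖ₑ ^ 2 +
      ((Set.Icc (-T) T).indicator (fun ξ => ENNReal.ofReal (c * ‖SD d N (2 * Real.pi * ξ)‖ ^ (2 * q))) ξ +
      (Set.Iic T)ᶜ.indicator (fun x => ENNReal.ofReal (K / 2 * (x ^ 2)⁻¹)) |ξ|)) := lintegral_mono hpt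
    _ = ENNReal.ofReal (V0 ^ 2) * (∫⁻ ξ, ‖𝓕 B ξ‖ₑ ^ 2) + ((∫⁻ ξ, (Set.Icc (-T) T).indicator
        (fun ξ => ENNReal.ofReal (c * ‖SD d N (2 * Real.pi * ξ)‖ ^ (2 * q))) ξ) +
      ∫⁻ ξ : ℝ, (Set.Iic T)ᶜ.indicator (fun x => ENNReal.ofReal (K / 2 * (x ^ 2)⁻¹)) |ξ|) := by
        rw [lintegral_add_left (hFm.const_mul _), lintegral_const_mul _ hFm,
          lintegral_add_left (hmeas.indicator measurableSet_Icc)]
    _ ≤ ENNReal.ofReal (V0 ^ 2) * ENNReal.ofReal L2B + (ENNReal.ofReal (c * MM) + ENNReal.ofReal (K / T)) := by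
        rw [Pool.Agent.TH794.QD.plancherel _ hBi (memLp_of_bdd hBi hBb)]
        gcongr
    _ = _ := by
        rw [← ENNReal.ofReal_mul (by positivity), ← ENNReal.ofReal_add (by positivity) (by positivity),
          ← ENNReal.ofReal_add (by positivity) (by positivity)]
        congr 1
        rw [hc, hK]
        ring

end Pool.Agent.D0H91.MG
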