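import Mathlib
import Pool.Agent.D0H91.MG.Pl

/-! Window functions and their Fourier transforms. -/

set_option autoImplicit false

namespace Pool.Agent.D0H91.MG

open Finset MeasureTheory FourierTransform
open scoped ENNReal
open Pool.Agent.H376R2.MR (er)
open Pool.Agent.Y957.VK (four_fsum)

/-- Abel summation -/
theorem abel_eq (f g : ℕ → ℂ) (X1 : ℕ) : ∀ X : ℕ, X1 ≤ X →
    ∑ m ∈ Ioc X1 X, f m * g m = (∑ m ∈ Icc 1 X, f m) * g (X + 1) - (∑ m ∈ Icc 1 X1, f m) * g (X1 + 1) -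
      ∑ m ∈ Ioc X1 X, (∑ j ∈ Icc 1 m, f j) * (g (m + 1) - g m) := by
  intro X hX
  induction X, hX using Nat.le_induction with
  | base => simp
  | succ X hX ih =>
    rw [Finset.sum_Ioc_succ_top (by omega), ih, Finset.sum_Ioc_succ_top (by omega),
      Finset.sum_Icc_succ_top (by omega)]
    ring

theorem abel_le (f g : ℕ → ℂ) (X1 X2 : ℕ) (h12 : X1 ≤ X2) (S G TV : ℝ)
    (hS : ∀ x : ℕ, X1 ≤ x → x ≤ X2 → ‖∑ m ∈ Icc 1 x, f m‖ ≤ S)
    (hG : ∀ m : ℕ, X1 < m → ‖g m‖ ≤ G)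
    (hTV : ∑ m ∈ Ioc X1 X2, ‖g (m + 1) - g m‖ ≤ TV) :
    ‖∑ m ∈ Ioc X1 X2, f m * g m‖ ≤ S * (2 * G + TV) := by
  have hS0 : 0 ≤ S := (norm_nonneg _).trans (hS X1 le_rfl h12)
  rw [abel_eq f g X1 X2 h12]
  refine (norm_sub_le _ _).trans ?_
  have h1 : ‖(∑ m ∈ Icc 1 X2, f m) * g (X2 + 1) - (∑ m ∈ Icc 1 X1, f m) * g (X1 + 1)‖ ≤ S * (2 * G) := by
    refine (norm_sub_le _ _).trans ?_
    rw [norm_mul, norm_mul]
    have a1 := mul_le_mul (hS X2 h12 le_rfl) (hG (X2 + 1) (by omega)) (norm_nonneg _) hS0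
    have a2 := mul_le_mul (hS X1 le_rfl h12) (hG (X1 + 1) (by omega)) (norm_nonneg _) hS0
    linarith
  have h2 : ‖∑ m ∈ Ioc X1 X2, (∑ j ∈ Icc 1 m, f j) * (g (m + 1) - g m)‖ ≤ S * TV := by
    refine (norm_sum_le _ _).trans ?_
    calc ∑ m ∈ Ioc X1 X2, ‖(∑ j ∈ Icc 1 m, f j) * (g (m + 1) - g m)‖ ≤
          ∑ m ∈ Ioc X1 X2, S * ‖g (m + 1) - g m‖ := by
          refine Finset.sum_le_sum fun m hm => ?_
          rw [Finset.mem_Ioc] at hm
          rw [norm_mul]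
          exact mul_le_mul_of_nonneg_right (hS m hm.1.le hm.2) (norm_nonneg _)
      _ = S * ∑ m ∈ Ioc X1 X2, ‖g (m + 1) - g m‖ := by rw [Finset.mul_sum]
      _ ≤ S * TV := mul_le_mul_of_nonneg_left hTV hS0
  linarith

theorem log_diff {a b : ℝ} (ha : 1 / 2 ≤ a) (hb : 1 / 2 ≤ b) : |Real.log a - Real.log b| ≤ 2 * |a - b| := by
  have key : ∀ x y : ℝ, 1 / 2 ≤ x → 1 / 2 ≤ y → Real.log x - Real.log y ≤ 2 * |x - y| := by
    intro x y hx hy
    have hx0 : 0 < x := by linarith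
    have hy0 : 0 < y := by linarith
    rw [← Real.log_div hx0.ne' hy0.ne']
    have h1 := Real.log_le_sub_one_of_pos (show 0 < x / y by positivity)
    have h2 : x / y - 1 = (x - y) / y := by field_simp
    rw [h2] at h1
    refine h1.trans ?_
    rw [div_le_iff₀ hy0]
    have h3 := le_abs_self (x - y)
    have h4 := abs_nonneg (x - y)
    nlinarith
  rw [abs_le]
  constructor
  · have := key b a hb ha
    rw [abs_sub_comm] at this
    linarith
  · exact key a b ha hb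

/-- `log (1 + c / m)` -/
noncomputable def lx (c : ℝ) (m : ℕ) : ℝ := Real.log (1 + c / m)

theorem lx_half {c : ℝ} {m : ℕ} (hm : 1 ≤ m) (hc : 2 * |c| ≤ m) : 1 / 2 ≤ 1 + c / m := by
  have hm0 : (0 : ℝ) < m := by exact_mod_cast hm
  have h1 := neg_abs_le c
  have h2 : -(1 / 2) ≤ c / m := by
    rw [le_div_iff₀ hm0]
    linarith
  linarith

theorem lx_abs {c : ℝ} {m : ℕ} (hm : 1 ≤ m) (hc : 2 * |c| ≤ m) : |lx c m| ≤ 2 * |c| / m := by
  have hm0 : (0 : ℝ) < m := by exact_mod_cast hm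
  have h := log_diff (lx_half hm hc) (show (1 : ℝ) / 2 ≤ 1 by norm_num)
  rw [Real.log_one, sub_zero] at h
  unfold lx
  refine h.trans (le_of_eq ?_)
  rw [show 1 + c / m - 1 = c / m by ring, abs_div, abs_of_pos hm0]
  ring

theorem lx_diff {c : ℝ} {m : ℕ} (hm : 1 ≤ m) (hc : 2 * |c| ≤ m) :
    |lx c (m + 1) - lx c m| ≤ 2 * |c| * (1 / (m : ℝ) - 1 / ((m : ℝ) + 1)) := by
  have hm0 : (0 : ℝ) < m := by exact_mod_cast hm
  have hc' : 2 * |c| ≤ ((m + 1 : ℕ) : ℝ) := by push_cast; linarith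
  have h := log_diff (lx_half (by omega : 1 ≤ m + 1) hc') (lx_half hm hc)
  unfold lx
  refine h.trans (le_of_eq ?_)
  have e : 1 + c / ((m + 1 : ℕ) : ℝ) - (1 + c / m) = -(c * (1 / (m : ℝ) - 1 / ((m : ℝ) + 1))) := by
    push_cast
    field_simp
    ring
  have h2 : 0 ≤ 1 / (m : ℝ) - 1 / ((m : ℝ) + 1) := by
    rw [sub_nonneg]
    exact one_div_le_one_div_of_le hm0 (by linarith)
  rw [e, abs_neg, abs_mul, abs_of_nonneg h2]
  ring

theorem tele (X1 : ℕ) : ∀ X : ℕ, X1 ≤ X → ∑ m ∈ Ioc X1 X, (1 / (m : ℝ) - 1 / ((m : ℝ) + 1)) =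
    1 / ((X1 : ℝ) + 1) - 1 / ((X : ℝ) + 1) := by
  intro X hX
  induction X, hX using Nat.le_induction with
  | base => simp
  | succ X hX ih =>
    rw [Finset.sum_Ioc_succ_top (by omega), ih]
    push_cast
    ring

/-! ### the integrals -/

theorem er_cont (τ : ℝ) : Continuous (er τ) := by
  unfold er
  fun_prop

theorem er_int_le {τ : ℝ} (hτ : τ ≠ 0) (a c : ℝ) : ‖∫ v in a..c, er τ v‖ ≤ 2 / |τ| := by
  have h1 : ∀ v : ℝ, er τ v = Complex.exp (((τ : ℂ) * Complex.I) * v) := by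
    intro v
    unfold er
    congr 1
    push_cast
    ring
  have hc : (τ : ℂ) * Complex.I ≠ 0 := mul_ne_zero (by exact_mod_cast hτ) Complex.I_ne_zero
  rw [intervalIntegral.integral_congr fun v _ => h1 v, integral_exp_mul_complex hc, norm_div, norm_mul,
    Complex.norm_I, mul_one, Complex.norm_real, Real.norm_eq_abs]
  apply div_le_div_of_nonneg_right _ (abs_nonneg τ)
  refine (norm_sub_le _ _).trans ?_
  have h2 : ∀ v : ℝ, ‖Complex.exp (((τ : ℂ) * Complex.I) * v)‖ = 1 := by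
    intro v
    rw [← h1, er_nrm]
  rw [h2, h2]
  norm_num

theorem er_int_lip (τ a c : ℝ) : ‖∫ v in a..c, er τ v‖ ≤ |c - a| := by
  have := intervalIntegral.norm_integral_le_of_norm_le_const (a := a) (b := c) (f := er τ) (C := 1)
    fun v _ => (er_nrm τ v).le
  rwa [one_mul] at this

theorem er_int_diff (τ a c a' c' : ℝ) :
    ‖(∫ v in a'..c', er τ v) - ∫ v in a..c, er τ v‖ ≤ |c' - c| + |a' - a| := by
  have hi : ∀ x y : ℝ, IntervalIntegrable (er τ) volume x y := fun x y => (er_cont τ).intervalIntegrable _ _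
  have e1 : ∀ x y : ℝ, ∫ v in x..y, er τ v = (∫ v in (0 : ℝ)..y, er τ v) - ∫ v in (0 : ℝ)..x, er τ v := by
    intro x y
    rw [intervalIntegral.integral_interval_sub_left (hi _ _) (hi _ _)]
  have e2 : (∫ v in a'..c', er τ v) - ∫ v in a..c, er τ v =
      (∫ v in c..c', er τ v) - ∫ v in a..a', er τ v := by
    rw [e1 a' c', e1 a c, e1 c c', e1 a a']
    ring
  rw [e2]
  exact (norm_sub_le _ _).trans (add_le_add (er_int_lip _ _ _) (er_int_lip _ _ _))

/-! ### the window function -/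

/-- lower end -/
noncomputable def aw (k s y : ℝ) (m : ℕ) : ℝ := Real.log (m + s - y) / k

/-- upper end -/
noncomputable def cw (k s : ℝ) (m : ℕ) : ℝ := Real.log (m + s) / k

/-- the window function: the sum of the `b m` with `X1 < m ≤ X2`, `m + s - y ≤ e^{kv} < m + s` -/
noncomputable def Wv (b : ℕ → ℂ) (k s y : ℝ) (X1 X2 : ℕ) (v : ℝ) : ℂ :=
  ∑ m ∈ Ioc X1 X2, (Set.Ico (aw k s y m) (cw k s m)).indicator (fun _ => b m) v

theorem ind_int (a c : ℝ) (z : ℂ) : Integrable ((Set.Ico a c).indicator (fun _ : ℝ => z)) := by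
  rw [integrable_indicator_iff measurableSet_Ico]
  exact integrableOn_const (by simp)

theorem Wv_int (b : ℕ → ℂ) (k s y : ℝ) (X1 X2 : ℕ) : Integrable (Wv b k s y X1 X2) := by
  unfold Wv
  exact integrable_finsetSum _ fun m _ => ind_int _ _ _

theorem four_ind {a c : ℝ} (hac : a ≤ c) (z : ℂ) (ξ : ℝ) :
    𝓕 ((Set.Ico a c).indicator (fun _ : ℝ => z)) ξ = z * ∫ v in a..c, er (-(2 * Real.pi * ξ)) v := by
  rw [Real.fourier_real_eq_integral_exp_smul]
  have e : (fun v : ℝ => Complex.exp (((-2 * Real.pi * v * ξ : ℝ) : ℂ) * Complex.I) •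
      (Set.Ico a c).indicator (fun _ : ℝ => z) v) =
      (Set.Ico a c).indicator (fun v : ℝ => z * er (-(2 * Real.pi * ξ)) v) := by
    funext v
    by_cases hv : v ∈ Set.Ico a c
    · rw [Set.indicator_of_mem hv, Set.indicator_of_mem hv, smul_eq_mul, mul_comm]
      congr 1
      unfold er
      congr 3
      ring
    · rw [Set.indicator_of_notMem hv, Set.indicator_of_notMem hv, smul_zero]
  rw [e, integral_indicator measurableSet_Ico, integral_Ico_eq_integral_Ioo,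
    ← integral_Ioc_eq_integral_Ioo, ← intervalIntegral.integral_of_le hac,
    intervalIntegral.integral_const_mul]

theorem aw_le_cw {k s y : ℝ} (hk : 0 < k) (hy : 0 ≤ y) {m : ℕ} (hm : 0 < (m : ℝ) + s - y) :
    aw k s y m ≤ cw k s m := by
  unfold aw cw
  apply div_le_div_of_nonneg_right _ hk.le
  exact Real.log_le_log hm (by linarith)

theorem four_Wv (b : ℕ → ℂ) {k s y : ℝ} (hk : 0 < k) (hy : 0 ≤ y) {X1 X2 : ℕ}
    (hm : ∀ m : ℕ, X1 < m → 0 < (m : ℝ) + s - y) (ξ : ℝ) :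
    𝓕 (Wv b k s y X1 X2) ξ =
      ∑ m ∈ Ioc X1 X2, b m * ∫ v in (aw k s y m)..(cw k s m), er (-(2 * Real.pi * ξ)) v := by
  have e : Wv b k s y X1 X2 = fun v => ∑ m ∈ Ioc X1 X2,
      ((Set.Ico (aw k s y m) (cw k s m)).indicator (fun _ => b m)) v := rfl
  rw [e, four_fsum _ _ fun m _ => ind_int _ _ _]
  refine Finset.sum_congr rfl fun m hm' => ?_
  rw [Finset.mem_Ioc] at hm'
  exact four_ind (aw_le_cw hk hy (hm m hm'.1)) _ _

/-- bound for large frequencies -/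
theorem four_Wv_tail (b : ℕ → ℂ) {k s y Λ : ℝ} (hk : 0 < k) (hy : 0 ≤ y) {X1 X2 : ℕ} (hΛ : 0 ≤ Λ)
    (hm : ∀ m : ℕ, X1 < m → 0 < (m : ℝ) + s - y) (hb : ∀ m ∈ Ioc X1 X2, ‖b m‖ ≤ Λ) {ξ : ℝ} (hξ : ξ ≠ 0) :
    ‖𝓕 (Wv b k s y X1 X2) ξ‖ ≤ X2 * Λ / |ξ| := by
  rw [four_Wv b hk hy hm]
  refine (norm_sum_le _ _).trans ?_
  have hξ0 : 0 < |ξ| := abs_pos.2 hξ
  have hτ : -(2 * Real.pi * ξ) ≠ 0 := by
    have := Real.pi_pos
    simp [hξ, this.ne']
  calc ∑ m ∈ Ioc X1 X2, ‖b m * ∫ v in (aw k s y m)..(cw k s m), er (-(2 * Real.pi * ξ)) v‖ ≤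
        ∑ m ∈ Ioc X1 X2, Λ / |ξ| := by
        refine Finset.sum_le_sum fun m hm => ?_
        rw [norm_mul]
        have h1 := er_int_le hτ (aw k s y m) (cw k s m)
        have h2 : 2 / |-(2 * Real.pi * ξ)| ≤ 1 / |ξ| := by
          rw [abs_neg, abs_mul, abs_of_pos (show 0 < 2 * Real.pi by positivity)]
          rw [div_le_div_iff₀ (by positivity) hξ0]
          have := Real.pi_gt_three
          nlinarith
        calc ‖b m‖ * ‖∫ v in (aw k s y m)..(cw k s m), er (-(2 * Real.pi * ξ)) v‖ ≤ Λ * (1 / |ξ|) :=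
              mul_le_mul (hb m hm) (h1.trans h2) (norm_nonneg _) hΛ
          _ = Λ / |ξ| := by ring
    _ = ((X2 - X1 : ℕ) : ℝ) * (Λ / |ξ|) := by
        rw [Finset.sum_const, Nat.card_Ioc, nsmul_eq_mul]
    _ ≤ X2 * (Λ / |ξ|) := by
        apply mul_le_mul_of_nonneg_right _ (by positivity)
        exact_mod_cast Nat.sub_le _ _
    _ = _ := by ring

theorem shift_int (τ a c L : ℝ) :
    ∫ v in a..c, er τ v = er τ L * ∫ v in (a - L)..(c - L), er τ v := by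
  have h := intervalIntegral.integral_comp_add_right (a := a - L) (b := c - L) (er τ) L
  rw [sub_add_cancel, sub_add_cancel] at h
  rw [← h, ← intervalIntegral.integral_const_mul]
  refine intervalIntegral.integral_congr fun v _ => ?_
  unfold er
  rw [← Complex.exp_add]
  congr 1
  push_cast
  ring

theorem log_add_eq {m : ℕ} (hm : 1 ≤ m) {c : ℝ} (hc : 2 * |c| ≤ m) :
    Real.log ((m : ℝ) + c) = Real.log m + lx c m := by
  have hm0 : (0 : ℝ) < m := by exact_mod_cast hm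
  have h1 := lx_half hm hc
  unfold lx
  rw [← Real.log_mul hm0.ne' (by linarith)]
  congr 1
  field_simp

/-- the factor `g` -/
noncomputable def gw (τ k s y : ℝ) (m : ℕ) : ℂ := ∫ v in (lx (s - y) m / k)..(lx s m / k), er τ v

/-- bound for small frequencies -/
theorem four_Wv_main (b : ℕ → ℂ) {k s y S : ℝ} (hk : 0 < k) (hy : 1 ≤ y) (hs0 : 0 ≤ s) (hs1 : s ≤ 1)
    {X1 X2 : ℕ} (h12 : X1 ≤ X2) (hX1 : 2 * y ≤ X1) {ξ : ℝ}
    (hS : ∀ x : ℕ, X1 ≤ x → x ≤ X2 →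
      ‖∑ m ∈ Icc 1 x, b m * er (-(2 * Real.pi * ξ) / k) (Real.log m)‖ ≤ S) :
    ‖𝓕 (Wv b k s y X1 X2) ξ‖ ≤ S * (6 * y / (k * X1)) := by
  have hX1' : (2 : ℝ) ≤ X1 := by linarith
  have hX10 : (0 : ℝ) < X1 := by linarith
  have habs : |s - y| = y - s := by rw [abs_of_nonpos (by linarith)]; ring
  have hm1 : ∀ m : ℕ, X1 < m → 1 ≤ m ∧ (X1 : ℝ) ≤ m ∧ 2 * |s| ≤ m ∧ 2 * |s - y| ≤ m := by
    intro m hm
    have h1 : (X1 : ℝ) ≤ m := by exact_mod_cast hm.le
    refine ⟨by omega, h1, ?_, ?_⟩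
    · rw [abs_of_nonneg hs0]; linarith
    · rw [habs]; linarith
  rw [four_Wv b hk (by linarith) fun m hm => by
    have := hm1 m hm
    linarith [this.2.1]]
  set τ : ℝ := -(2 * Real.pi * ξ) with hτ
  have e1 : ∀ m ∈ Ioc X1 X2, b m * ∫ v in (aw k s y m)..(cw k s m), er τ v =
      (b m * er (τ / k) (Real.log m)) * gw τ k s y m := by
    intro m hm
    rw [Finset.mem_Ioc] at hm
    obtain ⟨a1, a2, a3, a4⟩ := hm1 m hm.1
    have c1 : aw k s y m - Real.log m / k = lx (s - y) m / k := by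
      unfold aw
      rw [add_sub_assoc, log_add_eq a1 a4]
      ring
    have c2 : cw k s m - Real.log m / k = lx s m / k := by
      unfold cw
      rw [log_add_eq a1 a3]
      ring
    rw [shift_int τ _ _ (Real.log m / k), c1, c2]
    unfold gw
    have c3 : er τ (Real.log m / k) = er (τ / k) (Real.log m) := by
      unfold er
      congr 3
      ring
    rw [c3]
    ring
  rw [Finset.sum_congr rfl e1]
  have hG : ∀ m : ℕ, X1 < m → ‖gw τ k s y m‖ ≤ 2 * y / (k * X1) := by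
    intro m hm
    obtain ⟨a1, a2, a3, a4⟩ := hm1 m hm
    have hm0 : (0 : ℝ) < m := by linarith
    unfold gw
    refine (er_int_lip _ _ _).trans ?_
    rw [← sub_div, abs_div, abs_of_pos hk]
    have b1 := lx_abs a1 a3
    have b2 := lx_abs a1 a4
    rw [habs] at b2
    rw [abs_of_nonneg hs0] at b1
    have b3 : |lx s m - lx (s - y) m| ≤ 2 * y / m := by
      refine (abs_sub _ _).trans ?_
      calc |lx s m| + |lx (s - y) m| ≤ 2 * s / m + 2 * (y - s) / m := add_le_add b1 b2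
        _ = 2 * y / m := by ring
    calc |lx s m - lx (s - y) m| / k ≤ (2 * y / m) / k := by gcongr
      _ = 2 * y / (k * m) := by
          rw [div_div, mul_comm (m : ℝ) k]
      _ ≤ _ := by gcongr
  have hTV : ∑ m ∈ Ioc X1 X2, ‖gw τ k s y (m + 1) - gw τ k s y m‖ ≤ 2 * y / (k * X1) := by
    calc ∑ m ∈ Ioc X1 X2, ‖gw τ k s y (m + 1) - gw τ k s y m‖ ≤
          ∑ m ∈ Ioc X1 X2, 2 * y / k * (1 / (m : ℝ) - 1 / ((m : ℝ) + 1)) := by
          refine Finset.sum_le_sum fun m hm => ?_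
          rw [Finset.mem_Ioc] at hm
          obtain ⟨a1, a2, a3, a4⟩ := hm1 m hm.1
          unfold gw
          refine (er_int_diff _ _ _ _ _).trans ?_
          rw [← sub_div, ← sub_div, abs_div, abs_div, abs_of_pos hk]
          have b1 := lx_diff a1 a3
          have b2 := lx_diff a1 a4
          rw [habs] at b2
          rw [abs_of_nonneg hs0] at b1
          calc |lx s (m + 1) - lx s m| / k + |lx (s - y) (m + 1) - lx (s - y) m| / k ≤
                (2 * s * (1 / (m : ℝ) - 1 / ((m : ℝ) + 1))) / k +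
                (2 * (y - s) * (1 / (m : ℝ) - 1 / ((m : ℝ) + 1))) / k := by gcongr
            _ = _ := by ring
      _ = 2 * y / k * (1 / ((X1 : ℝ) + 1) - 1 / ((X2 : ℝ) + 1)) := by
          rw [← Finset.mul_sum, tele X1 X2 h12]
      _ ≤ 2 * y / k * (1 / X1) := by
          apply mul_le_mul_of_nonneg_left _ (by positivity)
          have h1 : 1 / ((X1 : ℝ) + 1) ≤ 1 / X1 := one_div_le_one_div_of_le hX10 (by linarith)
          have h2 : 0 ≤ 1 / ((X2 : ℝ) + 1) := by positivity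
          linarith
      _ = _ := by rw [div_mul_div_comm, mul_one]
  refine (abel_le (fun m => b m * er (τ / k) (Real.log m)) (gw τ k s y) X1 X2 h12 S _ _ hS hG hTV).trans
    (le_of_eq ?_)
  ring

/-! ### the window function as a sum over a short interval -/

theorem mem_win {k s : ℝ} (hk : 0 < k) (hs0 : 0 ≤ s) {y m : ℕ} {v : ℝ}
    (hm : 0 < (m : ℝ) + s - y) (hv : s ≤ Real.exp (k * v)) :
    v ∈ Set.Ico (aw k s y m) (cw k s m) ↔
      m ∈ Ioc ⌊Real.exp (k * v) - s⌋₊ (⌊Real.exp (k * v) - s⌋₊ + y) := by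
  have hy0 : (0 : ℝ) ≤ y := Nat.cast_nonneg y
  have h0 : 0 ≤ Real.exp (k * v) - s := by linarith
  rw [Set.mem_Ico, Finset.mem_Ioc]
  unfold aw cw
  rw [div_le_iff₀ hk, lt_div_iff₀ hk, mul_comm v k, Real.log_le_iff_le_exp hm,
    Real.lt_log_iff_exp_lt (by linarith), Nat.floor_lt h0, ← Nat.floor_add_natCast h0,
    Nat.le_floor_iff (by linarith)]
  constructor
  · rintro ⟨h1, h2⟩
    constructor <;> linarith
  · rintro ⟨h1, h2⟩
    constructor <;> linarith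

theorem Wv_eq (b : ℕ → ℂ) {k s : ℝ} (hk : 0 < k) (hs0 : 0 ≤ s) {y X1 X2 : ℕ} {v : ℝ}
    (hm : ∀ m : ℕ, X1 < m → 0 < (m : ℝ) + s - y) (hv : s ≤ Real.exp (k * v)) :
    Wv b k s y X1 X2 v = ∑ m ∈ (Ioc X1 X2).filter
      (fun m => m ∈ Ioc ⌊Real.exp (k * v) - s⌋₊ (⌊Real.exp (k * v) - s⌋₊ + y)), b m := by
  unfold Wv
  rw [Finset.sum_filter]
  refine Finset.sum_congr rfl fun m hm' => ?_
  rw [Finset.mem_Ioc] at hm'
  have h := mem_win (v := v) (y := y) (m := m) hk hs0 (hm m hm'.1) hv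
  by_cases h1 : v ∈ Set.Ico (aw k s y m) (cw k s m)
  · rw [Set.indicator_of_mem h1, if_pos (h.1 h1)]
  · rw [Set.indicator_of_notMem h1, if_neg fun h2 => h1 (h.2 h2)]

theorem Wv_supp (b : ℕ → ℂ) {k s : ℝ} (hk : 0 < k) (hs0 : 0 ≤ s) (hs1 : s ≤ 1) {y X1 X2 : ℕ} {v : ℝ}
    (hm : ∀ m : ℕ, X1 < m → 1 ≤ (m : ℝ) + s - y)
    (hv : v ∉ Set.Icc 0 (Real.log (X2 + 1) / k)) : Wv b k s y X1 X2 v = 0 := by
  unfold Wv
  refine Finset.sum_eq_zero fun m hm' => ?_
  rw [Finset.mem_Ioc] at hm'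
  rw [Set.indicator_of_notMem]
  intro h
  apply hv
  have h1 := hm m hm'.1
  have h2 : (m : ℝ) ≤ X2 := by exact_mod_cast hm'.2
  have hm0 : (0 : ℝ) ≤ m := Nat.cast_nonneg m
  rw [Set.mem_Ico] at h
  unfold aw cw at h
  rw [div_le_iff₀ hk, lt_div_iff₀ hk] at h
  constructor
  · have h3 : 0 ≤ Real.log ((m : ℝ) + s - y) := Real.log_nonneg h1
    by_contra hcon
    push Not at hcon
    nlinarith [h.1]
  · rw [le_div_iff₀ hk]
    refine h.2.le.trans (Real.log_le_log ?_ (by linarith))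
    have : (0 : ℝ) ≤ y := Nat.cast_nonneg y
    linarith

theorem Wv_bd (b : ℕ → ℂ) {k s Λ : ℝ} (hk : 0 < k) (hs0 : 0 ≤ s) (hs1 : s ≤ 1) (hΛ : 0 ≤ Λ) {y X1 X2 : ℕ}
    (hm : ∀ m : ℕ, X1 < m → 1 ≤ (m : ℝ) + s - y) (hb : ∀ m ∈ Ioc X1 X2, ‖b m‖ ≤ Λ) (v : ℝ) :
    ‖Wv b k s y X1 X2 v‖ ≤ y * Λ := by
  by_cases hv : v ∈ Set.Icc 0 (Real.log (X2 + 1) / k)
  · have h1 : s ≤ Real.exp (k * v) := by
      have := Real.add_one_le_exp (k * v)
      have h2 : 0 ≤ k * v := mul_nonneg hk.le hv.1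
      linarith
    rw [Wv_eq b hk hs0 (fun m h => by linarith [hm m h]) h1]
    refine (norm_sum_le _ _).trans ?_
    calc _ ≤ ∑ m ∈ (Ioc X1 X2).filter
          (fun m => m ∈ Ioc ⌊Real.exp (k * v) - s⌋₊ (⌊Real.exp (k * v) - s⌋₊ + y)), Λ :=
          Finset.sum_le_sum fun m hm => hb m (Finset.mem_filter.1 hm).1
      _ = (((Ioc X1 X2).filter
          (fun m => m ∈ Ioc ⌊Real.exp (k * v) - s⌋₊ (⌊Real.exp (k * v) - s⌋₊ + y))).card : ℝ) * Λ := by
          rw [Finset.sum_const, nsmul_eq_mul]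
      _ ≤ y * Λ := by
          apply mul_le_mul_of_nonneg_right _ hΛ
          have h3 : ((Ioc X1 X2).filter
            (fun m => m ∈ Ioc ⌊Real.exp (k * v) - s⌋₊ (⌊Real.exp (k * v) - s⌋₊ + y))).card ≤
            (Ioc ⌊Real.exp (k * v) - s⌋₊ (⌊Real.exp (k * v) - s⌋₊ + y)).card := by
            apply Finset.card_le_card
            intro m hm
            exact (Finset.mem_filter.1 hm).2
          rw [Nat.card_Ioc, Nat.add_sub_cancel_left] at h3
          exact_mod_cast h3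
  · rw [Wv_supp b hk hs0 hs1 hm hv, norm_zero]
    positivity

theorem Wv_sq (b : ℕ → ℂ) {k s Λ : ℝ} (hk : 0 < k) (hs0 : 0 ≤ s) (hs1 : s ≤ 1) (hΛ : 0 ≤ Λ) {y X1 X2 : ℕ}
    (hm : ∀ m : ℕ, X1 < m → 1 ≤ (m : ℝ) + s - y) (hb : ∀ m ∈ Ioc X1 X2, ‖b m‖ ≤ Λ) :
    ∫⁻ v, ‖Wv b k s y X1 X2 v‖ₑ ^ 2 ≤ ENNReal.ofReal ((y * Λ) ^ 2 * (Real.log (X2 + 1) / k)) := by
  have hlog : 0 ≤ Real.log ((X2 : ℝ) + 1) / k := by
    apply div_nonneg _ hk.le
    apply Real.log_nonneg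
    have : (0 : ℝ) ≤ X2 := Nat.cast_nonneg X2
    linarith
  calc ∫⁻ v, ‖Wv b k s y X1 X2 v‖ₑ ^ 2 ≤
      ∫⁻ v, (Set.Icc 0 (Real.log (X2 + 1) / k)).indicator (fun _ => ENNReal.ofReal ((y * Λ) ^ 2)) v := by
        refine lintegral_mono fun v => ?_
        by_cases hv : v ∈ Set.Icc 0 (Real.log (X2 + 1) / k)
        · rw [Set.indicator_of_mem hv]
          exact Pool.Agent.Y957.VK.enorm_sq_le (Wv_bd b hk hs0 hs1 hΛ hm hb v)
        · rw [Set.indicator_of_notMem hv, Wv_supp b hk hs0 hs1 hm hv]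
          simp
    _ = ENNReal.ofReal ((y * Λ) ^ 2) * ENNReal.ofReal (Real.log (X2 + 1) / k) := by
        rw [lintegral_indicator measurableSet_Icc, setLIntegral_const, Real.volume_Icc, sub_zero]
    _ = _ := by rw [← ENNReal.ofReal_mul (by positivity)]

end Pool.Agent.D0H91.MG
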