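import Mathlib
import Pool.Agent.D0H91.MG.Win

/-! The mean square over the dilation, with all parameters chosen. -/

set_option autoImplicit false

namespace Pool.Agent.D0H91.MG

open Finset MeasureTheory FourierTransform Filter
open scoped ENNReal
open Pool.Agent.H376R2.MR (er)
open Pool.Agent.Y957.VK (Gn Neg)

theorem alg1 {N y L c : ℝ} (B : ℕ) (hL : 1 ≤ L) (hc : 3 * c ≤ L) :
    (N / L ^ (B + 2)) ^ 2 * (y ^ 2 * (c * L ^ 3)) ≤ N ^ 2 * y ^ 2 / (3 * L ^ B) := by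
  have hL0 : 0 < L := by linarith
  have e : (N / L ^ (B + 2)) ^ 2 * (y ^ 2 * (c * L ^ 3)) = N ^ 2 * y ^ 2 * (c / L ^ (2 * B + 1)) := by
    rw [div_pow, ← pow_mul]
    have : L ^ ((B + 2) * 2) = L ^ (2 * B + 1) * L ^ 3 := by
      rw [← pow_add]; congr 1; ring
    rw [this]
    field_simp
  rw [e, mul_div_assoc]
  have h2 : c / L ^ (2 * B + 1) ≤ 1 / (3 * L ^ B) := by
    rw [div_le_div_iff₀ (by positivity) (by positivity)]
    have h3 : L ≤ L ^ (B + 1) := by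
      calc L = L ^ 1 := (pow_one L).symm
        _ ≤ L ^ (B + 1) := pow_le_pow_right₀ hL (by omega)
    calc c * (3 * L ^ B) = (3 * c) * L ^ B := by ring
      _ ≤ L ^ (B + 1) * L ^ B := mul_le_mul_of_nonneg_right (hc.trans h3) (by positivity)
      _ = 1 * L ^ (2 * B + 1) := by
          rw [one_mul, ← pow_add]
          congr 1
          ring
  have h1 : 0 ≤ N ^ 2 * y ^ 2 := by positivity
  calc N ^ 2 * y ^ 2 * (c / L ^ (2 * B + 1)) ≤ N ^ 2 * y ^ 2 * (1 / (3 * L ^ B)) :=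
        mul_le_mul_of_nonneg_left h2 h1
    _ = N ^ 2 * (y ^ 2 / (3 * L ^ B)) := by ring

theorem alg2 {N y L c1 C : ℝ} (B B1 E Em q B' : ℕ) (hq : 1 ≤ q) (hL : 1 ≤ L) (hN : 0 < N)
    (hB' : B' = E + Em + B1 * q + B + 1)
    (hc : 3 * (c1 ^ 2 * (2 * C * 2 ^ Em)) ≤ L) (hC : 0 ≤ C) :
    (c1 * y * L ^ E / L ^ B') ^ 2 * (2 * C * N ^ (2 * q) * (2 * L) ^ Em) / (N / L ^ B1) ^ (2 * q - 2) ≤
      N ^ 2 * y ^ 2 / (3 * L ^ B) := by
  have hL0 : 0 < L := by linarith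
  obtain ⟨r, rfl⟩ : ∃ r, q = r + 1 := ⟨q - 1, by omega⟩
  have hr : 2 * (r + 1) - 2 = 2 * r := by omega
  rw [hr]
  have e : (c1 * y * L ^ E / L ^ B') ^ 2 * (2 * C * N ^ (2 * (r + 1)) * (2 * L) ^ Em) /
      (N / L ^ B1) ^ (2 * r) =
      N ^ 2 * y ^ 2 * ((c1 ^ 2 * (2 * C * 2 ^ Em)) * (L ^ (2 * E + Em + B1 * (2 * r)) / L ^ (2 * B'))) := by
    have e1 : N ^ (2 * (r + 1)) = N ^ 2 * N ^ (2 * r) := by rw [← pow_add]; congr 1; ring
    have e2 : (N / L ^ B1) ^ (2 * r) = N ^ (2 * r) / L ^ (B1 * (2 * r)) := by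
      rw [div_pow, ← pow_mul]
    have e3 : L ^ (2 * E + Em + B1 * (2 * r)) = L ^ (2 * E) * L ^ Em * L ^ (B1 * (2 * r)) := by
      rw [pow_add, pow_add]
    have e4 : L ^ (2 * B') = (L ^ B') ^ 2 := by rw [← pow_mul]; congr 1; ring
    have e5 : L ^ (2 * E) = (L ^ E) ^ 2 := by rw [← pow_mul]; congr 1; ring
    rw [e1, e2, e3, e4, e5, mul_pow 2 L]
    field_simp
  rw [e]
  have h0 : 0 ≤ c1 ^ 2 * (2 * C * 2 ^ Em) := by positivity
  have h2 : (c1 ^ 2 * (2 * C * 2 ^ Em)) * (L ^ (2 * E + Em + B1 * (2 * r)) / L ^ (2 * B')) ≤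
      1 / (3 * L ^ B) := by
    rw [← mul_div_assoc, div_le_div_iff₀ (by positivity) (by positivity)]
    calc (c1 ^ 2 * (2 * C * 2 ^ Em)) * L ^ (2 * E + Em + B1 * (2 * r)) * (3 * L ^ B) =
          (3 * (c1 ^ 2 * (2 * C * 2 ^ Em))) * (L ^ (2 * E + Em + B1 * (2 * r)) * L ^ B) := by ring
      _ ≤ L * (L ^ (2 * E + Em + B1 * (2 * r)) * L ^ B) := mul_le_mul_of_nonneg_right hc (by positivity)
      _ = L ^ (1 + (2 * E + Em + B1 * (2 * r)) + B) := by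
          ring
      _ ≤ L ^ (2 * B') := by
          apply pow_le_pow_right₀ hL
          rw [hB']
          nlinarith
      _ = 1 * L ^ (2 * B') := (one_mul _).symm
  calc N ^ 2 * y ^ 2 * ((c1 ^ 2 * (2 * C * 2 ^ Em)) * (L ^ (2 * E + Em + B1 * (2 * r)) / L ^ (2 * B'))) ≤
        N ^ 2 * y ^ 2 * (1 / (3 * L ^ B)) := mul_le_mul_of_nonneg_left h2 (by positivity)
    _ = _ := by ring

theorem ev_logpow (c : ℝ) (B : ℕ) : ∀ᶠ N : ℕ in atTop, c * Real.log N ^ B ≤ N := by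
  have h1 := (Real.isLittleO_pow_log_id_atTop (n := B)).bound (show (0 : ℝ) < 1 / (|c| + 1) by positivity)
  have h2 := tendsto_natCast_atTop_atTop.eventually h1
  filter_upwards [h2, eventually_ge_atTop 1] with N hN hN1
  have hl : 0 ≤ Real.log (N : ℝ) := Real.log_natCast_nonneg N
  rw [id, Real.norm_of_nonneg (Nat.cast_nonneg N), Real.norm_of_nonneg (by positivity)] at hN
  have hc : 0 < |c| + 1 := by positivity
  calc c * Real.log N ^ B ≤ (|c| + 1) * Real.log N ^ B := by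
        apply mul_le_mul_of_nonneg_right _ (by positivity)
        have := le_abs_self c
        linarith
    _ ≤ (|c| + 1) * (1 / (|c| + 1) * N) := mul_le_mul_of_nonneg_left hN hc.le
    _ = N := by field_simp

theorem ev_logge (c : ℝ) : ∀ᶠ N : ℕ in atTop, c ≤ Real.log N :=
  (Real.tendsto_log_atTop.comp tendsto_natCast_atTop_atTop).eventually_ge_atTop c

theorem eng1 (b : ℕ → ℂ) (hb : ∀ m : ℕ, ‖b m‖ ≤ Real.log (m + 3)) (hneg : Neg b) (k : ℝ) (hk : 0 < k)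
    (B E : ℕ) : ∀ᶠ N : ℕ in atTop, ∀ X1 X2 : ℕ, (N : ℝ) ^ (k / 2) ≤ X1 → (X2 : ℝ) ≤ (N : ℝ) ^ (k + 1) →
      X1 ≤ X2 → (X2 : ℝ) ≤ Real.log N ^ E * X1 → ∀ s : ℝ, 0 ≤ s → s ≤ 1 → ∀ y : ℕ, 1 ≤ y →
      2 * (y : ℝ) ≤ X1 → ∀ d : ℕ → ℂ, (∀ n, ‖d n‖ ≤ 1) →
      ∫⁻ u, ‖Gn d (Wv b k s y X1 X2) 1 N u‖ₑ ^ 2 ≤
        ENNReal.ofReal ((N : ℝ) ^ 2 * (y : ℝ) ^ 2 / Real.log N ^ B) := by
  -- parameters
  set A0 : ℕ := ⌈2 * k⌉₊ + 6 with hA0
  have hA0k : 2 * k + 6 ≤ (A0 : ℝ) := by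
    rw [hA0]
    push_cast
    have := Nat.le_ceil (2 * k)
    linarith
  set A : ℕ := ⌈2 * ((A0 : ℝ) + 1) / k⌉₊ with hA
  have hAk : (A0 : ℝ) + 1 ≤ k / 2 * A := by
    have h1 : 2 * ((A0 : ℝ) + 1) / k ≤ A := Nat.le_ceil _
    rw [div_le_iff₀ hk] at h1
    linarith
  obtain ⟨C, Em, hC, hmom⟩ := moment A0
  set B1 : ℕ := B + 2 with hB1
  obtain ⟨B', hB'⟩ : ∃ B' : ℕ, B' = E + Em + B1 * A0 + B + 1 := ⟨_, rfl⟩
  obtain ⟨Cn, hCn⟩ := hneg A B'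
  set c1 : ℝ := 6 * |Cn| / (k * (k / 2) ^ B') with hc1
  have hc10 : 0 ≤ c1 := by positivity
  filter_upwards [ev_logge 1, ev_logge (3 * ((k + 2) ^ 3 / k)), ev_logge (3 * (c1 ^ 2 * (2 * C * 2 ^ Em))),
    ev_logpow (6 * (k + 2) ^ 2) (B + 2), eventually_ge_atTop (⌈2 * Real.pi / k⌉₊ + 4)] with
    N hL1 hL2 hL3 hL4 hN4 X1 X2 hX1 hX2 h12 hXX s hs0 hs1 y hy hyX d hd
  set L := Real.log N with hL
  have hL0 : 0 < L := by linarith
  have hNr4 : (4 : ℝ) ≤ N := by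
    have : 4 ≤ N := by omega
    exact_mod_cast this
  have hN0 : (0 : ℝ) < N := by linarith
  have hN1 : (1 : ℝ) ≤ N := by linarith
  have hNpi : 2 * Real.pi / k ≤ N := by
    have h1 := Nat.le_ceil (2 * Real.pi / k)
    have h2 : ((⌈2 * Real.pi / k⌉₊ : ℕ) : ℝ) ≤ N := by exact_mod_cast (by omega : ⌈2 * Real.pi / k⌉₊ ≤ N)
    linarith
  have hyr : (1 : ℝ) ≤ y := by exact_mod_cast hy
  have hX1r : (2 : ℝ) ≤ X1 := by linarith
  have hX10 : (0 : ℝ) < X1 := by linarith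
  have hX12 : (X1 : ℝ) ≤ X2 := by exact_mod_cast h12
  -- size of the coefficients
  set Λ : ℝ := (k + 2) * L with hΛ
  have hΛ0 : 0 ≤ Λ := by positivity
  have hX23 : Real.log ((X2 : ℝ) + 3) ≤ Λ := by
    have h1 : (X2 : ℝ) + 3 ≤ (N : ℝ) ^ (k + 2) := by
      have h2 : (N : ℝ) ^ (k + 2) = (N : ℝ) ^ (k + 1) * N := by
        rw [← Real.rpow_add_one hN0.ne']
        congr 1
        ring
      have h3 : 1 ≤ (N : ℝ) ^ (k + 1) := Real.one_le_rpow hN1 (by linarith)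
      rw [h2]
      nlinarith
    have h4 := Real.log_le_log (by linarith) h1
    rwa [Real.log_rpow hN0] at h4
  have hbΛ : ∀ m ∈ Ioc X1 X2, ‖b m‖ ≤ Λ := by
    intro m hm
    rw [Finset.mem_Ioc] at hm
    refine (hb m).trans (le_trans (Real.log_le_log ?_ ?_) hX23)
    · have : (0 : ℝ) ≤ m := Nat.cast_nonneg m
      linarith
    · have : (m : ℝ) ≤ X2 := by exact_mod_cast hm.2
      linarith
  have hm1 : ∀ m : ℕ, X1 < m → 1 ≤ (m : ℝ) + s - y := by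
    intro m hm
    have h1 : (X1 : ℝ) + 1 ≤ m := by exact_mod_cast hm
    linarith
  have hm0 : ∀ m : ℕ, X1 < m → 0 < (m : ℝ) + s - y := fun m hm => by linarith [hm1 m hm]
  -- small frequencies
  set T : ℝ := (N : ℝ) ^ A0 with hT
  have hT1 : 1 ≤ T := one_le_pow₀ hN1
  set F0 : ℝ := c1 * y * L ^ E / L ^ B' with hF0
  have hF00 : 0 ≤ F0 := by positivity
  have hlX1 : k / 2 * L ≤ Real.log X1 := by
    have h1 := Real.log_le_log (by positivity) hX1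
    rwa [Real.log_rpow hN0] at h1
  have hNeg : ∀ ξ : ℝ, |ξ| ≤ T → ‖𝓕 (Wv b k s y X1 X2) ξ‖ ≤ F0 := by
    intro ξ hξ
    have hS : ∀ x : ℕ, X1 ≤ x → x ≤ X2 →
        ‖∑ m ∈ Icc 1 x, b m * er (-(2 * Real.pi * ξ) / k) (Real.log m)‖ ≤
          |Cn| * X2 / (k / 2 * L) ^ B' := by
      intro x hx1 hx2
      have hx1r : (X1 : ℝ) ≤ x := by exact_mod_cast hx1
      have hx2r : (x : ℝ) ≤ X2 := by exact_mod_cast hx2
      have hx2' : 2 ≤ x := by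
        have : (2 : ℝ) ≤ x := by linarith
        exact_mod_cast this
      have hτ : |-(2 * Real.pi * ξ) / k| ≤ (x : ℝ) ^ A := by
        rw [abs_div, abs_neg, abs_mul, abs_of_pos (show 0 < 2 * Real.pi by positivity), abs_of_pos hk]
        have a1 : 2 * Real.pi * |ξ| / k ≤ N * T := by
          calc 2 * Real.pi * |ξ| / k = (2 * Real.pi / k) * |ξ| := by ring
            _ ≤ N * T := mul_le_mul hNpi hξ (abs_nonneg _) hN0.le
        have a2 : (N : ℝ) * T ≤ (X1 : ℝ) ^ A := by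
          calc (N : ℝ) * T = (N : ℝ) ^ ((A0 : ℝ) + 1) := by
                rw [hT, Real.rpow_add_one hN0.ne', Real.rpow_natCast]
                ring
            _ ≤ (N : ℝ) ^ (k / 2 * A) := Real.rpow_le_rpow_of_exponent_le hN1 hAk
            _ = ((N : ℝ) ^ (k / 2)) ^ A := by
                rw [Real.rpow_mul hN0.le, Real.rpow_natCast]
            _ ≤ (X1 : ℝ) ^ A := pow_le_pow_left₀ (by positivity) hX1 A
        exact a1.trans (a2.trans (pow_le_pow_left₀ hX10.le hx1r A))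
      have h1 := hCn x _ hx2' hτ
      refine h1.trans ?_
      have h2 : k / 2 * L ≤ Real.log x := hlX1.trans (Real.log_le_log hX10 hx1r)
      have h3 : (k / 2 * L) ^ B' ≤ Real.log x ^ B' := pow_le_pow_left₀ (by positivity) h2 B'
      have h4 : Cn * x ≤ |Cn| * X2 := by
        calc Cn * x ≤ |Cn| * x := mul_le_mul_of_nonneg_right (le_abs_self _) (Nat.cast_nonneg x)
          _ ≤ _ := mul_le_mul_of_nonneg_left hx2r (abs_nonneg _)
      have h5 : 0 < (k / 2 * L) ^ B' := by positivity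
      have h6 : 0 < Real.log x ^ B' := lt_of_lt_of_le h5 h3
      rw [div_le_div_iff₀ h6 h5]
      exact mul_le_mul h4 h3 h5.le (by positivity)
    have h1 := four_Wv_main b hk hyr hs0 hs1 h12 hyX hS
    refine h1.trans ?_
    calc |Cn| * X2 / (k / 2 * L) ^ B' * (6 * y / (k * X1)) ≤
          |Cn| * (L ^ E * X1) / (k / 2 * L) ^ B' * (6 * y / (k * X1)) := by gcongr
      _ = F0 := by
          rw [hF0, hc1, mul_pow]
          field_simp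
  have hTail : ∀ ξ : ℝ, T < |ξ| → ‖𝓕 (Wv b k s y X1 X2) ξ‖ ≤ X2 * Λ / |ξ| := by
    intro ξ hξ
    have : ξ ≠ 0 := by
      rintro rfl
      rw [abs_zero] at hξ
      linarith
    exact four_Wv_tail b hk (by linarith) hΛ0 hm0 hbΛ this
  have hV0 : 0 < (N : ℝ) / L ^ B1 := by positivity
  have hMM := hmom d hd N T (by
    have : (1 : ℝ) ≤ N := hN1
    exact_mod_cast this) hT1
  have hMM' : ∫ ξ in (-T)..T, ‖SD d N (2 * Real.pi * ξ)‖ ^ (2 * A0) ≤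
      2 * C * (N : ℝ) ^ (2 * A0) * (2 * L) ^ Em := by
    refine hMM.trans ?_
    have h1 : 1 + L ≤ 2 * L := by linarith
    have h2 : (1 + L) ^ Em ≤ (2 * L) ^ Em := pow_le_pow_left₀ (by linarith) h1 Em
    calc C * ((N : ℝ) ^ A0 + T) * (N : ℝ) ^ A0 * (1 + L) ^ Em =
          2 * C * (N : ℝ) ^ (2 * A0) * (1 + L) ^ Em := by
          rw [hT]
          ring
      _ ≤ _ := mul_le_mul_of_nonneg_left h2 (by positivity)
  have hsq := Wv_sq b hk hs0 hs1 hΛ0 hm1 hbΛ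
  have hlogX2 : 0 ≤ Real.log ((X2 : ℝ) + 1) := Real.log_nonneg (by linarith)
  have hfin := l2 d hd N (Wv b k s y X1 X2) (Wv_int b k s y X1 X2) (y * Λ)
    (Wv_bd b hk hs0 hs1 hΛ0 hm1 hbΛ) A0 (by omega) T (N / L ^ B1) F0 (X2 * Λ)
    ((y * Λ) ^ 2 * (Real.log (X2 + 1) / k)) (2 * C * (N : ℝ) ^ (2 * A0) * (2 * L) ^ Em) hT1 hV0 hF00
    (by positivity) (by positivity) hNeg hTail hsq hMM'
  refine hfin.trans (ENNReal.ofReal_le_ofReal ?_)
  have t1 : (N / L ^ B1) ^ 2 * ((y * Λ) ^ 2 * (Real.log (X2 + 1) / k)) ≤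
      (N : ℝ) ^ 2 * (y : ℝ) ^ 2 / (3 * L ^ B) := by
    have h1 : Real.log ((X2 : ℝ) + 1) ≤ Λ := by
      refine le_trans (Real.log_le_log (by linarith) ?_) hX23
      linarith
    calc (N / L ^ B1) ^ 2 * ((y * Λ) ^ 2 * (Real.log (X2 + 1) / k)) ≤
          (N / L ^ B1) ^ 2 * ((y * Λ) ^ 2 * (Λ / k)) := by gcongr
      _ = (N / L ^ (B + 2)) ^ 2 * ((y : ℝ) ^ 2 * ((k + 2) ^ 3 / k * L ^ 3)) := by
          rw [hΛ, hB1]
          ring
      _ ≤ _ := alg1 B hL1 hL2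
  have t2 : F0 ^ 2 * (2 * C * (N : ℝ) ^ (2 * A0) * (2 * L) ^ Em) / (N / L ^ B1) ^ (2 * A0 - 2) ≤
      (N : ℝ) ^ 2 * (y : ℝ) ^ 2 / (3 * L ^ B) := by
    rw [hF0]
    exact alg2 B B1 E Em A0 B' (by omega) hL1 hN0 hB' hL3 hC.le
  have t3 : (N : ℝ) ^ 2 * (2 * (X2 * Λ) ^ 2) / T ≤ (N : ℝ) ^ 2 * (y : ℝ) ^ 2 / (3 * L ^ B) := by
    have h1 : (X2 : ℝ) ^ 2 ≤ (N : ℝ) ^ (2 * k + 2) := by
      calc (X2 : ℝ) ^ 2 ≤ ((N : ℝ) ^ (k + 1)) ^ 2 := pow_le_pow_left₀ (by positivity) hX2 2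
        _ = (N : ℝ) ^ (2 * k + 2) := by
            rw [← Real.rpow_natCast, ← Real.rpow_mul hN0.le]
            congr 1
            push_cast
            ring
    have h2 : (N : ℝ) ^ (2 * k + 2) * N ≤ T := by
      calc (N : ℝ) ^ (2 * k + 2) * N = (N : ℝ) ^ (2 * k + 3) := by
            rw [← Real.rpow_add_one hN0.ne']
            congr 1
            ring
        _ ≤ (N : ℝ) ^ (A0 : ℝ) := Real.rpow_le_rpow_of_exponent_le hN1 (by linarith)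
        _ = T := by rw [Real.rpow_natCast]
    have hT0 : 0 < T := by linarith
    rw [div_le_div_iff₀ hT0 (by positivity)]
    have h3 : (2 * (X2 * Λ) ^ 2) * (3 * L ^ B) ≤ (N : ℝ) ^ (2 * k + 2) * N := by
      calc (2 * (X2 * Λ) ^ 2) * (3 * L ^ B) = (X2 : ℝ) ^ 2 * (6 * (k + 2) ^ 2 * L ^ (B + 2)) := by
            rw [hΛ]
            ring
        _ ≤ (N : ℝ) ^ (2 * k + 2) * N := mul_le_mul h1 hL4 (by positivity) (by positivity)
    have h4 : (1 : ℝ) ≤ (y : ℝ) ^ 2 := one_le_pow₀ hyr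
    calc (N : ℝ) ^ 2 * (2 * (X2 * Λ) ^ 2) * (3 * L ^ B) = (N : ℝ) ^ 2 * ((2 * (X2 * Λ) ^ 2) * (3 * L ^ B)) := by
          ring
      _ ≤ (N : ℝ) ^ 2 * T := mul_le_mul_of_nonneg_left (h3.trans h2) (by positivity)
      _ = (N : ℝ) ^ 2 * 1 * T := by ring
      _ ≤ (N : ℝ) ^ 2 * (y : ℝ) ^ 2 * T := by gcongr
  have t4 : (N : ℝ) ^ 2 * (y : ℝ) ^ 2 / (3 * L ^ B) + (N : ℝ) ^ 2 * (y : ℝ) ^ 2 / (3 * L ^ B) +
      (N : ℝ) ^ 2 * (y : ℝ) ^ 2 / (3 * L ^ B) = (N : ℝ) ^ 2 * (y : ℝ) ^ 2 / L ^ B := by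
    field_simp
    norm_num
  linarith

end Pool.Agent.D0H91.MG
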