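import Mathlib
import Pool.Agent.D0H91.MG.Eng1
import Pool.Agent.W301.SS.Asym

/-! The mean square over the dilation of the sums over short intervals at the points `α n ^ k`. -/

set_option autoImplicit false

namespace Pool.Agent.D0H91.MG

open Finset MeasureTheory FourierTransform Filter
open scoped ENNReal
open Pool.Agent.H376R2.MR (er)
open Pool.Agent.Y957.VK (Gn Neg)

/-- the sum of the `b m` over the `m` in `(x - s, x - s + y]` -/
noncomputable def Ws (b : ℕ → ℂ) (s : ℝ) (y : ℕ) (x : ℝ) : ℂ :=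
  ∑ m ∈ Ioc ⌊x - s⌋₊ (⌊x - s⌋₊ + y), b m

/-- the weighted sum over `n ≤ N` at the points `e^{kw} n^k` -/
noncomputable def FF (b c : ℕ → ℂ) (k s : ℝ) (N y : ℕ) (w : ℝ) : ℂ :=
  ∑ n ∈ Icc 1 N, c n * Ws b s y (Real.exp (k * w) * (n : ℝ) ^ k)

theorem Ws_le (b : ℕ → ℂ) (hb : ∀ m : ℕ, ‖b m‖ ≤ Real.log (m + 3)) {s : ℝ} (hs : 0 ≤ s) (y : ℕ) {x : ℝ}
    (hx : 0 ≤ x) : ‖Ws b s y x‖ ≤ y * Real.log (x + y + 3) := by
  unfold Ws
  refine (norm_sum_le _ _).trans ?_
  calc ∑ m ∈ Ioc ⌊x - s⌋₊ (⌊x - s⌋₊ + y), ‖b m‖ ≤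
        ∑ m ∈ Ioc ⌊x - s⌋₊ (⌊x - s⌋₊ + y), Real.log (x + y + 3) := by
        refine Finset.sum_le_sum fun m hm => ?_
        rw [Finset.mem_Ioc] at hm
        refine (hb m).trans (Real.log_le_log ?_ ?_)
        · have : (0 : ℝ) ≤ m := Nat.cast_nonneg m
          linarith
        · have h1 : (m : ℝ) ≤ ((⌊x - s⌋₊ + y : ℕ) : ℝ) := by exact_mod_cast hm.2
          have h2 : ((⌊x - s⌋₊ : ℕ) : ℝ) ≤ x := by
            rcases le_total 0 (x - s) with h | h
            · linarith [Nat.floor_le h]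
            · rw [Nat.floor_of_nonpos h]
              simpa using hx
          push_cast at h1
          linarith
    _ = y * Real.log (x + y + 3) := by
        rw [Finset.sum_const, Nat.card_Ioc, Nat.add_sub_cancel_left, nsmul_eq_mul]

theorem Ws_meas (b : ℕ → ℂ) (s : ℝ) (y : ℕ) : Measurable (Ws b s y) := by
  have h1 : Measurable (fun j : ℕ => ∑ m ∈ Ioc j (j + y), b m) := measurable_from_nat
  have h2 : Measurable (fun x : ℝ => ⌊x - s⌋₊) := Nat.measurable_floor.comp (measurable_id.sub_const s)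
  exact h1.comp h2

theorem FF_meas (b c : ℕ → ℂ) (k s : ℝ) (N y : ℕ) : Measurable (FF b c k s N y) := by
  unfold FF
  refine Finset.measurable_fun_sum _ fun n _ => ?_
  refine Measurable.const_mul ((Ws_meas b s y).comp ?_) _
  fun_prop

theorem exp_rpow {k w : ℝ} {n : ℕ} (hn : 1 ≤ n) :
    Real.exp (k * (w + 1 * Real.log n)) = Real.exp (k * w) * (n : ℝ) ^ k := by
  have hn0 : (0 : ℝ) < n := by exact_mod_cast hn
  rw [Real.rpow_def_of_pos hn0, ← Real.exp_add]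
  congr 1
  ring

theorem eng2 (b : ℕ → ℂ) (hb : ∀ m : ℕ, ‖b m‖ ≤ Real.log (m + 3)) (hneg : Neg b) (k : ℝ) (hk : 0 < k)
    (s : ℝ) (hs0 : 0 ≤ s) (hs1 : s ≤ 1) (w0 η : ℝ) (hη : 0 < η) (B : ℕ) :
    ∀ᶠ N : ℕ in atTop, ∀ y : ℕ, 1 ≤ y → (y : ℝ) ≤ (N : ℝ) ^ (k * (1 - η)) →
      ∀ c : ℕ → ℂ, (∀ n, ‖c n‖ ≤ 1) →
      ∫⁻ w in Set.Icc w0 (w0 + 1), ‖FF b c k s N y w‖ₑ ^ 2 ≤
        ENNReal.ofReal ((N : ℝ) ^ 2 * (y : ℝ) ^ 2 / Real.log N ^ B) := by
  set E2 : ℕ := B + 2 with hE2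
  set e : ℕ := ⌈(E2 : ℝ) * k⌉₊ with he
  have hek : (E2 : ℝ) * k ≤ e := Nat.le_ceil _
  have hexp0 : 0 < Real.exp (k * w0) := Real.exp_pos _
  filter_upwards [eng1 b hb hneg k hk (B + 1) (e + 1), ev_logge 4, ev_logge (4 * (k + 2) ^ 2),
    ev_logge (12 * Real.exp k),
    Pool.Agent.W301.SS.ev_log e (4 / Real.exp (k * w0)) (k / 2) (by positivity),
    Pool.Agent.W301.SS.ev_log e (8 / Real.exp (k * w0)) (k * η) (by positivity),
    eventually_ge_atTop (⌈3 * Real.exp (k * (w0 + 1))⌉₊ + 4)] with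
    N h1 hL4 hLk hLe hb1 he1 hN4 y hy hyN c hc
  set L := Real.log N with hL
  have hL0 : 0 < L := by linarith
  have hL1 : 1 ≤ L := by linarith
  have hNr4 : (4 : ℝ) ≤ N := by
    have : 4 ≤ N := by omega
    exact_mod_cast this
  have hN0 : (0 : ℝ) < N := by linarith
  have hN1 : (1 : ℝ) ≤ N := by linarith
  have hyr : (1 : ℝ) ≤ y := by exact_mod_cast hy
  have hNe : 3 * Real.exp (k * (w0 + 1)) ≤ N := by
    have a1 := Nat.le_ceil (3 * Real.exp (k * (w0 + 1)))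
    have a2 : ((⌈3 * Real.exp (k * (w0 + 1))⌉₊ : ℕ) : ℝ) ≤ N := by
      exact_mod_cast (by omega : ⌈3 * Real.exp (k * (w0 + 1))⌉₊ ≤ N)
    linarith
  have hNk : 0 < (N : ℝ) ^ k := by positivity
  have hLe0 : 0 < L ^ e := by positivity
  set x0 : ℝ := Real.exp (k * w0) * (N : ℝ) ^ k / L ^ e with hx0
  set x1 : ℝ := Real.exp (k * (w0 + 1)) * (N : ℝ) ^ k with hx1
  have hx10 : 0 < x1 := by positivity
  have hb2 : 4 * (N : ℝ) ^ (k / 2) ≤ x0 := by
    rw [hx0, le_div_iff₀ hLe0]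
    have a1 : 4 * L ^ e ≤ Real.exp (k * w0) * (N : ℝ) ^ (k / 2) := by
      rw [div_mul_eq_mul_div, div_le_iff₀ hexp0] at hb1
      linarith
    calc 4 * (N : ℝ) ^ (k / 2) * L ^ e = (N : ℝ) ^ (k / 2) * (4 * L ^ e) := by ring
      _ ≤ (N : ℝ) ^ (k / 2) * (Real.exp (k * w0) * (N : ℝ) ^ (k / 2)) :=
          mul_le_mul_of_nonneg_left a1 (by positivity)
      _ = Real.exp (k * w0) * ((N : ℝ) ^ (k / 2) * (N : ℝ) ^ (k / 2)) := by ring
      _ = Real.exp (k * w0) * (N : ℝ) ^ k := by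
          rw [← Real.rpow_add hN0]
          congr 2
          ring
  have hNk2 : 1 ≤ (N : ℝ) ^ (k / 2) := Real.one_le_rpow hN1 (by positivity)
  have hx04 : 4 ≤ x0 := by linarith
  have hyx : 8 * (y : ℝ) ≤ x0 := by
    rw [hx0, le_div_iff₀ hLe0]
    have a1 : 8 * L ^ e ≤ Real.exp (k * w0) * (N : ℝ) ^ (k * η) := by
      rw [div_mul_eq_mul_div, div_le_iff₀ hexp0] at he1
      linarith
    calc 8 * (y : ℝ) * L ^ e = (y : ℝ) * (8 * L ^ e) := by ring
      _ ≤ (N : ℝ) ^ (k * (1 - η)) * (Real.exp (k * w0) * (N : ℝ) ^ (k * η)) :=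
          mul_le_mul hyN a1 (by positivity) (by positivity)
      _ = Real.exp (k * w0) * ((N : ℝ) ^ (k * (1 - η)) * (N : ℝ) ^ (k * η)) := by ring
      _ = Real.exp (k * w0) * (N : ℝ) ^ k := by
          rw [← Real.rpow_add hN0]
          congr 2
          ring
  have hx01 : x0 ≤ x1 := by
    rw [hx0, hx1, div_le_iff₀ hLe0]
    have a1 : Real.exp (k * w0) ≤ Real.exp (k * (w0 + 1)) := Real.exp_le_exp.2 (by nlinarith)
    have a2 : 1 ≤ L ^ e := one_le_pow₀ hL1
    calc Real.exp (k * w0) * (N : ℝ) ^ k ≤ Real.exp (k * (w0 + 1)) * (N : ℝ) ^ k :=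
          mul_le_mul_of_nonneg_right a1 hNk.le
      _ = Real.exp (k * (w0 + 1)) * (N : ℝ) ^ k * 1 := (mul_one _).symm
      _ ≤ _ := mul_le_mul_of_nonneg_left a2 (by positivity)
  have hyx1 : (y : ℝ) ≤ x1 := by linarith
  have h3x1 : 3 * x1 ≤ (N : ℝ) ^ (k + 1) := by
    rw [hx1, Real.rpow_add_one hN0.ne']
    calc 3 * (Real.exp (k * (w0 + 1)) * (N : ℝ) ^ k) = (N : ℝ) ^ k * (3 * Real.exp (k * (w0 + 1))) := by ring
      _ ≤ _ := mul_le_mul_of_nonneg_left hNe hNk.le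
  set X1 : ℕ := ⌊x0 / 2⌋₊ with hX1
  set X2 : ℕ := ⌈2 * x1⌉₊ with hX2
  have hX1a : (X1 : ℝ) ≤ x0 / 2 := Nat.floor_le (by linarith)
  have hX1b : x0 / 4 ≤ X1 := by
    have := Nat.lt_floor_add_one (x0 / 2)
    rw [← hX1] at this
    linarith
  have hX2a : 2 * x1 ≤ X2 := Nat.le_ceil _
  have hX2b : (X2 : ℝ) ≤ 3 * x1 := by
    have := Nat.ceil_lt_add_one (show 0 ≤ 2 * x1 by positivity)
    rw [← hX2] at this
    linarith
  have hX12 : X1 ≤ X2 := by
    have : (X1 : ℝ) ≤ X2 := by linarith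
    exact_mod_cast this
  have hratio : (X2 : ℝ) ≤ L ^ (e + 1) * X1 := by
    have a1 : x1 = Real.exp k * L ^ e * x0 := by
      rw [hx1, hx0, show k * (w0 + 1) = k + k * w0 by ring, Real.exp_add]
      field_simp
    calc (X2 : ℝ) ≤ 3 * x1 := hX2b
      _ = (12 * Real.exp k) * L ^ e * (x0 / 4) := by rw [a1]; ring
      _ ≤ L * L ^ e * X1 := by gcongr
      _ = _ := by ring
  have key := h1 X1 X2 (by linarith) (hX2b.trans h3x1) hX12 hratio s hs0 hs1 y hy (by linarith)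
  -- truncation
  set c' : ℕ → ℂ := fun n => if (N : ℝ) / L ^ E2 < n then c n else 0 with hc'
  have hc'1 : ∀ n, ‖c' n‖ ≤ 1 := by
    intro n
    simp only [hc']
    split_ifs
    · exact hc n
    · simp
  have hkey := key c' hc'1
  have hFG : ∀ w ∈ Set.Icc w0 (w0 + 1), FF b c' k s N y w = Gn c' (Wv b k s y X1 X2) 1 N w := by
    intro w hw
    unfold FF Gn
    refine Finset.sum_congr rfl fun n hn => ?_
    rw [Finset.mem_Icc] at hn
    by_cases hcn : (N : ℝ) / L ^ E2 < n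
    · congr 1
      have hn0 : (0 : ℝ) < n := by exact_mod_cast hn.1
      have hnN : (n : ℝ) ≤ N := by exact_mod_cast hn.2
      set x : ℝ := Real.exp (k * w) * (n : ℝ) ^ k with hx
      have hxe : Real.exp (k * (w + 1 * Real.log n)) = x := exp_rpow hn.1
      have hxa : x0 ≤ x := by
        have a1 : Real.exp (k * w0) ≤ Real.exp (k * w) :=
          Real.exp_le_exp.2 (mul_le_mul_of_nonneg_left hw.1 hk.le)
        have a2 : (N : ℝ) ^ k / L ^ e ≤ (n : ℝ) ^ k := by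
          have b1 : ((N : ℝ) / L ^ E2) ^ k ≤ (n : ℝ) ^ k :=
            Real.rpow_le_rpow (by positivity) hcn.le hk.le
          rw [Real.div_rpow hN0.le (by positivity)] at b1
          refine le_trans ?_ b1
          apply div_le_div_of_nonneg_left hNk.le (by positivity)
          rw [← Real.rpow_natCast, ← Real.rpow_mul hL0.le, ← Real.rpow_natCast L e]
          exact Real.rpow_le_rpow_of_exponent_le hL1 hek
        calc x0 = Real.exp (k * w0) * ((N : ℝ) ^ k / L ^ e) := by rw [hx0]; ring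
          _ ≤ _ := mul_le_mul a1 a2 (by positivity) (Real.exp_pos _).le
      have hxb : x ≤ x1 := by
        have a1 : Real.exp (k * w) ≤ Real.exp (k * (w0 + 1)) :=
          Real.exp_le_exp.2 (mul_le_mul_of_nonneg_left hw.2 hk.le)
        exact mul_le_mul a1 (Real.rpow_le_rpow hn0.le hnN hk.le) (by positivity) (Real.exp_pos _).le
      have hm0 : ∀ m : ℕ, X1 < m → 0 < (m : ℝ) + s - y := by
        intro m hm
        have : (X1 : ℝ) < m := by exact_mod_cast hm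
        linarith
      rw [Wv_eq b hk hs0 hm0 (by rw [hxe]; linarith), hxe]
      unfold Ws
      symm
      apply Finset.sum_congr _ fun _ _ => rfl
      ext m
      rw [Finset.mem_filter]
      constructor
      · exact fun h => h.2
      · intro h
        refine ⟨?_, h⟩
        rw [Finset.mem_Ioc] at h ⊢
        have f1 : X1 ≤ ⌊x - s⌋₊ := Nat.le_floor (by linarith)
        have f2 : ⌊x - s⌋₊ + y ≤ X2 := by
          have g1 : ((⌊x - s⌋₊ : ℕ) : ℝ) ≤ x - s := Nat.floor_le (by linarith)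
          have g2 : ((⌊x - s⌋₊ + y : ℕ) : ℝ) ≤ X2 := by
            push_cast
            linarith
          exact_mod_cast g2
        omega
    · simp [hc', hcn]
  have hI : ∫⁻ w in Set.Icc w0 (w0 + 1), ‖FF b c' k s N y w‖ₑ ^ 2 ≤
      ENNReal.ofReal ((N : ℝ) ^ 2 * (y : ℝ) ^ 2 / L ^ (B + 1)) := by
    calc ∫⁻ w in Set.Icc w0 (w0 + 1), ‖FF b c' k s N y w‖ₑ ^ 2 =
          ∫⁻ w in Set.Icc w0 (w0 + 1), ‖Gn c' (Wv b k s y X1 X2) 1 N w‖ₑ ^ 2 := by
          refine setLIntegral_congr_fun measurableSet_Icc fun w hw => ?_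
          simp only [hFG w hw]
      _ ≤ ∫⁻ w, ‖Gn c' (Wv b k s y X1 X2) 1 N w‖ₑ ^ 2 := setLIntegral_le_lintegral _ _
      _ ≤ _ := hkey
  -- the rest
  set R : ℝ := N * y * ((k + 2) * L) / L ^ E2 with hR
  have hrest : ∀ w ∈ Set.Icc w0 (w0 + 1), ‖FF b c k s N y w - FF b c' k s N y w‖ ≤ R := by
    intro w hw
    have e1 : FF b c k s N y w - FF b c' k s N y w =
        ∑ n ∈ Icc 1 N, (c n - c' n) * Ws b s y (Real.exp (k * w) * (n : ℝ) ^ k) := by
      unfold FF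
      rw [← Finset.sum_sub_distrib]
      refine Finset.sum_congr rfl fun n _ => ?_
      ring
    rw [e1]
    refine (norm_sum_le _ _).trans ?_
    have e2 : ∀ n ∈ Icc 1 N, ‖(c n - c' n) * Ws b s y (Real.exp (k * w) * (n : ℝ) ^ k)‖ ≤
        if n ∈ Icc 1 ⌊(N : ℝ) / L ^ E2⌋₊ then y * ((k + 2) * L) else 0 := by
      intro n hn
      rw [Finset.mem_Icc] at hn
      have hn0 : (0 : ℝ) < n := by exact_mod_cast hn.1
      have hnN : (n : ℝ) ≤ N := by exact_mod_cast hn.2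
      by_cases hcn : (N : ℝ) / L ^ E2 < n
      · have : c' n = c n := by simp [hc', hcn]
        rw [this, sub_self, zero_mul, norm_zero]
        split_ifs <;> positivity
      · have h0 : c' n = 0 := by simp [hc', hcn]
        have hmem : n ∈ Icc 1 ⌊(N : ℝ) / L ^ E2⌋₊ := by
          rw [Finset.mem_Icc]
          exact ⟨hn.1, Nat.le_floor (not_lt.1 hcn)⟩
        rw [if_pos hmem, h0, sub_zero, norm_mul]
        set x : ℝ := Real.exp (k * w) * (n : ℝ) ^ k with hx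
        have hxb : x ≤ x1 := by
          have a1 : Real.exp (k * w) ≤ Real.exp (k * (w0 + 1)) :=
            Real.exp_le_exp.2 (mul_le_mul_of_nonneg_left hw.2 hk.le)
          exact mul_le_mul a1 (Real.rpow_le_rpow hn0.le hnN hk.le) (by positivity) (Real.exp_pos _).le
        have hx0' : 0 ≤ x := by positivity
        have h3 := Ws_le b hb hs0 y hx0'
        have h4 : Real.log (x + y + 3) ≤ (k + 2) * L := by
          have h5 : x + y + 3 ≤ (N : ℝ) ^ (k + 2) := by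
            have h6 : (N : ℝ) ^ (k + 2) = (N : ℝ) ^ (k + 1) * N := by
              rw [← Real.rpow_add_one hN0.ne']
              congr 1
              ring
            have h7 : 1 ≤ (N : ℝ) ^ (k + 1) := Real.one_le_rpow hN1 (by linarith)
            rw [h6]
            nlinarith
          have h8 := Real.log_le_log (by positivity) h5
          rwa [Real.log_rpow hN0] at h8
        calc ‖c n‖ * ‖Ws b s y x‖ ≤ 1 * (y * ((k + 2) * L)) := by
              apply mul_le_mul (hc n) _ (norm_nonneg _) zero_le_one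
              exact h3.trans (mul_le_mul_of_nonneg_left h4 (Nat.cast_nonneg y))
          _ = _ := one_mul _
    refine (Finset.sum_le_sum e2).trans ?_
    rw [← Finset.sum_filter, Finset.sum_const, nsmul_eq_mul]
    have h5 : (((Icc 1 N).filter fun n => n ∈ Icc 1 ⌊(N : ℝ) / L ^ E2⌋₊).card : ℝ) ≤ N / L ^ E2 := by
      have h6 : ((Icc 1 N).filter fun n => n ∈ Icc 1 ⌊(N : ℝ) / L ^ E2⌋₊).card ≤
          (Icc 1 ⌊(N : ℝ) / L ^ E2⌋₊).card := by
        apply Finset.card_le_card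
        intro n hn
        exact (Finset.mem_filter.1 hn).2
      rw [Nat.card_Icc, Nat.add_sub_cancel] at h6
      calc (((Icc 1 N).filter fun n => n ∈ Icc 1 ⌊(N : ℝ) / L ^ E2⌋₊).card : ℝ) ≤
            ((⌊(N : ℝ) / L ^ E2⌋₊ : ℕ) : ℝ) := by exact_mod_cast h6
        _ ≤ _ := Nat.floor_le (by positivity)
    calc (((Icc 1 N).filter fun n => n ∈ Icc 1 ⌊(N : ℝ) / L ^ E2⌋₊).card : ℝ) * (y * ((k + 2) * L)) ≤
          (N / L ^ E2) * (y * ((k + 2) * L)) := mul_le_mul_of_nonneg_right h5 (by positivity)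
      _ = R := by rw [hR]; ring
  have hR0 : 0 ≤ R := by positivity
  have hpt : ∀ w ∈ Set.Icc w0 (w0 + 1), ‖FF b c k s N y w‖ₑ ^ 2 ≤
      2 * ‖FF b c' k s N y w‖ₑ ^ 2 + ENNReal.ofReal (2 * R ^ 2) := by
    intro w hw
    have h2 := hrest w hw
    have h3 : ‖FF b c k s N y w‖ ≤ ‖FF b c' k s N y w‖ + R := by
      have := norm_add_le (FF b c' k s N y w) (FF b c k s N y w - FF b c' k s N y w)
      rw [add_sub_cancel] at this
      linarith
    have h4 : ‖FF b c k s N y w‖ ^ 2 ≤ 2 * ‖FF b c' k s N y w‖ ^ 2 + 2 * R ^ 2 := by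
      have h5 : ‖FF b c k s N y w‖ ^ 2 ≤ (‖FF b c' k s N y w‖ + R) ^ 2 :=
        pow_le_pow_left₀ (norm_nonneg _) h3 2
      nlinarith [sq_nonneg (‖FF b c' k s N y w‖ - R)]
    rw [← ofReal_norm, ← ofReal_norm, ← ENNReal.ofReal_pow (norm_nonneg _),
      ← ENNReal.ofReal_pow (norm_nonneg _)]
    rw [show (2 : ℝ≥0∞) = ENNReal.ofReal 2 by simp, ← ENNReal.ofReal_mul (by norm_num),
      ← ENNReal.ofReal_add (by positivity) (by positivity)]
    exact ENNReal.ofReal_le_ofReal h4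
  calc ∫⁻ w in Set.Icc w0 (w0 + 1), ‖FF b c k s N y w‖ₑ ^ 2 ≤
        ∫⁻ w in Set.Icc w0 (w0 + 1), (2 * ‖FF b c' k s N y w‖ₑ ^ 2 + ENNReal.ofReal (2 * R ^ 2)) :=
        setLIntegral_mono' measurableSet_Icc hpt
    _ = 2 * (∫⁻ w in Set.Icc w0 (w0 + 1), ‖FF b c' k s N y w‖ₑ ^ 2) + ENNReal.ofReal (2 * R ^ 2) := by
        have hm : Measurable fun w => ‖FF b c' k s N y w‖ₑ ^ 2 := (FF_meas b c' k s N y).enorm.pow_const 2
        rw [lintegral_add_right _ measurable_const, lintegral_const_mul _ hm, setLIntegral_const,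
          Real.volume_Icc]
        simp
    _ ≤ 2 * ENNReal.ofReal ((N : ℝ) ^ 2 * (y : ℝ) ^ 2 / L ^ (B + 1)) + ENNReal.ofReal (2 * R ^ 2) := by
        gcongr
    _ = ENNReal.ofReal (2 * ((N : ℝ) ^ 2 * (y : ℝ) ^ 2 / L ^ (B + 1)) + 2 * R ^ 2) := by
        rw [show (2 : ℝ≥0∞) = ENNReal.ofReal 2 by simp, ← ENNReal.ofReal_mul (by norm_num),
          ← ENNReal.ofReal_add (by positivity) (by positivity)]
    _ ≤ _ := by
        apply ENNReal.ofReal_le_ofReal
        have p0 : 0 ≤ (N : ℝ) ^ 2 * (y : ℝ) ^ 2 := by positivity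
        have t1 : 2 * ((N : ℝ) ^ 2 * (y : ℝ) ^ 2 / L ^ (B + 1)) ≤ (1 / 2) * ((N : ℝ) ^ 2 * (y : ℝ) ^ 2 / L ^ B) := by
          rw [pow_succ L B, ← div_div]
          have : 0 ≤ (N : ℝ) ^ 2 * (y : ℝ) ^ 2 / L ^ B := by positivity
          rw [← mul_div_assoc, div_le_iff₀ hL0]
          nlinarith
        have t2 : 2 * R ^ 2 ≤ (1 / 2) * ((N : ℝ) ^ 2 * (y : ℝ) ^ 2 / L ^ B) := by
          have e1 : 2 * R ^ 2 = (N : ℝ) ^ 2 * (y : ℝ) ^ 2 * (2 * (k + 2) ^ 2 / L ^ (2 * B + 2)) := by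
            rw [hR, hE2]
            have : L ^ (2 * B + 2) * L ^ 2 = (L ^ (B + 2)) ^ 2 := by
              rw [← pow_mul, ← pow_add]
              congr 1
              ring
            rw [div_pow, ← this]
            field_simp
          have e2 : 2 * (k + 2) ^ 2 / L ^ (2 * B + 2) ≤ 1 / 2 / L ^ B := by
            rw [div_le_div_iff₀ (by positivity) (by positivity)]
            calc 2 * (k + 2) ^ 2 * L ^ B = 1 / 2 * (4 * (k + 2) ^ 2) * L ^ B := by ring
              _ ≤ 1 / 2 * L * L ^ B := by gcongr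
              _ = 1 / 2 * L ^ (B + 1) := by ring
              _ ≤ 1 / 2 * L ^ (2 * B + 2) := by
                  apply mul_le_mul_of_nonneg_left _ (by norm_num)
                  exact pow_le_pow_right₀ hL1 (by omega)
          rw [e1]
          calc (N : ℝ) ^ 2 * (y : ℝ) ^ 2 * (2 * (k + 2) ^ 2 / L ^ (2 * B + 2)) ≤
                (N : ℝ) ^ 2 * (y : ℝ) ^ 2 * (1 / 2 / L ^ B) := mul_le_mul_of_nonneg_left e2 p0
            _ = _ := by ring
        linarith

end Pool.Agent.D0H91.MG
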