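import Mathlib
import Pool.Agent.D0H91.MG.Eng2
import Pool.Agent.Y901.VK.Bc

/-! From the mean square to almost every dilation. -/

set_option autoImplicit false

namespace Pool.Agent.D0H91.MG

open Finset MeasureTheory Filter Topology
open scoped ENNReal
open Pool.Agent.H376R2.MR (er)
open Pool.Agent.Y957.VK (Neg)

/-- the deterministic lemma -/
theorem det2 (F : ℕ → ℕ → ℂ) (Ym P : ℕ → ℕ) (κ : ℝ) (hκ : 1 ≤ κ) (K : ℕ)
    (hsum : Summable fun N : ℕ => ∑ y ∈ Icc 1 (Ym N),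
      Real.log N ^ (4 * K + 3) / ((N : ℝ) ^ 3 * (y : ℝ) ^ 3) * ‖F N y‖ ^ 2)
    (h1 : ∀ᶠ N : ℕ in atTop, ∀ y : ℕ, 1 ≤ y → y ≤ P N → ∀ j : ℕ, j ≤ N → ∀ r : ℕ, r ≤ y →
      2 * y ≤ Ym (N + j) ∧
      ‖F (N + j) (y + r) - F N y‖ ≤ ((j : ℝ) * (2 * y) + r * N) * (2 * κ * Real.log N)) :
    ∀ᶠ N : ℕ in atTop, ∀ y : ℕ, 1 ≤ y → y ≤ P N → ‖F N y‖ ≤ N * y / Real.log N ^ K := by
  set G : ℕ → ℝ := fun N => ∑ y ∈ Icc 1 (Ym N),
      Real.log N ^ (4 * K + 3) / ((N : ℝ) ^ 3 * (y : ℝ) ^ 3) * ‖F N y‖ ^ 2 with hG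
  have hG0 : ∀ N, 0 ≤ G N := by
    intro N
    have : 0 ≤ Real.log (N : ℝ) := Real.log_natCast_nonneg N
    simp only [hG]
    positivity
  have e1 : ∀ᶠ N : ℕ in atTop, ∑' M : ℕ, G (M + N) < 1 :=
    (tendsto_sum_nat_add G).eventually_lt_const one_pos
  filter_upwards [e1, h1, ev_logge (140000 * κ ^ 2), ev_logpow (16 * κ) (K + 1), eventually_ge_atTop 1] with
    N h1 h2 h3 h4 h5 y hy hyP
  by_contra hcon
  push Not at hcon
  obtain ⟨L, hL⟩ : ∃ L, L = Real.log (N : ℝ) := ⟨_, rfl⟩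
  simp only [← hL] at h2 h3 h4 hcon
  have hκ0 : 0 < κ := by linarith
  have hN1 : (1 : ℝ) ≤ N := by exact_mod_cast h5
  have hN0 : (0 : ℝ) < N := by linarith
  have hy1 : (1 : ℝ) ≤ y := by exact_mod_cast hy
  have hy0 : (0 : ℝ) < y := by linarith
  have hL1 : 1 ≤ L := by nlinarith
  have hL0 : 0 < L := by linarith
  have hLK : 0 < L ^ (K + 1) := by positivity
  set A : ℝ := 16 * κ * L ^ (K + 1) with hA
  have hA0 : 0 < A := by positivity
  have hA1 : 1 ≤ A := by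
    have : 1 ≤ L ^ (K + 1) := one_le_pow₀ hL1
    nlinarith
  obtain ⟨H, hH⟩ : ∃ H : ℕ, H = ⌊(N : ℝ) / A⌋₊ := ⟨_, rfl⟩
  obtain ⟨R, hR⟩ : ∃ R : ℕ, R = ⌊(y : ℝ) / A⌋₊ := ⟨_, rfl⟩
  have hNA : 1 ≤ (N : ℝ) / A := by
    rw [le_div_iff₀ hA0, one_mul]
    exact h4
  have hH1 : (H : ℝ) ≤ N / A := by
    rw [hH]
    exact Nat.floor_le (by positivity)
  have hH2 : (N : ℝ) / (2 * A) ≤ H := by
    have a1 : (N : ℝ) / A < H + 1 := by
      rw [hH]
      exact Nat.lt_floor_add_one _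
    have a2 : (1 : ℝ) ≤ H := by
      have : 1 ≤ H := by
        rw [hH]
        exact Nat.le_floor (by simpa using hNA)
      exact_mod_cast this
    have a3 : (N : ℝ) / (2 * A) = (N / A) / 2 := by
      field_simp
    rw [a3]
    linarith
  have hR1 : (R : ℝ) ≤ y / A := by
    rw [hR]
    exact Nat.floor_le (by positivity)
  have hR2 : (y : ℝ) / A ≤ R + 1 := by
    rw [hR]
    exact (Nat.lt_floor_add_one _).le
  have hHN : H ≤ N := by
    have : (H : ℝ) ≤ N := hH1.trans (div_le_self hN0.le hA1)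
    exact_mod_cast this
  have hRy : R ≤ y := by
    have : (R : ℝ) ≤ y := hR1.trans (div_le_self hy0.le hA1)
    exact_mod_cast this
  have hbig : ∀ j : ℕ, j < H → ∀ r : ℕ, r ≤ R → N * y / (2 * L ^ K) ≤ ‖F (N + j) (y + r)‖ := by
    intro j hj r hr
    obtain ⟨_, a1⟩ := h2 y hy hyP j (by omega) r (by omega)
    have hjr : (j : ℝ) ≤ N / A := le_trans (by exact_mod_cast hj.le) hH1
    have hrr : (r : ℝ) ≤ y / A := le_trans (by exact_mod_cast hr) hR1
    have a2 : ((j : ℝ) * (2 * y) + r * N) * (2 * κ * L) ≤ N * y / (2 * L ^ K) := by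
      calc ((j : ℝ) * (2 * y) + r * N) * (2 * κ * L) ≤ ((N / A) * (2 * y) + (y / A) * N) * (2 * κ * L) := by
            gcongr
        _ = (3 / 8) * (N * y / L ^ K) := by
            rw [hA, pow_succ]
            field_simp
            norm_num
        _ ≤ N * y / (2 * L ^ K) := by
            have : 0 ≤ N * y / L ^ K := by positivity
            have e : N * y / (2 * L ^ K) = (1 / 2) * (N * y / L ^ K) := by
              field_simp
            rw [e]
            linarith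
    have a3 : ‖F N y‖ ≤ ‖F (N + j) (y + r)‖ + ‖F (N + j) (y + r) - F N y‖ := by
      have := norm_sub_le (F (N + j) (y + r)) (F (N + j) (y + r) - F N y)
      rwa [sub_sub_cancel] at this
    have a4 : N * y / L ^ K = N * y / (2 * L ^ K) + N * y / (2 * L ^ K) := by
      field_simp
      norm_num
    linarith
  have hterm : ∀ j ∈ Finset.range H, (R + 1) * (L ^ (4 * K + 3) / (64 * (N : ℝ) ^ 3 * (y : ℝ) ^ 3) *
      (N * y / (2 * L ^ K)) ^ 2) ≤ G (j + N) := by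
    intro j hj
    rw [Finset.mem_range] at hj
    have a0 := (h2 y hy hyP j (by omega) 0 (by omega)).1
    simp only [hG]
    have hsub : (Finset.range (R + 1)).image (fun r => y + r) ⊆ Icc 1 (Ym (j + N)) := by
      intro z hz
      rw [Finset.mem_image] at hz
      obtain ⟨r, hr, rfl⟩ := hz
      rw [Finset.mem_range] at hr
      rw [Finset.mem_Icc]
      rw [add_comm j N]
      omega
    have hlog0 : 0 ≤ Real.log ((j + N : ℕ) : ℝ) := Real.log_natCast_nonneg _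
    refine le_trans ?_ (Finset.sum_le_sum_of_subset_of_nonneg hsub fun _ _ _ => by positivity)
    rw [Finset.sum_image (fun a _ b _ h => by simpa using h)]
    have hcard : ((R : ℝ) + 1) * (L ^ (4 * K + 3) / (64 * (N : ℝ) ^ 3 * (y : ℝ) ^ 3) *
        (N * y / (2 * L ^ K)) ^ 2) = ∑ _r ∈ Finset.range (R + 1),
        (L ^ (4 * K + 3) / (64 * (N : ℝ) ^ 3 * (y : ℝ) ^ 3) * (N * y / (2 * L ^ K)) ^ 2) := by
      rw [Finset.sum_const, Finset.card_range, nsmul_eq_mul]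
      push_cast
      ring
    rw [hcard]
    refine Finset.sum_le_sum fun r hr => ?_
    rw [Finset.mem_range] at hr
    have b1 := hbig j hj r (by omega)
    rw [add_comm N j] at b1
    have b2 : L ≤ Real.log ((j + N : ℕ) : ℝ) := by
      rw [hL]
      refine Real.log_le_log hN0 ?_
      push_cast
      have : (0 : ℝ) ≤ j := Nat.cast_nonneg j
      linarith
    have b3 : ((j + N : ℕ) : ℝ) ≤ 2 * N := by
      have : ((j + N : ℕ) : ℝ) ≤ ((2 * N : ℕ) : ℝ) := by exact_mod_cast (by omega : j + N ≤ 2 * N)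
      push_cast at this ⊢
      linarith
    have b4 : ((y + r : ℕ) : ℝ) ≤ 2 * y := by
      have : ((y + r : ℕ) : ℝ) ≤ ((2 * y : ℕ) : ℝ) := by exact_mod_cast (by omega : y + r ≤ 2 * y)
      push_cast at this ⊢
      linarith
    have b5 : (0 : ℝ) < ((j + N : ℕ) : ℝ) := by exact_mod_cast (by omega : 0 < j + N)
    have b6 : (0 : ℝ) < ((y + r : ℕ) : ℝ) := by exact_mod_cast (by omega : 0 < y + r)
    refine mul_le_mul ?_ (pow_le_pow_left₀ (by positivity) b1 2) (by positivity) (by positivity)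
    refine div_le_div₀ (by positivity) (pow_le_pow_left₀ hL0.le b2 _) (by positivity) ?_
    calc ((j + N : ℕ) : ℝ) ^ 3 * ((y + r : ℕ) : ℝ) ^ 3 ≤ (2 * (N : ℝ)) ^ 3 * (2 * (y : ℝ)) ^ 3 := by
          gcongr
      _ = 64 * (N : ℝ) ^ 3 * (y : ℝ) ^ 3 := by ring
  have h5' : ∑ j ∈ Finset.range H, (R + 1) * (L ^ (4 * K + 3) / (64 * (N : ℝ) ^ 3 * (y : ℝ) ^ 3) *
      (N * y / (2 * L ^ K)) ^ 2) ≤ ∑' M : ℕ, G (M + N) := by
    refine (Finset.sum_le_sum hterm).trans ?_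
    exact ((summable_nat_add_iff N).2 hsum).sum_le_tsum (Finset.range H) (fun M _ => hG0 _)
  rw [Finset.sum_const, Finset.card_range, nsmul_eq_mul] at h5'
  have h6 : 1 < (H : ℝ) * ((R + 1) * (L ^ (4 * K + 3) / (64 * (N : ℝ) ^ 3 * (y : ℝ) ^ 3) *
      (N * y / (2 * L ^ K)) ^ 2)) := by
    calc (1 : ℝ) < L / (131072 * κ ^ 2) := by
          rw [lt_div_iff₀ (by positivity)]
          nlinarith
      _ = (N / (2 * A)) * ((y / A) * (L ^ (4 * K + 3) / (64 * (N : ℝ) ^ 3 * (y : ℝ) ^ 3) *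
          (N * y / (2 * L ^ K)) ^ 2)) := by
            have e1 : L ^ (4 * K + 3) = L * (L ^ (K + 1)) ^ 2 * (L ^ K) ^ 2 := by
              rw [← pow_mul, ← pow_mul, ← pow_succ', ← pow_add]
              congr 1
              ring
            rw [hA, e1]
            field_simp
            norm_num
      _ ≤ _ := by
          gcongr
  linarith

/-! ### Lipschitz bounds -/

theorem Ws_succ (b : ℕ → ℂ) (s : ℝ) (y : ℕ) (x : ℝ) :
    Ws b s (y + 1) x = Ws b s y x + b (⌊x - s⌋₊ + y + 1) := by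
  unfold Ws
  rw [← add_assoc, Finset.sum_Ioc_succ_top (by omega)]

theorem floor_le' {x s : ℝ} (hx : 0 ≤ x) (hs : 0 ≤ s) : ((⌊x - s⌋₊ : ℕ) : ℝ) ≤ x := by
  rcases le_total 0 (x - s) with h | h
  · linarith [Nat.floor_le h]
  · rw [Nat.floor_of_nonpos h]
    simpa using hx

theorem FF_lip (b : ℕ → ℂ) (hb : ∀ m : ℕ, ‖b m‖ ≤ Real.log (m + 3)) (k : ℝ) (hk : 0 < k)
    (s : ℝ) (hs0 : 0 ≤ s) (c : ℕ → ℂ) (hc : ∀ n, ‖c n‖ ≤ 1) (w0 : ℝ) :
    ∀ᶠ N : ℕ in atTop, ∀ w ∈ Set.Icc w0 (w0 + 1), ∀ y : ℕ, 1 ≤ y → (y : ℝ) ≤ (N : ℝ) ^ k →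
      ∀ j : ℕ, j ≤ N → ∀ r : ℕ, r ≤ y →
      ‖FF b c k s (N + j) (y + r) w - FF b c k s N y w‖ ≤
        ((j : ℝ) * (2 * y) + r * N) * (2 * (k + 2) * Real.log N) := by
  filter_upwards [eventually_ge_atTop (⌈Real.exp (k * (w0 + 1)) * 2 ^ k + 6⌉₊)] with
    N hN w hw y hy hyN j hj r hr
  set M : ℝ := Real.exp (k * (w0 + 1)) * 2 ^ k + 6 with hM
  have hM6 : 6 ≤ M := by
    have : 0 ≤ Real.exp (k * (w0 + 1)) * 2 ^ k := by positivity
    linarith
  have hNM : M ≤ N := by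
    have h1 := Nat.le_ceil M
    have h2 : ((⌈M⌉₊ : ℕ) : ℝ) ≤ N := by exact_mod_cast hN
    linarith
  have hN0 : (0 : ℝ) < N := by linarith
  have hN1 : (1 : ℝ) ≤ N := by linarith
  set L := Real.log N with hL
  have hL0 : 0 ≤ L := Real.log_nonneg hN1
  set ℓ : ℝ := 2 * (k + 2) * L with hℓ
  have hℓ0 : 0 ≤ ℓ := by positivity
  have hNk : 1 ≤ (N : ℝ) ^ k := Real.one_le_rpow hN1 hk.le
  -- the basic size
  have hx : ∀ n : ℕ, n ≤ 2 * N → Real.exp (k * w) * (n : ℝ) ^ k ≤ Real.exp (k * (w0 + 1)) * 2 ^ k * (N : ℝ) ^ k := by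
    intro n hn
    have a1 : Real.exp (k * w) ≤ Real.exp (k * (w0 + 1)) :=
      Real.exp_le_exp.2 (mul_le_mul_of_nonneg_left hw.2 hk.le)
    have a2 : (n : ℝ) ≤ 2 * N := by exact_mod_cast hn
    have a3 : (n : ℝ) ^ k ≤ (2 * (N : ℝ)) ^ k := Real.rpow_le_rpow (Nat.cast_nonneg n) a2 hk.le
    rw [Real.mul_rpow (by norm_num) hN0.le] at a3
    calc Real.exp (k * w) * (n : ℝ) ^ k ≤ Real.exp (k * (w0 + 1)) * (2 ^ k * (N : ℝ) ^ k) :=
          mul_le_mul a1 a3 (by positivity) (Real.exp_pos _).le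
      _ = _ := by ring
  have hlog : ∀ n : ℕ, n ≤ 2 * N → ∀ z : ℕ, z ≤ 2 * y →
      Real.log (Real.exp (k * w) * (n : ℝ) ^ k + z + 3) ≤ ℓ := by
    intro n hn z hz
    have a1 := hx n hn
    have a2 : (z : ℝ) ≤ 2 * (N : ℝ) ^ k := by
      have : (z : ℝ) ≤ 2 * y := by exact_mod_cast hz
      linarith
    have a0 : 0 ≤ Real.exp (k * w) * (n : ℝ) ^ k := by positivity
    have a4 : Real.exp (k * w) * (n : ℝ) ^ k + z + 3 ≤ (N : ℝ) ^ (k + 1) := by
      rw [Real.rpow_add_one hN0.ne']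
      calc Real.exp (k * w) * (n : ℝ) ^ k + z + 3 ≤
            Real.exp (k * (w0 + 1)) * 2 ^ k * (N : ℝ) ^ k + 2 * (N : ℝ) ^ k + 3 * (N : ℝ) ^ k := by linarith
        _ ≤ (N : ℝ) ^ k * M := by
            rw [hM]
            nlinarith
        _ ≤ _ := mul_le_mul_of_nonneg_left hNM (by positivity)
    have a5 := Real.log_le_log (by positivity) a4
    rw [Real.log_rpow hN0] at a5
    have a6 : (k + 1) * L ≤ ℓ := by
      rw [hℓ]
      nlinarith
    exact a5.trans a6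
  -- the first variable
  have hj1 : ∀ i : ℕ, i ≤ N → ‖FF b c k s (N + i) (y + r) w - FF b c k s N (y + r) w‖ ≤ i * (2 * y * ℓ) := by
    intro i
    induction i with
    | zero => intro _; simp
    | succ i ih =>
      intro hi
      have h1 := ih (by omega)
      have e1 : FF b c k s (N + (i + 1)) (y + r) w - FF b c k s N (y + r) w =
          (FF b c k s (N + i) (y + r) w - FF b c k s N (y + r) w) +
          c (N + i + 1) * Ws b s (y + r) (Real.exp (k * w) * ((N + i + 1 : ℕ) : ℝ) ^ k) := by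
        unfold FF
        rw [← add_assoc, Finset.sum_Icc_succ_top (by omega)]
        ring
      rw [e1]
      refine (norm_add_le _ _).trans ?_
      have h2 : ‖c (N + i + 1) * Ws b s (y + r) (Real.exp (k * w) * ((N + i + 1 : ℕ) : ℝ) ^ k)‖ ≤ 2 * y * ℓ := by
        rw [norm_mul]
        have h3 := Ws_le b hb hs0 (y + r) (x := Real.exp (k * w) * ((N + i + 1 : ℕ) : ℝ) ^ k) (by positivity)
        have h4 := hlog (N + i + 1) (by omega) (y + r) (by omega)
        have h5 : ((y + r : ℕ) : ℝ) ≤ 2 * y := by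
          have : ((y + r : ℕ) : ℝ) ≤ ((2 * y : ℕ) : ℝ) := by exact_mod_cast (by omega : y + r ≤ 2 * y)
          push_cast at this ⊢
          linarith
        calc ‖c (N + i + 1)‖ * ‖Ws b s (y + r) (Real.exp (k * w) * ((N + i + 1 : ℕ) : ℝ) ^ k)‖ ≤
              1 * (((y + r : ℕ) : ℝ) * ℓ) := by
              apply mul_le_mul (hc _) _ (norm_nonneg _) zero_le_one
              exact h3.trans (mul_le_mul_of_nonneg_left h4 (Nat.cast_nonneg _))
          _ ≤ 1 * (2 * y * ℓ) := by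
              apply mul_le_mul_of_nonneg_left _ zero_le_one
              exact mul_le_mul_of_nonneg_right h5 hℓ0
          _ = _ := one_mul _
      refine (add_le_add h1 h2).trans (le_of_eq ?_)
      push_cast
      ring
  have hr1 : ∀ i : ℕ, i ≤ y → ‖FF b c k s N (y + i) w - FF b c k s N y w‖ ≤ i * (N * ℓ) := by
    intro i
    induction i with
    | zero => intro _; simp
    | succ i ih =>
      intro hi
      have h1 := ih (by omega)
      have e1 : FF b c k s N (y + (i + 1)) w - FF b c k s N y w =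
          (FF b c k s N (y + i) w - FF b c k s N y w) +
          ∑ n ∈ Icc 1 N, c n * b (⌊Real.exp (k * w) * (n : ℝ) ^ k - s⌋₊ + (y + i) + 1) := by
        unfold FF
        rw [← add_assoc, Finset.sum_congr rfl fun n _ => by rw [Ws_succ, mul_add], Finset.sum_add_distrib]
        ring
      rw [e1]
      refine (norm_add_le _ _).trans ?_
      have h2 : ‖∑ n ∈ Icc 1 N, c n * b (⌊Real.exp (k * w) * (n : ℝ) ^ k - s⌋₊ + (y + i) + 1)‖ ≤ N * ℓ := by
        refine (norm_sum_le _ _).trans ?_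
        calc ∑ n ∈ Icc 1 N, ‖c n * b (⌊Real.exp (k * w) * (n : ℝ) ^ k - s⌋₊ + (y + i) + 1)‖ ≤
              ∑ n ∈ Icc 1 N, ℓ := by
              refine Finset.sum_le_sum fun n hn => ?_
              rw [Finset.mem_Icc] at hn
              rw [norm_mul]
              have h3 := hb (⌊Real.exp (k * w) * (n : ℝ) ^ k - s⌋₊ + (y + i) + 1)
              have h4 := hlog n (by omega) (y + i + 1) (by omega)
              have h5 : ((⌊Real.exp (k * w) * (n : ℝ) ^ k - s⌋₊ : ℕ) : ℝ) ≤ Real.exp (k * w) * (n : ℝ) ^ k :=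
                floor_le' (by positivity) hs0
              have h6 : ‖b (⌊Real.exp (k * w) * (n : ℝ) ^ k - s⌋₊ + (y + i) + 1)‖ ≤ ℓ := by
                refine h3.trans (le_trans (Real.log_le_log ?_ ?_) h4)
                · positivity
                · push_cast
                  linarith
              calc ‖c n‖ * ‖b (⌊Real.exp (k * w) * (n : ℝ) ^ k - s⌋₊ + (y + i) + 1)‖ ≤ 1 * ℓ :=
                    mul_le_mul (hc n) h6 (norm_nonneg _) zero_le_one
                _ = ℓ := one_mul ℓ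
          _ = N * ℓ := by simp
      push_cast
      linarith
  have e : FF b c k s (N + j) (y + r) w - FF b c k s N y w =
      (FF b c k s (N + j) (y + r) w - FF b c k s N (y + r) w) +
      (FF b c k s N (y + r) w - FF b c k s N y w) := by ring
  rw [e]
  refine (norm_add_le _ _).trans ?_
  have h1 := hj1 j hj
  have h2 := hr1 r hr
  calc ‖FF b c k s (N + j) (y + r) w - FF b c k s N (y + r) w‖ +
        ‖FF b c k s N (y + r) w - FF b c k s N y w‖ ≤ j * (2 * y * ℓ) + r * (N * ℓ) := add_le_add h1 h2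
    _ = _ := by ring

/-! ### almost every dilation -/

theorem harm_sum (Y : ℕ) : ∑ y ∈ Icc 1 Y, 1 / (y : ℝ) ≤ 1 + Real.log Y := by
  have h := W37.RK.sum_card_pow_div 0 Y
  simpa using h

theorem eng3_loc (b : ℕ → ℂ) (hb : ∀ m : ℕ, ‖b m‖ ≤ Real.log (m + 3)) (hneg : Neg b) (k : ℝ) (hk : 0 < k)
    (s : ℝ) (hs0 : 0 ≤ s) (hs1 : s ≤ 1) (c : ℕ → ℂ) (hc : ∀ n, ‖c n‖ ≤ 1) (w0 η : ℝ) (hη : 0 < η)
    (hη1 : η ≤ 1) (K : ℕ) :
    ∀ᵐ w ∂(volume.restrict (Set.Icc w0 (w0 + 1))), ∀ᶠ N : ℕ in atTop, ∀ y : ℕ, 1 ≤ y →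
      (y : ℝ) ≤ (N : ℝ) ^ (k * (1 - η)) → ‖FF b c k s N y w‖ ≤ N * y / Real.log N ^ K := by
  set Ym : ℕ → ℕ := fun N => ⌊(N : ℝ) ^ (k * (1 - η / 2))⌋₊ with hYm
  set P : ℕ → ℕ := fun N => ⌊(N : ℝ) ^ (k * (1 - η))⌋₊ with hP
  set Ω : Set ℝ := Set.Icc w0 (w0 + 1) with hΩ
  obtain ⟨N1, hN1⟩ := ((eng2 b hb hneg k hk s hs0 hs1 w0 (η / 2) (by positivity) (4 * K + 3 + 4)).and
    ((ev_logge (k + 1)).and (eventually_ge_atTop 2))).exists_forall_of_atTop
  -- the sums in `ℝ≥0∞`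
  obtain ⟨G, hG⟩ : ∃ G : ℕ → ℝ → ℝ≥0∞, G = fun N w => ∑ y ∈ Icc 1 (Ym (N + N1)),
    ENNReal.ofReal (Real.log ((N + N1 : ℕ) : ℝ) ^ (4 * K + 3) / (((N + N1 : ℕ) : ℝ) ^ 3 * (y : ℝ) ^ 3)) *
      ‖FF b c k s (N + N1) y w‖ₑ ^ 2 := ⟨_, rfl⟩
  have hGm : ∀ N, Measurable (G N) := by
    intro N
    rw [hG]
    refine Finset.measurable_fun_sum _ fun y _ => ?_
    exact Measurable.const_mul ((FF_meas b c k s (N + N1) y).enorm.pow_const 2) _
  have hGi : ∀ N, ∫⁻ w in Ω, G N w ≤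
      ENNReal.ofReal (1 / (((N + N1 : ℕ) : ℝ) * Real.log ((N + N1 : ℕ) : ℝ) ^ 2)) := by
    intro N
    obtain ⟨a1, a2, a3⟩ := hN1 (N + N1) (by omega)
    obtain ⟨M, hM⟩ : ∃ M, M = N + N1 := ⟨_, rfl⟩
    rw [hG]
    simp only [← hM] at a1 a2 a3 ⊢
    have hM2 : (2 : ℝ) ≤ M := by exact_mod_cast a3
    have hM0 : (0 : ℝ) < M := by linarith
    set L := Real.log (M : ℝ) with hL
    have hL0 : 0 < L := by linarith
    rw [lintegral_finsetSum _ fun y _ => Measurable.const_mul ((FF_meas b c k s M y).enorm.pow_const 2) _]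
    have e1 : ∀ y ∈ Icc 1 (Ym M), ∫⁻ w in Ω, ENNReal.ofReal (L ^ (4 * K + 3) / ((M : ℝ) ^ 3 * (y : ℝ) ^ 3)) *
        ‖FF b c k s M y w‖ₑ ^ 2 ≤ ENNReal.ofReal (1 / (M * L ^ 4) * (1 / y)) := by
      intro y hy
      rw [Finset.mem_Icc] at hy
      have hy0 : (0 : ℝ) < y := by exact_mod_cast hy.1
      rw [lintegral_const_mul _ ((FF_meas b c k s M y).enorm.pow_const 2)]
      have a4 := a1 y hy.1 ((Nat.le_floor_iff (by positivity)).1 hy.2) c hc
      refine (mul_le_mul_right a4 _).trans ?_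
      rw [← ENNReal.ofReal_mul (by positivity)]
      refine ENNReal.ofReal_le_ofReal (le_of_eq ?_)
      have e : L ^ (4 * K + 3 + 4) = L ^ (4 * K + 3) * L ^ 4 := pow_add _ _ _
      rw [e]
      field_simp
    refine (Finset.sum_le_sum e1).trans ?_
    rw [← ENNReal.ofReal_sum_of_nonneg fun y _ => by positivity]
    apply ENNReal.ofReal_le_ofReal
    rw [← Finset.mul_sum]
    have e2 := harm_sum (Ym M)
    have e3 : Real.log (Ym M) ≤ k * L := by
      rcases Nat.eq_zero_or_pos (Ym M) with h0 | h0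
      · rw [h0]
        simp only [Nat.cast_zero, Real.log_zero]
        positivity
      · have h1 : ((Ym M : ℕ) : ℝ) ≤ (M : ℝ) ^ (k * (1 - η / 2)) := Nat.floor_le (by positivity)
        have h2 : (0 : ℝ) < ((Ym M : ℕ) : ℝ) := by exact_mod_cast h0
        have h3 := Real.log_le_log h2 h1
        rw [Real.log_rpow hM0] at h3
        refine h3.trans ?_
        have : k * (1 - η / 2) ≤ k := by nlinarith
        exact mul_le_mul_of_nonneg_right this hL0.le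
    have e4 : 1 + Real.log (Ym M) ≤ L ^ 2 := by nlinarith
    calc 1 / (M * L ^ 4) * ∑ y ∈ Icc 1 (Ym M), 1 / (y : ℝ) ≤ 1 / (M * L ^ 4) * L ^ 2 :=
          mul_le_mul_of_nonneg_left (e2.trans e4) (by positivity)
      _ = 1 / (M * L ^ 2) := by
          field_simp
  have hsum0 : Summable (fun N : ℕ => 1 / (((N + N1 : ℕ) : ℝ) * Real.log ((N + N1 : ℕ) : ℝ) ^ 2)) := by
    have h1 := Pool.Agent.Y901.VK.bc_summable 1
    have h2 : Summable (fun N : ℕ => 1 / ((N : ℝ) * Real.log (N : ℝ) ^ 2)) :=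
      (summable_nat_add_iff (f := fun N : ℕ => 1 / ((N : ℝ) * Real.log (N : ℝ) ^ 2)) 2).1 h1
    exact (summable_nat_add_iff (f := fun N : ℕ => 1 / ((N : ℝ) * Real.log (N : ℝ) ^ 2)) N1).2 h2
  have hfin : ∫⁻ w in Ω, ∑' N, G N w ≠ ⊤ := by
    rw [lintegral_tsum fun N => (hGm N).aemeasurable]
    refine ne_of_lt (lt_of_le_of_lt (ENNReal.tsum_le_tsum hGi) ?_)
    exact hsum0.tsum_ofReal_lt_top
  have hae := ae_lt_top (Measurable.tsum hGm) hfin
  filter_upwards [hae, ae_restrict_mem measurableSet_Icc] with w hw hwΩ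
  have hS : Summable fun N : ℕ => ∑ y ∈ Icc 1 (Ym N),
      Real.log N ^ (4 * K + 3) / ((N : ℝ) ^ 3 * (y : ℝ) ^ 3) * ‖FF b c k s N y w‖ ^ 2 := by
    rw [← summable_nat_add_iff N1]
    refine (ENNReal.summable_toReal hw.ne).congr fun N => ?_
    have hl0 : 0 ≤ Real.log ((N + N1 : ℕ) : ℝ) := Real.log_natCast_nonneg _
    rw [hG]
    simp only
    rw [ENNReal.toReal_sum fun y _ => by finiteness]
    refine Finset.sum_congr rfl fun y _ => ?_
    rw [ENNReal.toReal_mul, ENNReal.toReal_pow, toReal_enorm, ENNReal.toReal_ofReal (by positivity)]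
  have hlip : ∀ᶠ N : ℕ in atTop, ∀ y : ℕ, 1 ≤ y → y ≤ P N → ∀ j : ℕ, j ≤ N → ∀ r : ℕ, r ≤ y →
      2 * y ≤ Ym (N + j) ∧
      ‖FF b c k s (N + j) (y + r) w - FF b c k s N y w‖ ≤
        ((j : ℝ) * (2 * y) + r * N) * (2 * (k + 2) * Real.log N) := by
    filter_upwards [FF_lip b hb k hk s hs0 c hc w0,
      Pool.Agent.W301.SS.ev_log 0 2 (k * (η / 2)) (by positivity), eventually_ge_atTop 1] with
      N h1 h2 h3 y hy hyP j hj r hr
    have hN1' : (1 : ℝ) ≤ N := by exact_mod_cast h3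
    have hN0 : (0 : ℝ) < N := by linarith
    have hyN : (y : ℝ) ≤ (N : ℝ) ^ (k * (1 - η)) := (Nat.le_floor_iff (by positivity)).1 hyP
    constructor
    · apply Nat.le_floor
      push_cast
      rw [pow_zero, mul_one] at h2
      calc 2 * (y : ℝ) ≤ (N : ℝ) ^ (k * (η / 2)) * (N : ℝ) ^ (k * (1 - η)) :=
            mul_le_mul h2 hyN (Nat.cast_nonneg y) (by positivity)
        _ = (N : ℝ) ^ (k * (1 - η / 2)) := by
            rw [← Real.rpow_add hN0]
            congr 1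
            ring
        _ ≤ ((N : ℝ) + j) ^ (k * (1 - η / 2)) := by
            apply Real.rpow_le_rpow hN0.le
            · have : (0 : ℝ) ≤ j := Nat.cast_nonneg j
              linarith
            · have : 0 ≤ 1 - η / 2 := by linarith
              positivity
    · refine h1 w hwΩ y hy ?_ j hj r hr
      refine hyN.trans (Real.rpow_le_rpow_of_exponent_le hN1' ?_)
      nlinarith
  have hdet := det2 (fun N y => FF b c k s N y w) Ym P (k + 2) (by linarith) K hS hlip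
  filter_upwards [hdet] with N hN y hy hyN
  exact hN y hy (Nat.le_floor hyN)

/-- **The engine.** -/
theorem eng3 (b : ℕ → ℂ) (hb : ∀ m : ℕ, ‖b m‖ ≤ Real.log (m + 3)) (hneg : Neg b) (k : ℝ) (hk : 0 < k)
    (s : ℝ) (hs0 : 0 ≤ s) (hs1 : s ≤ 1) (c : ℕ → ℂ) (hc : ∀ n, ‖c n‖ ≤ 1) :
    ∀ᵐ w : ℝ, ∀ (K : ℕ) (η : ℝ), 0 < η → ∀ᶠ N : ℕ in atTop, ∀ y : ℕ, 1 ≤ y →
      (y : ℝ) ≤ (N : ℝ) ^ (k * (1 - η)) → ‖FF b c k s N y w‖ ≤ N * y / Real.log N ^ K := by
  have h1 : ∀ (K j : ℕ) (z : ℤ), ∀ᵐ w ∂(volume.restrict (Set.Icc (z : ℝ) (z + 1))), ∀ᶠ N : ℕ in atTop,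
      ∀ y : ℕ, 1 ≤ y → (y : ℝ) ≤ (N : ℝ) ^ (k * (1 - 1 / ((j : ℝ) + 1))) →
        ‖FF b c k s N y w‖ ≤ N * y / Real.log N ^ K := fun K j z =>
    eng3_loc b hb hneg k hk s hs0 hs1 c hc z (1 / ((j : ℝ) + 1)) (by positivity) (by
      rw [div_le_one (by positivity)]
      have : (0 : ℝ) ≤ j := Nat.cast_nonneg j
      linarith) K
  have h2 : ∀ (K j : ℕ) (z : ℤ), ∀ᵐ w : ℝ, w ∈ Set.Icc (z : ℝ) (z + 1) → ∀ᶠ N : ℕ in atTop,
      ∀ y : ℕ, 1 ≤ y → (y : ℝ) ≤ (N : ℝ) ^ (k * (1 - 1 / ((j : ℝ) + 1))) →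
        ‖FF b c k s N y w‖ ≤ N * y / Real.log N ^ K := fun K j z =>
    (ae_restrict_iff' measurableSet_Icc).1 (h1 K j z)
  have h3 : ∀ᵐ w : ℝ, ∀ (K j : ℕ) (z : ℤ), w ∈ Set.Icc (z : ℝ) (z + 1) → ∀ᶠ N : ℕ in atTop,
      ∀ y : ℕ, 1 ≤ y → (y : ℝ) ≤ (N : ℝ) ^ (k * (1 - 1 / ((j : ℝ) + 1))) →
        ‖FF b c k s N y w‖ ≤ N * y / Real.log N ^ K := by
    rw [ae_all_iff]
    intro K
    rw [ae_all_iff]
    intro j
    rw [ae_all_iff]
    intro z
    exact h2 K j z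
  filter_upwards [h3] with w hw K η hη
  obtain ⟨j, hj⟩ := exists_nat_one_div_lt hη
  filter_upwards [hw K j ⌊w⌋ ⟨Int.floor_le w, (Int.lt_floor_add_one w).le⟩, eventually_ge_atTop 1] with
    N hN hN1 y hy hyN
  refine hN y hy (hyN.trans (Real.rpow_le_rpow_of_exponent_le (by exact_mod_cast hN1) ?_))
  nlinarith

end Pool.Agent.D0H91.MG
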