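import Mathlib
import Pool.Agent.D0H91.MG.Eng3
import Pool.Agent.Y957.VK.Fin3
import Pool.Agent.Y957.VK.Fin2a
import Pool.Agent.W301.SS.Count

/-! The engine for almost every `α`, and the weights `log p` at primes. -/

set_option autoImplicit false

namespace Pool.Agent.D0H91.MG

open Finset MeasureTheory Filter Topology
open scoped ENNReal
open Pool.Agent.H376R2.MR (er)
open Pool.Agent.Y957.VK (Neg)
open Pool.Agent.W301.SS (om om_nonneg om_le sum_om sum_Lam)

theorem ae_of_exp {P : ℝ → Prop} {k : ℝ} (hk : 0 < k) (h : ∀ᵐ w : ℝ, P (Real.exp (k * w))) :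
    ∀ᵐ α : ℝ, 0 < α → P α := by
  rw [ae_iff] at h ⊢
  have h1 : volume ((fun w : ℝ => Real.exp (k * w)) '' {w | ¬ P (Real.exp (k * w))}) = 0 := by
    apply addHaar_image_eq_zero_of_differentiableOn_of_addHaar_eq_zero volume _ h
    intro w _
    apply DifferentiableAt.differentiableWithinAt
    fun_prop
  refine measure_mono_null (fun α hα => ?_) h1
  have hα' : ¬ (0 < α → P α) := hα
  push Not at hα'
  obtain ⟨h0, h2⟩ := hα'
  have e : Real.exp (k * (Real.log α / k)) = α := by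
    rw [mul_div_cancel₀ _ hk.ne', Real.exp_log h0]
  refine ⟨Real.log α / k, ?_, e⟩
  change ¬ P (Real.exp (k * (Real.log α / k)))
  rw [e]
  exact h2

/-- **The engine**, for almost every `α`. -/
theorem engine (b : ℕ → ℂ) (hb : ∀ m : ℕ, ‖b m‖ ≤ Real.log (m + 3)) (hneg : Neg b) (k : ℝ) (hk : 0 < k)
    (s : ℝ) (hs0 : 0 ≤ s) (hs1 : s ≤ 1) (c : ℕ → ℂ) (hc : ∀ n, ‖c n‖ ≤ 1) :
    ∀ᵐ α : ℝ, 0 < α → ∀ (K : ℕ) (η : ℝ), 0 < η → ∀ᶠ N : ℕ in atTop, ∀ y : ℕ, 1 ≤ y →
      (y : ℝ) ≤ (N : ℝ) ^ (k * (1 - η)) →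
      ‖∑ n ∈ Icc 1 N, c n * Ws b s y (α * (n : ℝ) ^ k)‖ ≤ N * y / Real.log N ^ K :=
  ae_of_exp (P := fun α => ∀ (K : ℕ) (η : ℝ), 0 < η → ∀ᶠ N : ℕ in atTop, ∀ y : ℕ, 1 ≤ y →
      (y : ℝ) ≤ (N : ℝ) ^ (k * (1 - η)) →
      ‖∑ n ∈ Icc 1 N, c n * Ws b s y (α * (n : ℝ) ^ k)‖ ≤ N * y / Real.log N ^ K) hk
    (eng3 b hb hneg k hk s hs0 hs1 c hc)

/-! ### the weights -/

theorem one_le_log3 : 1 ≤ Real.log 3 := by
  rw [Real.le_log_iff_exp_le (by norm_num)]
  have := Real.exp_one_lt_d9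
  linarith

theorem one_le_log (m : ℕ) : 1 ≤ Real.log ((m : ℝ) + 3) := by
  refine one_le_log3.trans (Real.log_le_log (by norm_num) ?_)
  have : (0 : ℝ) ≤ m := Nat.cast_nonneg m
  linarith

/-- `log p` at primes, minus one -/
noncomputable def tb (m : ℕ) : ℂ := ((om m - 1 : ℝ) : ℂ)

theorem tb_le (m : ℕ) : ‖tb m‖ ≤ Real.log (m + 3) := by
  unfold tb
  rw [Complex.norm_real, Real.norm_eq_abs, abs_le]
  have h0 := om_nonneg m
  have h1 := one_le_log m
  constructor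
  · linarith
  · have h2 : om m ≤ Real.log (m + 3) := by
      unfold om
      split_ifs with hp
      · have : (0 : ℝ) < m := by exact_mod_cast hp.pos
        exact Real.log_le_log this (by linarith)
      · linarith
    linarith

theorem sub_le (N : ℕ) (hN : 1 ≤ N) : ∑ n ∈ Icc 1 N, (ArithmeticFunction.vonMangoldt n - om n) ≤
    2 * √(N : ℝ) * Real.log N := by
  rw [Finset.sum_sub_distrib, sum_om, sum_Lam]
  exact Chebyshev.psi_sub_theta_le (by exact_mod_cast hN)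

theorem neg_of_small (g : ℕ → ℂ) (hg : ∀ N : ℕ, 1 ≤ N → ∑ n ∈ Icc 1 N, ‖g n‖ ≤ 2 * √(N : ℝ) * Real.log N) :
    Neg g := by
  intro A K
  obtain ⟨N0, hN0⟩ := (ev_logpow 1 (2 * (K + 1))).exists_forall_of_atTop
  -- for large `N`: `(log N)^(K+1) ≤ √N`
  obtain ⟨M, hM⟩ : ∃ M : ℝ, M = (2 + 2 * (N0 + 1) * (Real.log (N0 + 1) + 1) ^ (K + 1)) := ⟨_, rfl⟩
  refine ⟨M, fun N τ hN hτ => ?_⟩
  have hN1 : 1 ≤ N := by omega
  have hNr : (2 : ℝ) ≤ N := by exact_mod_cast hN
  have hN0' : (0 : ℝ) < N := by linarith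
  have hL : 0 < Real.log N := Real.log_pos (by linarith)
  have hlogN0 : 0 ≤ Real.log ((N0 : ℝ) + 1) := Real.log_nonneg (by
    have : (0 : ℝ) ≤ N0 := Nat.cast_nonneg N0
    linarith)
  have h1 : ‖∑ n ∈ Finset.Icc 1 N, g n * er τ (Real.log n)‖ ≤ 2 * √(N : ℝ) * Real.log N := by
    refine (norm_sum_le _ _).trans ?_
    refine le_trans (le_of_eq ?_) (hg N hN1)
    refine Finset.sum_congr rfl fun n _ => ?_
    rw [norm_mul, er_nrm, mul_one]
  refine h1.trans ?_
  rw [le_div_iff₀ (by positivity)]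
  have hs : √(N : ℝ) * √(N : ℝ) = N := Real.mul_self_sqrt hN0'.le
  have hs0 : 0 ≤ √(N : ℝ) := Real.sqrt_nonneg _
  by_cases hNN : N0 ≤ N
  · have h2 := hN0 N hNN
    rw [one_mul] at h2
    have h3 : Real.log N ^ (K + 1) ≤ √(N : ℝ) := by
      apply Real.le_sqrt_of_sq_le
      rw [← pow_mul]
      calc Real.log N ^ ((K + 1) * 2) = Real.log N ^ (2 * (K + 1)) := by ring_nf
        _ ≤ N := h2
    calc 2 * √(N : ℝ) * Real.log N * Real.log N ^ K = 2 * √(N : ℝ) * Real.log N ^ (K + 1) := by ring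
      _ ≤ 2 * √(N : ℝ) * √(N : ℝ) := by gcongr
      _ = 2 * N := by rw [mul_assoc, hs]
      _ ≤ M * N := by
          apply mul_le_mul_of_nonneg_right _ hN0'.le
          rw [hM]
          have : 0 ≤ 2 * ((N0 : ℝ) + 1) * (Real.log (N0 + 1) + 1) ^ (K + 1) := by positivity
          linarith
  · have h2 : (N : ℝ) ≤ N0 + 1 := by
      have : N ≤ N0 := by omega
      have : (N : ℝ) ≤ N0 := by exact_mod_cast this
      linarith
    have h3 : Real.log N ≤ Real.log (N0 + 1) + 1 := by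
      have := Real.log_le_log hN0' h2
      linarith
    have h4 : √(N : ℝ) ≤ N := by
      rw [Real.sqrt_le_left hN0'.le]
      nlinarith
    calc 2 * √(N : ℝ) * Real.log N * Real.log N ^ K = 2 * √(N : ℝ) * Real.log N ^ (K + 1) := by ring
      _ ≤ 2 * N * (Real.log (N0 + 1) + 1) ^ (K + 1) := by gcongr
      _ ≤ (2 * (N0 + 1) * (Real.log (N0 + 1) + 1) ^ (K + 1)) * N := by
          have h5 : 0 ≤ (Real.log ((N0 : ℝ) + 1) + 1) ^ (K + 1) := by positivity
          have h6 : (1 : ℝ) ≤ N0 + 1 := by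
            have : (0 : ℝ) ≤ N0 := Nat.cast_nonneg N0
            linarith
          have h7 : 2 * (N : ℝ) * (Real.log (N0 + 1) + 1) ^ (K + 1) * 1 ≤
              2 * N * (Real.log (N0 + 1) + 1) ^ (K + 1) * (N0 + 1) :=
            mul_le_mul_of_nonneg_left h6 (by positivity)
          linarith
      _ ≤ M * N := by
          apply mul_le_mul_of_nonneg_right _ hN0'.le
          rw [hM]
          linarith

theorem neg_add {g h : ℕ → ℂ} (hg : Neg g) (hh : Neg h) : Neg (fun n => g n + h n) := by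
  intro A K
  obtain ⟨C1, h1⟩ := hg A K
  obtain ⟨C2, h2⟩ := hh A K
  refine ⟨C1 + C2, fun N τ hN hτ => ?_⟩
  have e : ∑ n ∈ Finset.Icc 1 N, (g n + h n) * er τ (Real.log n) =
      (∑ n ∈ Finset.Icc 1 N, g n * er τ (Real.log n)) + ∑ n ∈ Finset.Icc 1 N, h n * er τ (Real.log n) := by
    rw [← Finset.sum_add_distrib]
    refine Finset.sum_congr rfl fun n _ => ?_
    ring
  rw [e]
  refine (norm_add_le _ _).trans ((add_le_add (h1 N τ hN hτ) (h2 N τ hN hτ)).trans (le_of_eq ?_))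
  ring

theorem tb_neg : Neg tb := by
  have h1 := Pool.Agent.Y957.VK.lw_all.2.2
  have h2 : Neg (fun n => ((om n - ArithmeticFunction.vonMangoldt n : ℝ) : ℂ)) := by
    apply neg_of_small
    intro N hN
    refine le_trans (le_of_eq ?_) (sub_le N hN)
    refine Finset.sum_congr rfl fun n _ => ?_
    rw [Complex.norm_real, Real.norm_eq_abs, abs_of_nonpos (sub_nonpos.2 (om_le n))]
    ring
  have h3 := neg_add h1 h2
  have e : tb = fun n => Pool.Agent.Y957.VK.lamw n +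
      ((om n - ArithmeticFunction.vonMangoldt n : ℝ) : ℂ) := by
    funext n
    unfold tb Pool.Agent.Y957.VK.lamw
    push_cast
    ring
  rw [e]
  exact h3

end Pool.Agent.D0H91.MG
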