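import Mathlib

/-! Fubini for almost every point of `ℝ^(r+1)`. -/

set_option autoImplicit false

namespace Pool.Agent.D0H91.MG

open MeasureTheory Filter Topology

theorem cons_meas (r : ℕ) : Measurable (fun p : (Fin r → ℝ) × ℝ => (Fin.cons p.2 p.1 : Fin (r + 1) → ℝ)) := by
  rw [measurable_pi_iff]
  intro i
  refine Fin.cases ?_ (fun j => ?_) i
  · simp only [Fin.cons_zero]
    exact measurable_snd
  · simp only [Fin.cons_succ]
    exact (measurable_pi_apply j).comp measurable_fst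

theorem fubini_ae {r : ℕ} {P : (Fin (r + 1) → ℝ) → Prop} (hm : MeasurableSet {α | P α})
    (h : ∀ᵐ β : Fin r → ℝ, ∀ᵐ t : ℝ, P (Fin.cons t β)) : ∀ᵐ α : Fin (r + 1) → ℝ, P α := by
  have mp := volume_preserving_piFinSuccAbove (fun _ : Fin (r + 1) => ℝ) 0
  have sw : MeasurePreserving (Prod.swap : ℝ × (Fin r → ℝ) → (Fin r → ℝ) × ℝ)
      ((volume : Measure ℝ).prod (volume : Measure (Fin r → ℝ)))
      ((volume : Measure (Fin r → ℝ)).prod (volume : Measure ℝ)) := Measure.measurePreserving_swap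
  have comp := sw.comp mp
  set T : Set ((Fin r → ℝ) × ℝ) := {p | ¬ P (Fin.cons p.2 p.1)} with hT
  have hTm : MeasurableSet T := (cons_meas r) hm.compl
  have hT0 : ((volume : Measure (Fin r → ℝ)).prod (volume : Measure ℝ)) T = 0 := by
    rw [Measure.measure_prod_null hTm]
    filter_upwards [h] with β hβ
    exact hβ
  have h1 := comp.measure_preimage hTm.nullMeasurableSet
  rw [hT0] at h1
  rw [ae_iff]
  refine measure_mono_null (fun α hα => ?_) h1
  change (Prod.swap (MeasurableEquiv.piFinSuccAbove (fun _ : Fin (r + 1) => ℝ) 0 α)) ∈ T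
  have e : (Fin.cons (Prod.swap (MeasurableEquiv.piFinSuccAbove (fun _ : Fin (r + 1) => ℝ) 0 α)).2
      (Prod.swap (MeasurableEquiv.piFinSuccAbove (fun _ : Fin (r + 1) => ℝ) 0 α)).1 : Fin (r + 1) → ℝ) = α := by
    funext i
    refine Fin.cases ?_ (fun j => ?_) i
    · rfl
    · rfl
  rw [hT]
  change ¬ P _
  rw [e]
  exact hα

/-- the set where a sequence of measurable functions tends to zero -/
theorem meas_tendsto {Ω : Type*} [MeasurableSpace Ω] (f : ℕ → Ω → ℝ) (hf : ∀ N, Measurable (f N))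
    : MeasurableSet {ω | Tendsto (fun N => f N ω) atTop (𝓝 0)} := by
  have e : {ω | Tendsto (fun N => f N ω) atTop (𝓝 0)} =
      ⋂ m : ℕ, ⋃ N0 : ℕ, ⋂ N : ℕ, ⋂ (_ : N0 ≤ N), {ω | |f N ω| < 1 / ((m : ℝ) + 1)} := by
    ext ω
    simp only [Set.mem_iInter, Set.mem_iUnion]
    change Tendsto (fun N => f N ω) atTop (𝓝 0) ↔
      ∀ m : ℕ, ∃ N0 : ℕ, ∀ N : ℕ, N0 ≤ N → |f N ω| < 1 / ((m : ℝ) + 1)
    rw [Metric.tendsto_atTop]
    constructor
    · intro h m
      obtain ⟨N0, h0⟩ := h (1 / ((m : ℝ) + 1)) (by positivity)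
      refine ⟨N0, fun N hN => ?_⟩
      have := h0 N hN
      rwa [Real.dist_eq, sub_zero] at this
    · intro h ε hε
      obtain ⟨m, hm⟩ := exists_nat_one_div_lt hε
      obtain ⟨N0, h0⟩ := h m
      refine ⟨N0, fun N hN => ?_⟩
      rw [Real.dist_eq, sub_zero]
      exact (h0 N hN).trans hm
  rw [e]
  refine MeasurableSet.iInter fun m => MeasurableSet.iUnion fun N0 => MeasurableSet.iInter fun N =>
    MeasurableSet.iInter fun _ => ?_
  exact measurableSet_lt (hf N).abs measurable_const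

end Pool.Agent.D0H91.MG

namespace Pool.Agent.D0H91.MG

open MeasureTheory Filter Topology

/-- the other order of integration -/
theorem fubini_ae' {r : ℕ} {P : (Fin (r + 1) → ℝ) → Prop} (hm : MeasurableSet {α | P α})
    (h : ∀ᵐ t : ℝ, ∀ᵐ β : Fin r → ℝ, P (Fin.cons t β)) : ∀ᵐ α : Fin (r + 1) → ℝ, P α := by
  have mp := volume_preserving_piFinSuccAbove (fun _ : Fin (r + 1) => ℝ) 0
  set T : Set (ℝ × (Fin r → ℝ)) := {p | ¬ P (Fin.cons p.1 p.2)} with hT
  have hTm : MeasurableSet T := by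
    have h1 : Measurable (fun p : ℝ × (Fin r → ℝ) => (Fin.cons p.1 p.2 : Fin (r + 1) → ℝ)) :=
      (cons_meas r).comp measurable_swap
    exact h1 hm.compl
  have hT0 : ((volume : Measure ℝ).prod (volume : Measure (Fin r → ℝ))) T = 0 := by
    rw [Measure.measure_prod_null hTm]
    filter_upwards [h] with t ht
    exact ht
  have h1 := mp.measure_preimage hTm.nullMeasurableSet
  have h2 : (volume : Measure (ℝ × (Fin r → ℝ))) T = 0 := hT0
  rw [ae_iff]
  refine measure_mono_null (fun α hα => ?_) (h1.trans h2)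
  change (MeasurableEquiv.piFinSuccAbove (fun _ : Fin (r + 1) => ℝ) 0 α) ∈ T
  have e : (Fin.cons (MeasurableEquiv.piFinSuccAbove (fun _ : Fin (r + 1) => ℝ) 0 α).1
      (MeasurableEquiv.piFinSuccAbove (fun _ : Fin (r + 1) => ℝ) 0 α).2 : Fin (r + 1) → ℝ) = α := by
    funext i
    refine Fin.cases ?_ (fun j => ?_) i
    · rfl
    · rfl
  rw [hT]
  change ¬ P _
  rw [e]
  exact hα

end Pool.Agent.D0H91.MG
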