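import Mathlib
import Pool.Agent.D0H91.MG.Base
import Pool.Agent.D0H91.MG.Fub

/-! The Moebius function at `⌊α n ^ k⌋` against arbitrary bounded sequences. -/

set_option autoImplicit false

namespace Pool.Agent.D0H91.MG

open Finset MeasureTheory Filter Topology
open Pool.Agent.Y957.VK (Neg)

theorem Ws_one (b : ℕ → ℂ) {x : ℝ} (hx : 1 ≤ x) : Ws b 1 1 x = b ⌊x⌋₊ := by
  unfold Ws
  have h1 : 1 ≤ ⌊x⌋₊ := Nat.le_floor (by simpa using hx)
  have h2 : ⌊x - 1⌋₊ = ⌊x⌋₊ - 1 := Nat.floor_sub_one x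
  rw [h2]
  have h3 : Ioc (⌊x⌋₊ - 1) (⌊x⌋₊ - 1 + 1) = {⌊x⌋₊} := by
    ext m
    rw [Finset.mem_Ioc, Finset.mem_singleton]
    omega
  rw [h3, Finset.sum_singleton]

/-- the points `α n ^ k` are at least `1` from some place on -/
theorem ev_point (α k : ℝ) (hα : 0 < α) (hk : 0 < k) : ∀ᶠ n : ℕ in atTop, 1 ≤ α * (n : ℝ) ^ k := by
  have h1 : Tendsto (fun n : ℕ => α * (n : ℝ) ^ k) atTop atTop :=
    ((tendsto_rpow_atTop hk).comp tendsto_natCast_atTop_atTop).const_mul_atTop hα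
  exact h1.eventually_ge_atTop 1

theorem one_factor (b : ℕ → ℂ) (hb1 : ∀ m : ℕ, ‖b m‖ ≤ 1) (hneg : Neg b) (k : ℝ) (hk : 0 < k)
    (a : ℕ → ℂ) (M : ℝ) (ha : ∀ n, ‖a n‖ ≤ M) :
    ∀ᵐ α : ℝ, 0 < α → ∀ K : ℕ, Tendsto (fun N : ℕ => (Real.log N) ^ K / N *
      ‖∑ n ∈ Icc 1 N, a n * b ⌊α * (n : ℝ) ^ k⌋₊‖) atTop (𝓝 0) := by
  have hM0 : 0 ≤ M := (norm_nonneg _).trans (ha 0)
  have hb : ∀ m : ℕ, ‖b m‖ ≤ Real.log (m + 3) := fun m => (hb1 m).trans (one_le_log m)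
  have hM1 : (0 : ℝ) < M + 1 := by linarith
  have hc : ∀ n, ‖a n / ((M + 1 : ℝ) : ℂ)‖ ≤ 1 := by
    intro n
    rw [norm_div, Complex.norm_real, Real.norm_eq_abs, abs_of_pos hM1, div_le_one hM1]
    linarith [ha n]
  filter_upwards [engine b hb hneg k hk 1 zero_le_one le_rfl (fun n => a n / ((M + 1 : ℝ) : ℂ)) hc] with
    α hα hα0 K
  obtain ⟨n0, hn0⟩ := (ev_point α k hα0 hk).exists_forall_of_atTop
  have h1 := hα hα0 (K + 1) (1 / 2) (by norm_num)
  -- the bound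
  have hmain : ∀ᶠ N : ℕ in atTop, (Real.log N) ^ K / N * ‖∑ n ∈ Icc 1 N, a n * b ⌊α * (n : ℝ) ^ k⌋₊‖ ≤
      (M + 1) * (Real.log N)⁻¹ + 2 * M * (n0 + 1) * ((Real.log N) ^ K / N) := by
    filter_upwards [h1, ev_logge 1, eventually_ge_atTop 1] with N h2 h3 h4
    have hN1 : (1 : ℝ) ≤ N := by exact_mod_cast h4
    have hN0 : (0 : ℝ) < N := by linarith
    have hL0 : 0 < Real.log N := by linarith
    have h5 := h2 1 le_rfl (by
      rw [Nat.cast_one]
      apply Real.one_le_rpow hN1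
      nlinarith)
    rw [Nat.cast_one, mul_one] at h5
    have e1 : ∑ n ∈ Icc 1 N, a n / ((M + 1 : ℝ) : ℂ) * Ws b 1 1 (α * (n : ℝ) ^ k) =
        (1 / ((M + 1 : ℝ) : ℂ)) * ∑ n ∈ Icc 1 N, a n * Ws b 1 1 (α * (n : ℝ) ^ k) := by
      rw [Finset.mul_sum]
      refine Finset.sum_congr rfl fun n _ => ?_
      ring
    rw [e1, norm_mul, norm_div, norm_one, Complex.norm_real, Real.norm_eq_abs, abs_of_pos hM1,
      one_div_mul_eq_div, div_le_iff₀ hM1] at h5
    have e2 : ‖∑ n ∈ Icc 1 N, a n * b ⌊α * (n : ℝ) ^ k⌋₊ -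
        ∑ n ∈ Icc 1 N, a n * Ws b 1 1 (α * (n : ℝ) ^ k)‖ ≤ 2 * M * (n0 + 1) := by
      rw [← Finset.sum_sub_distrib]
      refine (norm_sum_le _ _).trans ?_
      calc ∑ n ∈ Icc 1 N, ‖a n * b ⌊α * (n : ℝ) ^ k⌋₊ - a n * Ws b 1 1 (α * (n : ℝ) ^ k)‖ ≤
            ∑ n ∈ Icc 1 N, if n ∈ Finset.range (n0 + 1) then 2 * M else 0 := by
            refine Finset.sum_le_sum fun n hn => ?_
            by_cases hn1 : n0 ≤ n
            · rw [Ws_one b (hn0 n hn1), sub_self, norm_zero]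
              split_ifs <;> positivity
            · rw [if_pos (Finset.mem_range.2 (by omega)), ← mul_sub, norm_mul]
              have h6 : ‖b ⌊α * (n : ℝ) ^ k⌋₊ - Ws b 1 1 (α * (n : ℝ) ^ k)‖ ≤ 2 := by
                refine (norm_sub_le _ _).trans ?_
                have h7 : ‖Ws b 1 1 (α * (n : ℝ) ^ k)‖ ≤ 1 := by
                  unfold Ws
                  refine (norm_sum_le _ _).trans ((Finset.sum_le_sum fun m _ => hb1 m).trans ?_)
                  simp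
                linarith [hb1 ⌊α * (n : ℝ) ^ k⌋₊]
              calc ‖a n‖ * ‖b ⌊α * (n : ℝ) ^ k⌋₊ - Ws b 1 1 (α * (n : ℝ) ^ k)‖ ≤ M * 2 :=
                    mul_le_mul (ha n) h6 (norm_nonneg _) hM0
                _ = 2 * M := mul_comm _ _
        _ ≤ 2 * M * (n0 + 1) := by
            rw [← Finset.sum_filter, Finset.sum_const, nsmul_eq_mul]
            have h8 : ((Icc 1 N).filter fun n => n ∈ Finset.range (n0 + 1)).card ≤ n0 + 1 := by
              calc _ ≤ (Finset.range (n0 + 1)).card := by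
                    apply Finset.card_le_card
                    intro n hn
                    exact (Finset.mem_filter.1 hn).2
                _ = n0 + 1 := Finset.card_range _
            have h9 : (((Icc 1 N).filter fun n => n ∈ Finset.range (n0 + 1)).card : ℝ) ≤ n0 + 1 := by
              exact_mod_cast h8
            calc _ ≤ ((n0 : ℝ) + 1) * (2 * M) := mul_le_mul_of_nonneg_right h9 (by positivity)
              _ = _ := by ring
    have e3 : ‖∑ n ∈ Icc 1 N, a n * b ⌊α * (n : ℝ) ^ k⌋₊‖ ≤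
        N / Real.log N ^ (K + 1) * (M + 1) + 2 * M * (n0 + 1) := by
      have := norm_add_le (∑ n ∈ Icc 1 N, a n * b ⌊α * (n : ℝ) ^ k⌋₊ -
        ∑ n ∈ Icc 1 N, a n * Ws b 1 1 (α * (n : ℝ) ^ k)) (∑ n ∈ Icc 1 N, a n * Ws b 1 1 (α * (n : ℝ) ^ k))
      rw [sub_add_cancel] at this
      linarith
    calc (Real.log N) ^ K / N * ‖∑ n ∈ Icc 1 N, a n * b ⌊α * (n : ℝ) ^ k⌋₊‖ ≤
          (Real.log N) ^ K / N * (N / Real.log N ^ (K + 1) * (M + 1) + 2 * M * (n0 + 1)) :=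
          mul_le_mul_of_nonneg_left e3 (by positivity)
      _ = _ := by
          rw [pow_succ]
          field_simp
  have t1 : Tendsto (fun N : ℕ => (M + 1) * (Real.log N)⁻¹ + 2 * M * (n0 + 1) * ((Real.log N) ^ K / N))
      atTop (𝓝 ((M + 1) * 0 + 2 * M * (n0 + 1) * 0)) := by
    refine Tendsto.add (Tendsto.const_mul _ ?_) (Tendsto.const_mul _ ?_)
    · exact (Real.tendsto_log_atTop.comp tendsto_natCast_atTop_atTop).inv_tendsto_atTop
    · have h2 := (Real.isLittleO_pow_log_id_atTop (n := K)).tendsto_div_nhds_zero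
      exact h2.comp tendsto_natCast_atTop_atTop
  rw [mul_zero, mul_zero, add_zero] at t1
  refine squeeze_zero' (Eventually.of_forall fun N => ?_) hmain t1
  have : 0 ≤ Real.log (N : ℝ) := Real.log_natCast_nonneg N
  positivity

theorem coord_meas {r : ℕ} (i : Fin r) : Measurable (fun α : Fin r → ℝ => α i) := measurable_pi_apply i

theorem meas_factor (b : ℕ → ℂ) {r : ℕ} (i : Fin r) (c : ℝ) :
    Measurable (fun α : Fin r → ℝ => b ⌊α i * c⌋₊) := by
  have h1 : Measurable b := measurable_from_nat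
  have h2 : Measurable (fun x : ℝ => ⌊x⌋₊) := Nat.measurable_floor
  have h3 : Measurable (fun α : Fin r → ℝ => α i * c) := (coord_meas i).mul measurable_const
  exact h1.comp (h2.comp h3)

theorem pos_meas {r : ℕ} (i : Fin r) : MeasurableSet {α : Fin r → ℝ | 0 < α i} :=
  measurableSet_lt measurable_const (coord_meas i)

theorem sum_meas (b a : ℕ → ℂ) {r : ℕ} (k : Fin r → ℝ) (N K : ℕ) :
    Measurable (fun α : Fin r → ℝ => (Real.log N) ^ K / N *
        ‖∑ n ∈ Finset.Icc 1 N, a n * ∏ i, b ⌊α i * (n : ℝ) ^ (k i)⌋₊‖) := by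
  have h1 : Measurable (fun α : Fin r → ℝ => ∑ n ∈ Finset.Icc 1 N, a n * ∏ i, b ⌊α i * (n : ℝ) ^ (k i)⌋₊) := by
    refine Finset.measurable_fun_sum _ fun n _ => ?_
    have h2 : Measurable (fun α : Fin r → ℝ => ∏ i, b ⌊α i * (n : ℝ) ^ (k i)⌋₊) :=
      Finset.measurable_fun_prod _ fun i _ => meas_factor b i _
    exact measurable_const.mul h2
  exact measurable_const.mul h1.norm

theorem set_meas (b a : ℕ → ℂ) {r : ℕ} (k : Fin r → ℝ) :
    MeasurableSet {α : Fin r → ℝ | (∀ i, 0 < α i) → ∀ K : ℕ, Tendsto (fun N : ℕ => (Real.log N) ^ K / N *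
      ‖∑ n ∈ Finset.Icc 1 N, a n * ∏ i, b ⌊α i * (n : ℝ) ^ (k i)⌋₊‖) atTop (𝓝 0)} := by
  have e : {α : Fin r → ℝ | (∀ i, 0 < α i) → ∀ K : ℕ, Tendsto (fun N : ℕ => (Real.log N) ^ K / N *
      ‖∑ n ∈ Finset.Icc 1 N, a n * ∏ i, b ⌊α i * (n : ℝ) ^ (k i)⌋₊‖) atTop (𝓝 0)} =
      (⋂ i, {α : Fin r → ℝ | 0 < α i})ᶜ ∪ ⋂ K : ℕ, {α : Fin r → ℝ |
        Tendsto (fun N : ℕ => (Real.log N) ^ K / N *
      ‖∑ n ∈ Finset.Icc 1 N, a n * ∏ i, b ⌊α i * (n : ℝ) ^ (k i)⌋₊‖) atTop (𝓝 0)} := by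
    ext α
    rw [Set.mem_union, Set.mem_compl_iff, Set.mem_iInter, Set.mem_iInter]
    exact imp_iff_not_or
  rw [e]
  refine MeasurableSet.union (MeasurableSet.compl (MeasurableSet.iInter fun i => pos_meas i))
      (MeasurableSet.iInter fun K => ?_)
  exact meas_tendsto _ fun N => sum_meas b a k N K

/-- several factors -/
theorem several_factors (b : ℕ → ℂ) (hb1 : ∀ m : ℕ, ‖b m‖ ≤ 1) (hneg : Neg b) (r : ℕ) (k : Fin (r + 1) → ℝ)
    (hk : ∀ i, 0 < k i) (a : ℕ → ℂ) (M : ℝ) (ha : ∀ n, ‖a n‖ ≤ M) :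
    ∀ᵐ α : Fin (r + 1) → ℝ, (∀ i, 0 < α i) → ∀ K : ℕ, Tendsto (fun N : ℕ => (Real.log N) ^ K / N *
      ‖∑ n ∈ Icc 1 N, a n * ∏ i, b ⌊α i * (n : ℝ) ^ (k i)⌋₊‖) atTop (𝓝 0) := by
  have hM0 : 0 ≤ M := (norm_nonneg _).trans (ha 0)
  apply fubini_ae (set_meas b a k)
  · refine Eventually.of_forall fun β => ?_
    have h1 := one_factor b hb1 hneg (k 0) (hk 0)
      (fun n => a n * ∏ i : Fin r, b ⌊β i * (n : ℝ) ^ (k i.succ)⌋₊) M (fun n => by
        rw [norm_mul, norm_prod]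
        calc ‖a n‖ * ∏ i : Fin r, ‖b ⌊β i * (n : ℝ) ^ (k i.succ)⌋₊‖ ≤ M * 1 := by
              apply mul_le_mul (ha n) _ (Finset.prod_nonneg fun _ _ => norm_nonneg _) hM0
              exact Finset.prod_le_one (fun _ _ => norm_nonneg _) fun _ _ => hb1 _
          _ = M := mul_one M)
    filter_upwards [h1] with t ht hpos K
    have h2 := ht (by simpa using hpos 0) K
    refine h2.congr fun N => ?_
    congr 2
    refine Finset.sum_congr rfl fun n _ => ?_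
    rw [Fin.prod_univ_succ, Fin.cons_zero]
    simp only [Fin.cons_succ]
    ring

end Pool.Agent.D0H91.MG
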