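import Mathlib
import Pool.Agent.D0H91.MG.Mob

/-! The engine for the sums over `⌊α n ^ k⌋ ≤ m < ⌊α n ^ k⌋ + y`. -/

set_option autoImplicit false

namespace Pool.Agent.D0H91.MG

open Finset MeasureTheory Filter Topology
open Pool.Agent.Y957.VK (Neg)

/-- the sum of the `b m` with `⌊x⌋ ≤ m < ⌊x⌋ + y` -/
noncomputable def Wc (b : ℕ → ℂ) (y : ℕ) (x : ℝ) : ℂ := ∑ m ∈ Ico ⌊x⌋₊ (⌊x⌋₊ + y), b m

theorem Wc_eq (b : ℕ → ℂ) (y : ℕ) {x : ℝ} (hx : 1 ≤ x) : Ws b 1 y x = Wc b y x := by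
  unfold Ws Wc
  have h1 : 1 ≤ ⌊x⌋₊ := Nat.le_floor (by simpa using hx)
  have h2 : ⌊x - 1⌋₊ = ⌊x⌋₊ - 1 := Nat.floor_sub_one x
  rw [h2]
  apply Finset.sum_congr _ fun _ _ => rfl
  ext m
  rw [Finset.mem_Ioc, Finset.mem_Ico]
  omega

theorem Wc_le (b : ℕ → ℂ) (hb : ∀ m : ℕ, ‖b m‖ ≤ Real.log (m + 3)) (y : ℕ) {x : ℝ}
    (hx : 0 ≤ x) : ‖Wc b y x‖ ≤ y * Real.log (x + y + 3) := by
  unfold Wc
  refine (norm_sum_le _ _).trans ?_
  calc ∑ m ∈ Ico ⌊x⌋₊ (⌊x⌋₊ + y), ‖b m‖ ≤ ∑ m ∈ Ico ⌊x⌋₊ (⌊x⌋₊ + y), Real.log (x + y + 3) := by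
        refine Finset.sum_le_sum fun m hm => ?_
        rw [Finset.mem_Ico] at hm
        refine (hb m).trans (Real.log_le_log ?_ ?_)
        · have : (0 : ℝ) ≤ m := Nat.cast_nonneg m
          linarith
        · have h1 : (m : ℝ) ≤ ((⌊x⌋₊ + y : ℕ) : ℝ) := by exact_mod_cast hm.2.le
          have h2 : ((⌊x⌋₊ : ℕ) : ℝ) ≤ x := Nat.floor_le hx
          push_cast at h1
          linarith
    _ = y * Real.log (x + y + 3) := by
        rw [Finset.sum_const, Nat.card_Ico, Nat.add_sub_cancel_left, nsmul_eq_mul]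

theorem engineIco (b : ℕ → ℂ) (hb : ∀ m : ℕ, ‖b m‖ ≤ Real.log (m + 3)) (hneg : Neg b) (k : ℝ) (hk : 0 < k)
    (a : ℕ → ℂ) (M : ℝ) (ha : ∀ n, ‖a n‖ ≤ M) :
    ∀ᵐ α : ℝ, 0 < α → ∀ (K : ℕ) (η : ℝ), 0 < η → ∀ᶠ N : ℕ in atTop, ∀ y : ℕ, 1 ≤ y →
      (y : ℝ) ≤ (N : ℝ) ^ (k * (1 - η)) →
      ‖∑ n ∈ Icc 1 N, a n * Wc b y (α * (n : ℝ) ^ k)‖ ≤ N * y / Real.log N ^ K := by
  have hM0 : 0 ≤ M := (norm_nonneg _).trans (ha 0)
  have hM1 : (0 : ℝ) < M + 1 := by linarith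
  have hc : ∀ n, ‖a n / ((M + 1 : ℝ) : ℂ)‖ ≤ 1 := by
    intro n
    rw [norm_div, Complex.norm_real, Real.norm_eq_abs, abs_of_pos hM1, div_le_one hM1]
    linarith [ha n]
  filter_upwards [engine b hb hneg k hk 1 zero_le_one le_rfl (fun n => a n / ((M + 1 : ℝ) : ℂ)) hc] with
    α hα hα0 K η hη
  obtain ⟨n0, hn0⟩ := (ev_point α k hα0 hk).exists_forall_of_atTop
  have h1 := hα hα0 (K + 2) η hη
  filter_upwards [h1, ev_logge (2 * (M + 1)), ev_logge (Real.log 5),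
    ev_logpow (2 * (2 * M * (n0 + 1) * (k + 1))) (K + 1), eventually_ge_atTop 1] with N h2 h3 h3' h3'' h4 y hy hyN
  have hN1 : (1 : ℝ) ≤ N := by exact_mod_cast h4
  have hN0 : (0 : ℝ) < N := by linarith
  obtain ⟨L, hL⟩ : ∃ L, L = Real.log (N : ℝ) := ⟨_, rfl⟩
  simp only [← hL] at h2 h3 h3' h3'' ⊢
  have hL1 : 1 ≤ L := by linarith
  have hL0 : 0 < L := by linarith
  have hy1 : (1 : ℝ) ≤ y := by exact_mod_cast hy
  have h5 := h2 y hy hyN
  have e1 : ∑ n ∈ Icc 1 N, a n / ((M + 1 : ℝ) : ℂ) * Ws b 1 y (α * (n : ℝ) ^ k) =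
      (1 / ((M + 1 : ℝ) : ℂ)) * ∑ n ∈ Icc 1 N, a n * Ws b 1 y (α * (n : ℝ) ^ k) := by
    rw [Finset.mul_sum]
    refine Finset.sum_congr rfl fun n _ => ?_
    ring
  rw [e1, norm_mul, norm_div, norm_one, Complex.norm_real, Real.norm_eq_abs, abs_of_pos hM1,
    one_div_mul_eq_div, div_le_iff₀ hM1] at h5
  have hlog : ∀ x : ℝ, 0 ≤ x → x ≤ 1 → Real.log (x + y + 3) ≤ (k + 1) * L := by
    intro x hx0 hx1
    have a1 : x + y + 3 ≤ 5 * (N : ℝ) ^ k := by
      have a2 : (y : ℝ) ≤ (N : ℝ) ^ k := by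
        refine hyN.trans (Real.rpow_le_rpow_of_exponent_le hN1 ?_)
        nlinarith
      have a3 : 1 ≤ (N : ℝ) ^ k := Real.one_le_rpow hN1 hk.le
      linarith
    have a4 := Real.log_le_log (by positivity) a1
    rw [Real.log_mul (by norm_num) (by positivity), Real.log_rpow hN0, ← hL] at a4
    linarith
  have e2 : ‖∑ n ∈ Icc 1 N, a n * Wc b y (α * (n : ℝ) ^ k) -
      ∑ n ∈ Icc 1 N, a n * Ws b 1 y (α * (n : ℝ) ^ k)‖ ≤ (2 * M * (n0 + 1) * (k + 1)) * (y * L) := by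
    rw [← Finset.sum_sub_distrib]
    refine (norm_sum_le _ _).trans ?_
    calc ∑ n ∈ Icc 1 N, ‖a n * Wc b y (α * (n : ℝ) ^ k) - a n * Ws b 1 y (α * (n : ℝ) ^ k)‖ ≤
          ∑ n ∈ Icc 1 N, if n ∈ Finset.range (n0 + 1) then M * (2 * (y * ((k + 1) * L))) else 0 := by
          refine Finset.sum_le_sum fun n hn => ?_
          by_cases hn1 : 1 ≤ α * (n : ℝ) ^ k
          · rw [Wc_eq b y hn1, sub_self, norm_zero]
            split_ifs <;> positivity
          · have hnn : n < n0 := by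
              by_contra hcon
              exact hn1 (hn0 n (by omega))
            have hx0 : 0 ≤ α * (n : ℝ) ^ k := by positivity
            rw [if_pos (Finset.mem_range.2 (by omega)), ← mul_sub, norm_mul]
            apply mul_le_mul (ha n) _ (norm_nonneg _) hM0
            refine (norm_sub_le _ _).trans ?_
            have b1 := Wc_le b hb y hx0
            have b2 := Ws_le b hb zero_le_one y hx0
            have b3 := hlog _ hx0 (by linarith)
            have b4 : (y : ℝ) * Real.log (α * (n : ℝ) ^ k + y + 3) ≤ y * ((k + 1) * L) :=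
              mul_le_mul_of_nonneg_left b3 (by positivity)
            linarith
      _ ≤ (2 * M * (n0 + 1) * (k + 1)) * (y * L) := by
          rw [← Finset.sum_filter, Finset.sum_const, nsmul_eq_mul]
          have h8 : ((Icc 1 N).filter fun n => n ∈ Finset.range (n0 + 1)).card ≤ n0 + 1 := by
            calc _ ≤ (Finset.range (n0 + 1)).card := by
                  apply Finset.card_le_card
                  intro n hn
                  exact (Finset.mem_filter.1 hn).2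
              _ = n0 + 1 := Finset.card_range _
          have h9 : (((Icc 1 N).filter fun n => n ∈ Finset.range (n0 + 1)).card : ℝ) ≤ n0 + 1 := by
            exact_mod_cast h8
          calc _ ≤ ((n0 : ℝ) + 1) * (M * (2 * (y * ((k + 1) * L)))) :=
                mul_le_mul_of_nonneg_right h9 (by positivity)
            _ = _ := by ring
  have e3 : ‖∑ n ∈ Icc 1 N, a n * Wc b y (α * (n : ℝ) ^ k)‖ ≤
      N * y / L ^ (K + 2) * (M + 1) + (2 * M * (n0 + 1) * (k + 1)) * (y * L) := by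
    have := norm_add_le (∑ n ∈ Icc 1 N, a n * Wc b y (α * (n : ℝ) ^ k) -
      ∑ n ∈ Icc 1 N, a n * Ws b 1 y (α * (n : ℝ) ^ k)) (∑ n ∈ Icc 1 N, a n * Ws b 1 y (α * (n : ℝ) ^ k))
    rw [sub_add_cancel] at this
    linarith
  have p0 : 0 ≤ N * (y : ℝ) / L ^ K := by positivity
  have t1 : N * y / L ^ (K + 2) * (M + 1) ≤ (1 / 2) * (N * y / L ^ K) := by
    have : N * y / L ^ (K + 2) * (M + 1) = (N * y / L ^ K) * ((M + 1) / L ^ 2) := by
      rw [pow_add]
      field_simp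
    rw [this]
    have h6 : (M + 1) / L ^ 2 ≤ 1 / 2 := by
      rw [div_le_div_iff₀ (by positivity) (by norm_num)]
      nlinarith
    calc (N * y / L ^ K) * ((M + 1) / L ^ 2) ≤ (N * y / L ^ K) * (1 / 2) :=
          mul_le_mul_of_nonneg_left h6 p0
      _ = _ := by ring
  have t2 : (2 * M * (n0 + 1) * (k + 1)) * (y * L) ≤ (1 / 2) * (N * y / L ^ K) := by
    rw [← mul_div_assoc, le_div_iff₀ (by positivity)]
    calc (2 * M * (n0 + 1) * (k + 1)) * (y * L) * L ^ K =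
          (1 / 2) * y * (2 * (2 * M * (n0 + 1) * (k + 1)) * L ^ (K + 1)) := by ring
      _ ≤ (1 / 2) * y * N := mul_le_mul_of_nonneg_left h3'' (by positivity)
      _ = _ := by ring
  linarith

end Pool.Agent.D0H91.MG
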