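import Mathlib
import Pool.Agent.D0H91.MG.Ico

/-! Prime values of `⌊α n ^ k⌋`: one and several dilations, arbitrary bounded weights. -/

set_option autoImplicit false

namespace Pool.Agent.D0H91.MG

open Finset MeasureTheory Filter Topology
open Pool.Agent.Y957.VK (Neg)
open Pool.Agent.W301.SS (om om_nonneg)

open Classical in
/-- indicator of the primes -/
noncomputable def ip (m : ℕ) : ℂ := if m.Prime then 1 else 0

/-- the density `1 / log x` for `x ≥ 2` -/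
noncomputable def gd (x : ℝ) : ℝ := if 2 ≤ x then 1 / Real.log x else 0

theorem log2_pos : (1 : ℝ) / 2 < Real.log 2 := by
  have := Real.log_two_gt_d9
  linarith

theorem gd_nonneg (x : ℝ) : 0 ≤ gd x := by
  unfold gd
  split_ifs with h
  · have := Real.log_nonneg (show (1 : ℝ) ≤ x by linarith)
    positivity
  · exact le_rfl

theorem gd_le (x : ℝ) : gd x ≤ 2 := by
  unfold gd
  split_ifs with h
  · have h1 : Real.log 2 ≤ Real.log x := Real.log_le_log (by norm_num) h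
    have h2 := log2_pos
    rw [div_le_iff₀ (by linarith)]
    linarith
  · norm_num

theorem gd_anti {x y : ℝ} (hx : 2 ≤ x) (hxy : x ≤ y) : gd y ≤ gd x := by
  unfold gd
  rw [if_pos hx, if_pos (hx.trans hxy)]
  have h1 : Real.log x ≤ Real.log y := Real.log_le_log (by linarith) hxy
  have h2 : 0 < Real.log x := Real.log_pos (by linarith)
  exact one_div_le_one_div_of_le h2 h1

theorem ip_le (m : ℕ) : ‖ip m‖ ≤ 1 := by
  unfold ip
  split_ifs <;> simp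

theorem gd_meas : Measurable gd := by
  unfold gd
  exact Measurable.ite (measurableSet_le measurable_const measurable_id)
    (measurable_const.div Real.measurable_log) measurable_const

/-- the indicator against the logarithmic weight -/
theorem ip_om {x : ℝ} (hx : 2 ≤ x) : ‖ip ⌊x⌋₊ - (gd x : ℂ) * (om ⌊x⌋₊ : ℂ)‖ ≤ 4 / x := by
  have h2 := log2_pos
  have hlx : Real.log 2 ≤ Real.log x := Real.log_le_log (by norm_num) hx
  have hl0 : 0 < Real.log x := by linarith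
  unfold ip om
  by_cases hp : (⌊x⌋₊).Prime
  · rw [if_pos hp, if_pos hp]
    unfold gd
    rw [if_pos hx]
    have h3 : (2 : ℝ) ≤ (⌊x⌋₊ : ℝ) := by exact_mod_cast hp.two_le
    have h4 : (⌊x⌋₊ : ℝ) ≤ x := Nat.floor_le (by linarith)
    have h5 : x < (⌊x⌋₊ : ℝ) + 1 := Nat.lt_floor_add_one x
    have e : (1 : ℂ) - ((1 / Real.log x : ℝ) : ℂ) * ((Real.log (⌊x⌋₊ : ℝ) : ℝ) : ℂ) =
        ((1 - 1 / Real.log x * Real.log (⌊x⌋₊ : ℝ) : ℝ) : ℂ) := by
      push_cast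
      ring
    rw [e, Complex.norm_real, Real.norm_eq_abs]
    have h6 : Real.log (⌊x⌋₊ : ℝ) ≤ Real.log x := Real.log_le_log (by linarith) h4
    have h7 : Real.log x - Real.log (⌊x⌋₊ : ℝ) ≤ 2 / x := by
      rw [← Real.log_div (by linarith) (by linarith)]
      have h8 := Real.log_le_sub_one_of_pos (show 0 < x / (⌊x⌋₊ : ℝ) by positivity)
      refine h8.trans ?_
      have e2 : x / (⌊x⌋₊ : ℝ) - 1 = (x - ⌊x⌋₊) / ⌊x⌋₊ := by field_simp
      rw [e2, div_le_div_iff₀ (by linarith) (by linarith)]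
      nlinarith
    have e3 : 1 - 1 / Real.log x * Real.log (⌊x⌋₊ : ℝ) =
        (Real.log x - Real.log (⌊x⌋₊ : ℝ)) / Real.log x := by
      field_simp
    rw [e3, abs_of_nonneg (div_nonneg (by linarith) hl0.le), div_le_iff₀ hl0]
    have h9 : (2 : ℝ) / x ≤ 4 / x * Real.log x := by
      rw [div_mul_eq_mul_div]
      apply div_le_div_of_nonneg_right _ (by linarith)
      linarith
    linarith
  · rw [if_neg hp, if_neg hp]
    simp only [Complex.ofReal_zero, mul_zero, sub_zero, norm_zero]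
    positivity

theorem Wc_one (b : ℕ → ℂ) (x : ℝ) : Wc b 1 x = b ⌊x⌋₊ := by
  unfold Wc
  have h3 : Ico ⌊x⌋₊ (⌊x⌋₊ + 1) = {⌊x⌋₊} := by
    ext m
    rw [Finset.mem_Ico, Finset.mem_singleton]
    omega
  rw [h3, Finset.sum_singleton]

theorem anti_sum (g : ℕ → ℂ) (gr : ℕ → ℝ) (h : ∀ n, g n = (gr n : ℂ)) (n0 X1 X2 : ℕ) (h0 : n0 ≤ X1) (h12 : X1 ≤ X2)
    (hanti : ∀ n : ℕ, n0 ≤ n → gr (n + 1) ≤ gr n) (G : ℝ) (hpos : ∀ n, 0 ≤ gr n) (hG : ∀ n, gr n ≤ G) :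
    ∑ m ∈ Ioc X1 X2, ‖g (m + 1) - g m‖ ≤ G := by
  have e : ∑ m ∈ Ioc X1 X2, ‖g (m + 1) - g m‖ = ∑ m ∈ Ioc X1 X2, (gr m - gr (m + 1)) := by
    refine Finset.sum_congr rfl fun m hm => ?_
    rw [Finset.mem_Ioc] at hm
    rw [h, h, ← Complex.ofReal_sub, Complex.norm_real, Real.norm_eq_abs, abs_sub_comm,
      abs_of_nonneg (by linarith [hanti m (by omega)])]
  rw [e]
  have e2 : ∀ Y : ℕ, X1 ≤ Y → ∑ m ∈ Ioc X1 Y, (gr m - gr (m + 1)) = gr (X1 + 1) - gr (Y + 1) := by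
    intro Y hY
    induction Y, hY using Nat.le_induction with
    | base => simp
    | succ Y hY ih =>
      rw [Finset.sum_Ioc_succ_top (by omega), ih]
      ring
  rw [e2 X2 h12]
  linarith [hpos (X2 + 1), hG (X1 + 1)]

/-- from the weights `log p` to the indicator of the primes -/
theorem prime_core (α k : ℝ) (hα0 : 0 < α) (hk : 0 < k) (a : ℕ → ℂ) (M : ℝ) (ha : ∀ n, ‖a n‖ ≤ M)
    (h : ∀ K : ℕ, ∀ᶠ N : ℕ in atTop, ‖∑ n ∈ Icc 1 N, a n * tb ⌊α * (n : ℝ) ^ k⌋₊‖ ≤ N / Real.log N ^ K) (K : ℕ) :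
    ∀ᶠ N : ℕ in atTop,
      ‖∑ n ∈ Icc 1 N, a n * (ip ⌊α * (n : ℝ) ^ k⌋₊ - (gd (α * (n : ℝ) ^ k) : ℂ))‖ ≤ N / Real.log N ^ K := by
  have hM0 : 0 ≤ M := (norm_nonneg _).trans (ha 0)
  -- the points
  obtain ⟨n0, hn0⟩ : ∃ n0 : ℕ, ∀ n : ℕ, n0 ≤ n → 2 ≤ α * (n : ℝ) ^ k := by
    have h1 : Tendsto (fun n : ℕ => α * (n : ℝ) ^ k) atTop atTop :=
      ((tendsto_rpow_atTop hk).comp tendsto_natCast_atTop_atTop).const_mul_atTop hα0
    exact (h1.eventually_ge_atTop 2).exists_forall_of_atTop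
  have hmono : ∀ n : ℕ, α * (n : ℝ) ^ k ≤ α * ((n + 1 : ℕ) : ℝ) ^ k := by
    intro n
    apply mul_le_mul_of_nonneg_left _ hα0.le
    apply Real.rpow_le_rpow (Nat.cast_nonneg _) (by push_cast; linarith) hk.le
  -- partial sums
  obtain ⟨n1, hn1⟩ := (h (K + 1)).exists_forall_of_atTop
  have hpart : ∀ x : ℕ, n1 + 1 ≤ x → ‖∑ n ∈ Icc 1 x, a n * tb ⌊α * (n : ℝ) ^ k⌋₊‖ ≤ x / Real.log x ^ (K + 1) :=
    fun x hx => hn1 x (by omega)
  have hsq : Tendsto (fun N : ℕ => (N : ℝ) ^ ((1 : ℝ) / 2)) atTop atTop :=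
    (tendsto_rpow_atTop (by norm_num)).comp tendsto_natCast_atTop_atTop
  filter_upwards [ev_logge (3 * M + 6 * 2 ^ (K + 1) + M), ev_logge 1,
    hsq.eventually_ge_atTop (max (n0 : ℝ) (n1 + 2) + 1),
    Pool.Agent.W301.SS.ev_log (K + 1) 2 (1 / 2) (by norm_num),
    Pool.Agent.W301.SS.ev_log (K + 1) (4 / α) (k / 2) (by positivity), eventually_ge_atTop 1] with
    N g1 g2 g3 g4 g5 g6
  have hN1 : (1 : ℝ) ≤ N := by exact_mod_cast g6
  have hN0 : (0 : ℝ) < N := by linarith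
  obtain ⟨L, hL⟩ : ∃ L, L = Real.log (N : ℝ) := ⟨_, rfl⟩
  simp only [← hL] at g1 g2 g4 g5 ⊢
  have hL0 : 0 < L := by linarith
  have hLp : 0 < L ^ (K + 1) := by positivity
  have hLp1 : 1 ≤ L ^ (K + 1) := one_le_pow₀ g2
  -- the cut
  obtain ⟨X1, hX1⟩ : ∃ X1 : ℕ, X1 = ⌊(N : ℝ) / L ^ (K + 1)⌋₊ := ⟨_, rfl⟩
  have hs2 : (N : ℝ) ^ ((1 : ℝ) / 2) * (N : ℝ) ^ ((1 : ℝ) / 2) = N := by
    rw [← Real.rpow_add hN0]
    norm_num
  obtain ⟨s, hs⟩ : ∃ s, s = (N : ℝ) ^ ((1 : ℝ) / 2) := ⟨_, rfl⟩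
  rw [← hs] at hs2 g3 g4
  have hs1 : 1 ≤ s := by
    rw [hs]
    exact Real.one_le_rpow hN1 (by norm_num)
  have hXle : (X1 : ℝ) ≤ N / L ^ (K + 1) := by
    rw [hX1]
    exact Nat.floor_le (by positivity)
  have hXge : s ≤ X1 := by
    have a1 : 2 * s ≤ N / L ^ (K + 1) := by
      rw [le_div_iff₀ hLp]
      nlinarith
    have a2 : (N : ℝ) / L ^ (K + 1) < X1 + 1 := by
      rw [hX1]
      exact Nat.lt_floor_add_one _
    linarith
  have hXN : X1 ≤ N := by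
    have a1 : (X1 : ℝ) ≤ N := hXle.trans (div_le_self hN0.le hLp1)
    exact_mod_cast a1
  have hXn0 : n0 ≤ X1 := by
    have a1 : (n0 : ℝ) ≤ X1 := by
      have := le_max_left (n0 : ℝ) (n1 + 2)
      linarith
    exact_mod_cast a1
  have hXn1 : n1 + 2 ≤ X1 := by
    have a1 : ((n1 + 2 : ℕ) : ℝ) ≤ X1 := by
      have := le_max_right (n0 : ℝ) (n1 + 2)
      push_cast
      linarith
    exact_mod_cast a1
  have hX0 : (0 : ℝ) < X1 := by linarith
  have hlogX : L / 2 ≤ Real.log X1 := by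
    have a1 := Real.log_le_log (by linarith) hXge
    rw [hs, Real.log_rpow hN0, ← hL] at a1
    linarith
  -- decomposition
  have e1 : ∑ n ∈ Icc 1 N, a n * (ip ⌊α * (n : ℝ) ^ k⌋₊ - (gd (α * (n : ℝ) ^ k) : ℂ)) =
      ∑ n ∈ Icc 1 X1, a n * (ip ⌊α * (n : ℝ) ^ k⌋₊ - (gd (α * (n : ℝ) ^ k) : ℂ)) +
      (∑ n ∈ Ioc X1 N, (a n * tb ⌊α * (n : ℝ) ^ k⌋₊) * (gd (α * (n : ℝ) ^ k) : ℂ) +
      ∑ n ∈ Ioc X1 N, a n * (ip ⌊α * (n : ℝ) ^ k⌋₊ - (gd (α * (n : ℝ) ^ k) : ℂ) * (om ⌊α * (n : ℝ) ^ k⌋₊ : ℂ))) := by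
    rw [← Finset.sum_add_distrib]
    have e2 : Icc 1 N = Icc 1 X1 ∪ Ioc X1 N := by
      ext m
      rw [Finset.mem_union, Finset.mem_Icc, Finset.mem_Icc, Finset.mem_Ioc]
      omega
    rw [e2, Finset.sum_union (by
      rw [Finset.disjoint_left]
      intro m h1 h2
      rw [Finset.mem_Icc] at h1
      rw [Finset.mem_Ioc] at h2
      omega)]
    congr 1
    refine Finset.sum_congr rfl fun n _ => ?_
    unfold tb
    push_cast
    ring
  rw [e1]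
  -- first part
  have p1 : ‖∑ n ∈ Icc 1 X1, a n * (ip ⌊α * (n : ℝ) ^ k⌋₊ - (gd (α * (n : ℝ) ^ k) : ℂ))‖ ≤ (3 * M) * (N / L ^ (K + 1)) := by
    refine (norm_sum_le _ _).trans ?_
    calc ∑ n ∈ Icc 1 X1, ‖a n * (ip ⌊α * (n : ℝ) ^ k⌋₊ - (gd (α * (n : ℝ) ^ k) : ℂ))‖ ≤
          ∑ n ∈ Icc 1 X1, (3 * M) := by
          refine Finset.sum_le_sum fun n _ => ?_
          rw [norm_mul]
          have b1 : ‖ip ⌊α * (n : ℝ) ^ k⌋₊ - (gd (α * (n : ℝ) ^ k) : ℂ)‖ ≤ 3 := by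
            refine (norm_sub_le _ _).trans ?_
            have b2 := ip_le ⌊α * (n : ℝ) ^ k⌋₊
            have b3 : ‖(gd (α * (n : ℝ) ^ k) : ℂ)‖ ≤ 2 := by
              rw [Complex.norm_real, Real.norm_eq_abs, abs_of_nonneg (gd_nonneg _)]
              exact gd_le _
            linarith
          calc ‖a n‖ * ‖ip ⌊α * (n : ℝ) ^ k⌋₊ - (gd (α * (n : ℝ) ^ k) : ℂ)‖ ≤ M * 3 :=
                mul_le_mul (ha n) b1 (norm_nonneg _) hM0
            _ = 3 * M := mul_comm _ _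
      _ = X1 * (3 * M) := by
          rw [Finset.sum_const, Nat.card_Icc, Nat.add_sub_cancel, nsmul_eq_mul]
      _ ≤ (3 * M) * (N / L ^ (K + 1)) := by
          rw [mul_comm]
          exact mul_le_mul_of_nonneg_left hXle (by positivity)
  -- second part
  have p2 : ‖∑ n ∈ Ioc X1 N, (a n * tb ⌊α * (n : ℝ) ^ k⌋₊) * (gd (α * (n : ℝ) ^ k) : ℂ)‖ ≤
      (6 * 2 ^ (K + 1)) * (N / L ^ (K + 1)) := by
    have q1 : ∀ x : ℕ, X1 ≤ x → x ≤ N → ‖∑ m ∈ Icc 1 x, a m * tb ⌊α * (m : ℝ) ^ k⌋₊‖ ≤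
        2 ^ (K + 1) * (N / L ^ (K + 1)) := by
      intro x hx1 hx2
      refine (hpart x (by omega)).trans ?_
      have r1 : L / 2 ≤ Real.log x := hlogX.trans (Real.log_le_log hX0 (by exact_mod_cast hx1))
      have r2 : (L / 2) ^ (K + 1) ≤ Real.log x ^ (K + 1) := pow_le_pow_left₀ (by positivity) r1 _
      calc (x : ℝ) / Real.log x ^ (K + 1) ≤ N / (L / 2) ^ (K + 1) := by
            apply div_le_div₀ hN0.le (by exact_mod_cast hx2) (by positivity) r2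
        _ = 2 ^ (K + 1) * (N / L ^ (K + 1)) := by
            rw [div_pow]
            field_simp
    have q2 := anti_sum (fun n : ℕ => (gd (α * (n : ℝ) ^ k) : ℂ)) (fun n : ℕ => gd (α * (n : ℝ) ^ k))
      (fun _ => rfl) n0 X1 N hXn0 hXN (fun n hn => gd_anti (hn0 n hn) (hmono n)) 2 (fun _ => gd_nonneg _)
      (fun _ => gd_le _)
    have q3 := abel_le (fun n : ℕ => a n * tb ⌊α * (n : ℝ) ^ k⌋₊)
      (fun n : ℕ => (gd (α * (n : ℝ) ^ k) : ℂ)) X1 N hXN (2 ^ (K + 1) * (N / L ^ (K + 1))) 2 2 q1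
      (fun m _ => by
        rw [Complex.norm_real, Real.norm_eq_abs, abs_of_nonneg (gd_nonneg _)]
        exact gd_le _) q2
    refine q3.trans (le_of_eq ?_)
    ring
  -- third part
  have p3 : ‖∑ n ∈ Ioc X1 N, a n * (ip ⌊α * (n : ℝ) ^ k⌋₊ - (gd (α * (n : ℝ) ^ k) : ℂ) *
      (om ⌊α * (n : ℝ) ^ k⌋₊ : ℂ))‖ ≤ M * (N / L ^ (K + 1)) := by
    refine (norm_sum_le _ _).trans ?_
    have r1 : ∀ n ∈ Ioc X1 N, ‖a n * (ip ⌊α * (n : ℝ) ^ k⌋₊ - (gd (α * (n : ℝ) ^ k) : ℂ) *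
        (om ⌊α * (n : ℝ) ^ k⌋₊ : ℂ))‖ ≤ M * (1 / L ^ (K + 1)) := by
      intro n hn
      rw [Finset.mem_Ioc] at hn
      rw [norm_mul]
      apply mul_le_mul (ha n) _ (norm_nonneg _) hM0
      refine (ip_om (hn0 n (by omega))).trans ?_
      have b1 : s ≤ n := hXge.trans (by exact_mod_cast hn.1.le)
      have b2 : (N : ℝ) ^ (k / 2) ≤ (n : ℝ) ^ k := by
        have : (N : ℝ) ^ (k / 2) = s ^ k := by
          rw [hs, ← Real.rpow_mul hN0.le]
          congr 1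
          ring
        rw [this]
        exact Real.rpow_le_rpow (by linarith) b1 hk.le
      have b3 : 4 / α * L ^ (K + 1) ≤ (n : ℝ) ^ k := g5.trans b2
      rw [div_le_div_iff₀ (by
        have := hn0 n (by omega)
        linarith) hLp]
      have b4 : α * (4 / α * L ^ (K + 1)) ≤ α * (n : ℝ) ^ k := mul_le_mul_of_nonneg_left b3 hα0.le
      have b5 : α * (4 / α * L ^ (K + 1)) = 4 * L ^ (K + 1) := by field_simp
      linarith
    calc ∑ n ∈ Ioc X1 N, _ ≤ ∑ n ∈ Ioc X1 N, M * (1 / L ^ (K + 1)) := Finset.sum_le_sum r1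
      _ = ((N - X1 : ℕ) : ℝ) * (M * (1 / L ^ (K + 1))) := by
          rw [Finset.sum_const, Nat.card_Ioc, nsmul_eq_mul]
      _ ≤ N * (M * (1 / L ^ (K + 1))) := by
          apply mul_le_mul_of_nonneg_right _ (by positivity)
          exact_mod_cast Nat.sub_le _ _
      _ = _ := by ring
  have hfin : (3 * M + 6 * 2 ^ (K + 1) + M) * (N / L ^ (K + 1)) ≤ N / L ^ K := by
    have c1 : N / L ^ K = L * (N / L ^ (K + 1)) := by
      rw [pow_succ]
      field_simp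
    rw [c1]
    exact mul_le_mul_of_nonneg_right g1 (by positivity)
  calc ‖_ + (_ + _)‖ ≤ (3 * M) * (N / L ^ (K + 1)) + ((6 * 2 ^ (K + 1)) * (N / L ^ (K + 1)) + M * (N / L ^ (K + 1))) :=
        (norm_add_le _ _).trans (add_le_add p1 ((norm_add_le _ _).trans (add_le_add p2 p3)))
    _ = (3 * M + 6 * 2 ^ (K + 1) + M) * (N / L ^ (K + 1)) := by ring
    _ ≤ _ := hfin

/-- **one dilation** -/
theorem prime_one (k : ℝ) (hk : 0 < k) (a : ℕ → ℂ) (M : ℝ) (ha : ∀ n, ‖a n‖ ≤ M) :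
    ∀ᵐ α : ℝ, 0 < α → ∀ K : ℕ, ∀ᶠ N : ℕ in atTop,
      ‖∑ n ∈ Icc 1 N, a n * (ip ⌊α * (n : ℝ) ^ k⌋₊ - (gd (α * (n : ℝ) ^ k) : ℂ))‖ ≤ N / Real.log N ^ K := by
  filter_upwards [engineIco tb tb_le tb_neg k hk a M ha] with α hα hα0
  refine prime_core α k hα0 hk a M ha fun K => ?_
  filter_upwards [hα hα0 K (1 / 2) (by norm_num), eventually_ge_atTop 1] with x hx hx1
  have h2 := hx 1 le_rfl (by
    rw [Nat.cast_one]
    apply Real.one_le_rpow (by exact_mod_cast hx1)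
    nlinarith)
  simp only [Wc_one, Nat.cast_one, mul_one] at h2
  exact h2

/-- a sequence of density at least a power of `1 / log` in place of the integers -/
theorem prime_seq (k : ℝ) (hk : 0 < k) (f : ℕ → ℕ) (hf : StrictMono f) (C : ℕ)
    (hfC : ∀ᶠ n : ℕ in atTop, (f n : ℝ) ≤ n * Real.log n ^ C) (a : ℕ → ℂ) (M : ℝ) (ha : ∀ n, ‖a n‖ ≤ M) :
    ∀ᵐ α : ℝ, 0 < α → ∀ K : ℕ, ∀ᶠ N : ℕ in atTop,
      ‖∑ n ∈ Icc 1 N, a n * (ip ⌊α * (f n : ℝ) ^ k⌋₊ - (gd (α * (f n : ℝ) ^ k) : ℂ))‖ ≤ N / Real.log N ^ K := by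
  have hM0 : 0 ≤ M := (norm_nonneg _).trans (ha 0)
  classical
  obtain ⟨a', ha'⟩ : ∃ a' : ℕ → ℂ, ∀ m, a' m = ∑ n ∈ (Icc 1 m).filter (fun n => f n = m), a n := ⟨_, fun _ => rfl⟩
  have hcard : ∀ m, ((Icc 1 m).filter (fun n => f n = m)).card ≤ 1 := by
    intro m
    rw [Finset.card_le_one]
    intro x hx y hy
    rw [Finset.mem_filter] at hx hy
    exact hf.injective (hx.2.trans hy.2.symm)
  have hbd : ∀ m, ‖a' m‖ ≤ M := by
    intro m
    rw [ha']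
    refine (norm_sum_le _ _).trans ((Finset.sum_le_sum fun n _ => ha n).trans ?_)
    rw [Finset.sum_const, nsmul_eq_mul]
    have h1 : (((Icc 1 m).filter (fun n => f n = m)).card : ℝ) ≤ 1 := by exact_mod_cast hcard m
    nlinarith
  have hfn : ∀ n, n ≤ f n := fun n => hf.le_apply
  have hid : ∀ (G : ℕ → ℂ) (N : ℕ), 1 ≤ N → ∑ m ∈ Icc 1 (f N), a' m * G m = ∑ n ∈ Icc 1 N, a n * G (f n) := by
    intro G N hN
    have e1 : ∀ m ∈ Icc 1 (f N), a' m * G m = ∑ n ∈ (Icc 1 N).filter (fun n => f n = m), a n * G (f n) := by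
      intro m hm
      rw [Finset.mem_Icc] at hm
      rw [ha', Finset.sum_mul]
      have e2 : (Icc 1 m).filter (fun n => f n = m) = (Icc 1 N).filter (fun n => f n = m) := by
        ext n
        rw [Finset.mem_filter, Finset.mem_filter, Finset.mem_Icc, Finset.mem_Icc]
        constructor
        · rintro ⟨h1, h2⟩
          refine ⟨⟨h1.1, ?_⟩, h2⟩
          rw [← hf.le_iff_le, h2]
          exact hm.2
        · rintro ⟨h1, h2⟩
          refine ⟨⟨h1.1, ?_⟩, h2⟩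
          rw [← h2]
          exact hfn n
      rw [e2]
      refine Finset.sum_congr rfl fun n hn => ?_
      rw [(Finset.mem_filter.1 hn).2]
    rw [Finset.sum_congr rfl e1]
    refine Finset.sum_fiberwise_of_maps_to (fun n hn => ?_) _
    rw [Finset.mem_Icc] at hn ⊢
    exact ⟨hn.1.trans (hfn n), hf.monotone hn.2⟩
  filter_upwards [prime_one k hk a' M hbd] with α hα hα0 K
  have h1 := hf.tendsto_atTop.eventually (hα hα0 (K + C))
  filter_upwards [h1, hfC, ev_logge 1, eventually_ge_atTop 1] with N h2 h3 h4 h5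
  rw [hid (fun m => ip ⌊α * (m : ℝ) ^ k⌋₊ - (gd (α * (m : ℝ) ^ k) : ℂ)) N h5] at h2
  refine h2.trans ?_
  have hN0 : (0 : ℝ) < N := by exact_mod_cast (show 0 < N by omega)
  have hL0 : 0 < Real.log (N : ℝ) := by linarith
  have h6 : Real.log N ≤ Real.log (f N) := Real.log_le_log hN0 (by exact_mod_cast hfn N)
  calc (f N : ℝ) / Real.log (f N) ^ (K + C) ≤ (N * Real.log N ^ C) / Real.log N ^ (K + C) := by
        apply div_le_div₀ (by positivity) h3 (by positivity) (pow_le_pow_left₀ hL0.le h6 _)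
    _ = N / Real.log N ^ K := by
        rw [pow_add]
        field_simp

/-- the sum of `ip` -/
theorem ip_sum (K : ℕ) : ∀ᶠ N : ℕ in atTop,
    ‖∑ n ∈ Icc 1 N, (ip n - (gd n : ℂ))‖ ≤ N / Real.log N ^ K := by
  have h := prime_core 1 1 one_pos one_pos (fun _ => 1) 1 (fun _ => by simp) (fun K => ?_) K
  · simpa using h
  · simp only [Real.rpow_one, one_mul, Nat.floor_natCast]
    obtain ⟨C, hC⟩ := tb_neg 0 (K + 1)
    filter_upwards [ev_logge 1, ev_logge C, eventually_ge_atTop 2] with N h1 h2 h3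
    have h4 := hC N 0 h3 (by simp)
    have e : ∑ n ∈ Icc 1 N, tb n * Pool.Agent.H376R2.MR.er 0 (Real.log n) = ∑ n ∈ Icc 1 N, tb n := by
      refine Finset.sum_congr rfl fun n _ => ?_
      unfold Pool.Agent.H376R2.MR.er
      simp
    rw [e] at h4
    refine h4.trans ?_
    have hL0 : 0 < Real.log (N : ℝ) := by linarith
    rw [div_le_div_iff₀ (by positivity) (by positivity), pow_succ]
    have h5 : 0 ≤ (N : ℝ) * Real.log N ^ K := by positivity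
    nlinarith

end Pool.Agent.D0H91.MG
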