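import Mathlib
import Pool.Agent.D0H91.MG.Tup

/-! Several dilations at the same time. -/

set_option autoImplicit false

namespace Pool.Agent.D0H91.MG

open Finset MeasureTheory Filter Topology

/-- a family of functions is small at almost every point: the exceptional set is measurable -/
theorem small_meas {r : ℕ} (F : ℕ → (Fin r → ℝ) → ℂ) (hF : ∀ N, Measurable (F N)) :
    MeasurableSet {α : Fin r → ℝ | (∀ i, 0 < α i) → ∀ K : ℕ, ∀ᶠ N : ℕ in atTop,
      ‖F N α‖ ≤ N / Real.log N ^ K} := by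
  have e : {α : Fin r → ℝ | (∀ i, 0 < α i) → ∀ K : ℕ, ∀ᶠ N : ℕ in atTop,
      ‖F N α‖ ≤ N / Real.log N ^ K} =
      (⋂ i, {α : Fin r → ℝ | 0 < α i})ᶜ ∪ ⋂ K : ℕ, ⋃ N0 : ℕ, ⋂ N : ℕ, ⋂ (_ : N0 ≤ N),
        {α : Fin r → ℝ | ‖F N α‖ ≤ N / Real.log N ^ K} := by
    ext α
    rw [Set.mem_union, Set.mem_compl_iff, Set.mem_iInter]
    simp only [Set.mem_iInter, Set.mem_iUnion]
    rw [Set.mem_setOf_eq, imp_iff_not_or]
    apply or_congr Iff.rfl
    apply forall_congr'
    intro K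
    exact eventually_atTop
  rw [e]
  refine MeasurableSet.union (MeasurableSet.compl (MeasurableSet.iInter fun i => pos_meas i))
    (MeasurableSet.iInter fun K => MeasurableSet.iUnion fun N0 =>
      MeasurableSet.iInter fun N => MeasurableSet.iInter fun _ => ?_)
  exact measurableSet_le (hF N).norm measurable_const

theorem gd_factor {r : ℕ} (i : Fin r) (c : ℝ) : Measurable (fun α : Fin r → ℝ => (gd (α i * c) : ℂ)) := by
  have h3 : Measurable (fun α : Fin r → ℝ => α i * c) := (coord_meas i).mul measurable_const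
  exact Complex.measurable_ofReal.comp (gd_meas.comp h3)

/-- the difference between the indicator of simultaneous primes and the density -/
noncomputable def Dt {r : ℕ} (k : Fin r → ℝ) (f : Fin r → ℕ → ℕ) (α : Fin r → ℝ) (n : ℕ) : ℂ :=
  ∏ i, ip ⌊α i * (f i n : ℝ) ^ (k i)⌋₊ - ∏ i, (gd (α i * (f i n : ℝ) ^ (k i)) : ℂ)

theorem Dt_succ {r : ℕ} (k : Fin (r + 1) → ℝ) (f : Fin (r + 1) → ℕ → ℕ) (α : Fin (r + 1) → ℝ) (n : ℕ) :
    Dt k f α n = (∏ i : Fin r, ip ⌊α i.succ * (f i.succ n : ℝ) ^ (k i.succ)⌋₊) *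
      (ip ⌊α 0 * (f 0 n : ℝ) ^ (k 0)⌋₊ - (gd (α 0 * (f 0 n : ℝ) ^ (k 0)) : ℂ)) +
      (gd (α 0 * (f 0 n : ℝ) ^ (k 0)) : ℂ) * Dt (fun i => k i.succ) (fun i => f i.succ) (fun i => α i.succ) n := by
  unfold Dt
  rw [Fin.prod_univ_succ, Fin.prod_univ_succ]
  ring

theorem prime_several (C : ℕ) (r : ℕ) : ∀ (k : Fin r → ℝ), (∀ i, 0 < k i) → ∀ (f : Fin r → ℕ → ℕ),
    (∀ i, StrictMono (f i)) → (∀ i, ∀ᶠ n : ℕ in atTop, (f i n : ℝ) ≤ n * Real.log n ^ C) →
    ∀ (a : ℕ → ℂ) (M : ℝ), (∀ n, ‖a n‖ ≤ M) →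
    ∀ᵐ α : Fin r → ℝ, (∀ i, 0 < α i) → ∀ K : ℕ, ∀ᶠ N : ℕ in atTop,
      ‖∑ n ∈ Icc 1 N, a n * Dt k f α n‖ ≤ N / Real.log N ^ K := by
  induction r with
  | zero =>
    intro k _ f _ _ a M _
    refine Eventually.of_forall fun α _ K => Eventually.of_forall fun N => ?_
    have e : ∑ n ∈ Icc 1 N, a n * Dt k f α n = 0 := by
      apply Finset.sum_eq_zero
      intro n _
      unfold Dt
      simp
    rw [e, norm_zero]
    have := Real.log_natCast_nonneg N
    positivity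
  | succ r ih =>
    intro k hk f hf hfC a M ha
    have hM0 : 0 ≤ M := (norm_nonneg _).trans (ha 0)
    have A1 : ∀ᵐ α : Fin (r + 1) → ℝ, (∀ i, 0 < α i) → ∀ K : ℕ, ∀ᶠ N : ℕ in atTop,
        ‖∑ n ∈ Icc 1 N, a n * ((∏ i : Fin r, ip ⌊α i.succ * (f i.succ n : ℝ) ^ (k i.succ)⌋₊) *
          (ip ⌊α 0 * (f 0 n : ℝ) ^ (k 0)⌋₊ - (gd (α 0 * (f 0 n : ℝ) ^ (k 0)) : ℂ)))‖ ≤ N / Real.log N ^ K := by
      refine fubini_ae (P := fun α => (∀ i, 0 < α i) → ∀ K : ℕ, ∀ᶠ N : ℕ in atTop,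
        ‖∑ n ∈ Icc 1 N, a n * ((∏ i : Fin r, ip ⌊α i.succ * (f i.succ n : ℝ) ^ (k i.succ)⌋₊) *
          (ip ⌊α 0 * (f 0 n : ℝ) ^ (k 0)⌋₊ - (gd (α 0 * (f 0 n : ℝ) ^ (k 0)) : ℂ)))‖ ≤ N / Real.log N ^ K)
        (small_meas (fun N α => ∑ n ∈ Icc 1 N, a n * ((∏ i : Fin r, ip ⌊α i.succ * (f i.succ n : ℝ) ^ (k i.succ)⌋₊) *
          (ip ⌊α 0 * (f 0 n : ℝ) ^ (k 0)⌋₊ - (gd (α 0 * (f 0 n : ℝ) ^ (k 0)) : ℂ)))) fun N => ?_) ?_
      · refine Finset.measurable_fun_sum _ fun n _ => measurable_const.mul (Measurable.mul ?_ ?_)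
        · exact Finset.measurable_fun_prod _ fun i _ => meas_factor ip i.succ _
        · exact (meas_factor ip 0 _).sub (gd_factor 0 _)
      · refine Eventually.of_forall fun β => ?_
        have h1 := prime_seq (k 0) (hk 0) (f 0) (hf 0) C (hfC 0) (fun n => a n * ∏ i : Fin r, ip ⌊β i * (f i.succ n : ℝ) ^ (k i.succ)⌋₊) M
          (fun n => by
            rw [norm_mul, norm_prod]
            calc ‖a n‖ * ∏ i : Fin r, ‖ip ⌊β i * (f i.succ n : ℝ) ^ (k i.succ)⌋₊‖ ≤ M * 1 := by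
                  apply mul_le_mul (ha n) _ (Finset.prod_nonneg fun _ _ => norm_nonneg _) hM0
                  exact Finset.prod_le_one (fun _ _ => norm_nonneg _) fun _ _ => ip_le _
              _ = M := mul_one M)
        filter_upwards [h1] with t ht hpos K
        have h2 := ht (by simpa using hpos 0) K
        filter_upwards [h2] with N h3
        refine le_trans (le_of_eq ?_) h3
        congr 1
        refine Finset.sum_congr rfl fun n _ => ?_
        simp only [Fin.cons_zero, Fin.cons_succ]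
        ring
    have A2 : ∀ᵐ α : Fin (r + 1) → ℝ, (∀ i, 0 < α i) → ∀ K : ℕ, ∀ᶠ N : ℕ in atTop,
        ‖∑ n ∈ Icc 1 N, a n * ((gd (α 0 * (f 0 n : ℝ) ^ (k 0)) : ℂ) *
          Dt (fun i => k i.succ) (fun i => f i.succ) (fun i => α i.succ) n)‖ ≤ N / Real.log N ^ K := by
      refine fubini_ae' (P := fun α => (∀ i, 0 < α i) → ∀ K : ℕ, ∀ᶠ N : ℕ in atTop,
        ‖∑ n ∈ Icc 1 N, a n * ((gd (α 0 * (f 0 n : ℝ) ^ (k 0)) : ℂ) *
          Dt (fun i => k i.succ) (fun i => f i.succ) (fun i => α i.succ) n)‖ ≤ N / Real.log N ^ K)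
        (small_meas (fun N α => ∑ n ∈ Icc 1 N, a n * ((gd (α 0 * (f 0 n : ℝ) ^ (k 0)) : ℂ) *
          Dt (fun i => k i.succ) (fun i => f i.succ) (fun i => α i.succ) n)) fun N => ?_) ?_
      · refine Finset.measurable_fun_sum _ fun n _ => measurable_const.mul (Measurable.mul ?_ ?_)
        · exact gd_factor 0 _
        · unfold Dt
          apply Measurable.sub
          · exact Finset.measurable_fun_prod _ fun i _ => meas_factor ip i.succ _
          · exact Finset.measurable_fun_prod _ fun i _ => gd_factor i.succ _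
      · refine Eventually.of_forall fun t => ?_
        have h1 := ih (fun i => k i.succ) (fun i => hk i.succ) (fun i => f i.succ) (fun i => hf i.succ)
          (fun i => hfC i.succ) (fun n => a n * (gd (t * (f 0 n : ℝ) ^ (k 0)) : ℂ))
          (M * 2) (fun n => by
            rw [norm_mul]
            apply mul_le_mul (ha n) _ (norm_nonneg _) hM0
            rw [Complex.norm_real, Real.norm_eq_abs, abs_of_nonneg (gd_nonneg _)]
            exact gd_le _)
        filter_upwards [h1] with β hβ hpos K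
        have h2 := hβ (fun i => by simpa using hpos i.succ) K
        filter_upwards [h2] with N h3
        refine le_trans (le_of_eq ?_) h3
        congr 1
        refine Finset.sum_congr rfl fun n _ => ?_
        simp only [Fin.cons_zero, Fin.cons_succ]
        ring
    filter_upwards [A1, A2] with α h1 h2 hpos K
    filter_upwards [h1 hpos (K + 1), h2 hpos (K + 1), ev_logge 2] with N h3 h4 h5
    have e : ∑ n ∈ Icc 1 N, a n * Dt k f α n =
        ∑ n ∈ Icc 1 N, a n * ((∏ i : Fin r, ip ⌊α i.succ * (f i.succ n : ℝ) ^ (k i.succ)⌋₊) *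
          (ip ⌊α 0 * (f 0 n : ℝ) ^ (k 0)⌋₊ - (gd (α 0 * (f 0 n : ℝ) ^ (k 0)) : ℂ))) +
        ∑ n ∈ Icc 1 N, a n * ((gd (α 0 * (f 0 n : ℝ) ^ (k 0)) : ℂ) *
          Dt (fun i => k i.succ) (fun i => f i.succ) (fun i => α i.succ) n) := by
      rw [← Finset.sum_add_distrib]
      refine Finset.sum_congr rfl fun n _ => ?_
      rw [Dt_succ]
      ring
    rw [e]
    refine (norm_add_le _ _).trans ((add_le_add h3 h4).trans ?_)
    have hL0 : 0 < Real.log (N : ℝ) := by linarith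
    have c1 : (N : ℝ) / Real.log N ^ K = Real.log N * (N / Real.log N ^ (K + 1)) := by
      rw [pow_succ]
      field_simp
    rw [c1]
    have c2 : 0 ≤ (N : ℝ) / Real.log N ^ (K + 1) := by positivity
    nlinarith

end Pool.Agent.D0H91.MG
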