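import Mathlib
import Pool.Agent.D0H91.MG.TupR

/-! Asymptotic counts of simultaneous primes. -/

set_option autoImplicit false

namespace Pool.Agent.D0H91.MG

open Finset MeasureTheory Filter Topology

/-- the expected density -/
noncomputable def dens {r : ℕ} (k : Fin r → ℝ) (f : Fin r → ℕ → ℕ) (α : Fin r → ℝ) (n : ℕ) : ℝ :=
  ∏ i, gd (α i * (f i n : ℝ) ^ (k i))

theorem dens_nonneg {r : ℕ} (k : Fin r → ℝ) (f : Fin r → ℕ → ℕ) (α : Fin r → ℝ) (n : ℕ) :
    0 ≤ dens k f α n := Finset.prod_nonneg fun _ _ => gd_nonneg _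

theorem dens_le {r : ℕ} (k : Fin r → ℝ) (f : Fin r → ℕ → ℕ) (α : Fin r → ℝ) (n : ℕ) :
    dens k f α n ≤ 2 ^ r := by
  unfold dens
  calc ∏ i, gd (α i * (f i n : ℝ) ^ (k i)) ≤ ∏ _i : Fin r, (2 : ℝ) :=
        Finset.prod_le_prod (fun _ _ => gd_nonneg _) fun _ _ => gd_le _
    _ = 2 ^ r := by simp

/-- `log log N` is small against `log N` -/
theorem ev_loglog (c d : ℝ) (hd : 0 < d) : ∀ᶠ N : ℕ in atTop,
    c + c * Real.log (Real.log N) ≤ d * Real.log N := by
  have h0 : Tendsto (fun N : ℕ => Real.log (N : ℝ)) atTop atTop :=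
    Real.tendsto_log_atTop.comp tendsto_natCast_atTop_atTop
  have h1 : Tendsto (fun x : ℝ => Real.log x / x) atTop (𝓝 0) := by
    have := (Real.isLittleO_pow_log_id_atTop (n := 1)).tendsto_div_nhds_zero
    simpa using this
  have h2 := h1.comp h0
  have hc : 0 < d / (2 * (|c| + 1)) := by positivity
  filter_upwards [h2.eventually (Iio_mem_nhds hc), ev_logge 1, ev_logge (2 * |c| / d)] with N h3 h4 h5
  have hL0 : 0 < Real.log (N : ℝ) := by linarith
  have h3' : Real.log (Real.log N) / Real.log N < d / (2 * (|c| + 1)) := h3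
  rw [div_lt_div_iff₀ hL0 (by positivity)] at h3'
  have h6 : 0 ≤ Real.log (Real.log N) := Real.log_nonneg h4
  have h7 : c ≤ |c| := le_abs_self c
  rw [div_le_iff₀ hd] at h5
  have h8 : c * Real.log (Real.log N) ≤ |c| * Real.log (Real.log N) := mul_le_mul_of_nonneg_right h7 h6
  nlinarith

/-- one factor -/
theorem factor_asym (k : ℝ) (hk : 0 < k) (f : ℕ → ℕ) (hf : StrictMono f) (C : ℕ)
    (hfC : ∀ᶠ n : ℕ in atTop, (f n : ℝ) ≤ n * Real.log n ^ C) (α : ℝ) (hα : 0 < α) (B : ℕ) (δ : ℝ)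
    (hδ : 0 < δ) : ∀ᶠ N : ℕ in atTop, ∀ n : ℕ, n ≤ N → (N : ℝ) ≤ n * Real.log N ^ B →
      |k * Real.log N * gd (α * (f n : ℝ) ^ k) - 1| ≤ δ := by
  obtain ⟨n2, hn2⟩ := hfC.exists_forall_of_atTop
  obtain ⟨η, hη⟩ : ∃ η, η = min (δ / 2) (1 / 2) := ⟨_, rfl⟩
  have hη0 : 0 < η := by
    rw [hη]
    positivity
  have hηδ : η ≤ δ / 2 := by
    rw [hη]
    exact min_le_left _ _
  have hη1 : η ≤ 1 / 2 := by
    rw [hη]
    exact min_le_right _ _
  have hsq : Tendsto (fun N : ℕ => (N : ℝ) ^ ((1 : ℝ) / 2)) atTop atTop :=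
    (tendsto_rpow_atTop (by norm_num)).comp tendsto_natCast_atTop_atTop
  filter_upwards [ev_logge 1, ev_logge (2 / k), eventually_ge_atTop 1,
    hsq.eventually_ge_atTop (n2 + 1 : ℝ), Pool.Agent.W301.SS.ev_log B 1 (1 / 2) (by norm_num),
    ev_loglog (|Real.log α| + (B + C) * k) (η * k) (by positivity)] with N g1 g2 g3 g4 g5 g6 n hnN hn
  have hN1 : (1 : ℝ) ≤ N := by exact_mod_cast g3
  have hN0 : (0 : ℝ) < N := by linarith
  obtain ⟨L, hL⟩ : ∃ L, L = Real.log (N : ℝ) := ⟨_, rfl⟩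
  simp only [← hL] at g1 g2 g5 g6 hn ⊢
  have hL0 : 0 < L := by linarith
  have hLB : 0 < L ^ B := by positivity
  have hsn : (N : ℝ) ^ ((1 : ℝ) / 2) ≤ n := by
    have hs2 : (N : ℝ) ^ ((1 : ℝ) / 2) * (N : ℝ) ^ ((1 : ℝ) / 2) = N := by
      rw [← Real.rpow_add hN0]
      norm_num
    have hs0 : 0 < (N : ℝ) ^ ((1 : ℝ) / 2) := by positivity
    rw [one_mul] at g5
    have hn0 : (0 : ℝ) ≤ n := Nat.cast_nonneg n
    by_contra hcon
    push Not at hcon
    have h1 : (n : ℝ) * L ^ B ≤ n * (N : ℝ) ^ ((1 : ℝ) / 2) := mul_le_mul_of_nonneg_left g5 hn0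
    have h2 : (n : ℝ) * (N : ℝ) ^ ((1 : ℝ) / 2) < (N : ℝ) ^ ((1 : ℝ) / 2) * (N : ℝ) ^ ((1 : ℝ) / 2) :=
      mul_lt_mul_of_pos_right hcon hs0
    linarith
  have hnn2 : n2 ≤ n := by
    have : (n2 : ℝ) ≤ n := by linarith
    exact_mod_cast this
  have hn0 : (0 : ℝ) < n := by linarith
  have hfn : (n : ℝ) ≤ f n := by exact_mod_cast hf.le_apply
  have hfn0 : (0 : ℝ) < f n := by linarith
  have hlogn : Real.log n ≤ L := by
    rw [hL]
    exact Real.log_le_log hn0 (by exact_mod_cast hnN)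
  have hlogn0 : 0 ≤ Real.log (n : ℝ) := Real.log_natCast_nonneg n
  have hup : (f n : ℝ) ≤ N * L ^ C := by
    refine (hn2 n hnn2).trans ?_
    exact mul_le_mul (by exact_mod_cast hnN) (pow_le_pow_left₀ hlogn0 hlogn C) (by positivity) hN0.le
  have hlup : Real.log (f n) ≤ L + C * Real.log L := by
    have := Real.log_le_log hfn0 hup
    rw [Real.log_mul hN0.ne' (by positivity), Real.log_pow, ← hL] at this
    exact this
  have hllow : L - B * Real.log L ≤ Real.log (f n) := by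
    have h1 : (N : ℝ) ≤ f n * L ^ B := hn.trans (mul_le_mul_of_nonneg_right hfn hLB.le)
    have := Real.log_le_log hN0 h1
    rw [Real.log_mul hfn0.ne' hLB.ne', Real.log_pow, ← hL] at this
    linarith
  have hLL0 : 0 ≤ Real.log L := Real.log_nonneg g1
  have hX0 : 0 < α * (f n : ℝ) ^ k := by positivity
  have hlogX : Real.log (α * (f n : ℝ) ^ k) = Real.log α + k * Real.log (f n) := by
    rw [Real.log_mul hα.ne' (by positivity), Real.log_rpow hfn0]
  have habs := neg_abs_le (Real.log α)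
  have habs2 := le_abs_self (Real.log α)
  have hB0 : (0 : ℝ) ≤ B := Nat.cast_nonneg B
  have hC0 : (0 : ℝ) ≤ C := Nat.cast_nonneg C
  have habs0 := abs_nonneg (Real.log α)
  have e0 : |Real.log α| + (B + C) * k * Real.log L ≤ η * k * L := by
    have h1 : 0 ≤ (B + C) * k := by positivity
    have h2 : 0 ≤ |Real.log α| * Real.log L := by positivity
    nlinarith
  have e1 : Real.log (α * (f n : ℝ) ^ k) ≤ k * L + η * k * L := by
    rw [hlogX]
    have h1 : k * Real.log (f n) ≤ k * (L + C * Real.log L) := mul_le_mul_of_nonneg_left hlup hk.le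
    have h2 : 0 ≤ B * k * Real.log L := by positivity
    nlinarith
  have e2 : k * L - η * k * L ≤ Real.log (α * (f n : ℝ) ^ k) := by
    rw [hlogX]
    have h1 : k * (L - B * Real.log L) ≤ k * Real.log (f n) := mul_le_mul_of_nonneg_left hllow hk.le
    have h2 : 0 ≤ C * k * Real.log L := by positivity
    nlinarith
  have hkL : 2 ≤ k * L := by
    rw [div_le_iff₀ hk] at g2
    linarith
  have e3 : 1 ≤ Real.log (α * (f n : ℝ) ^ k) := by
    nlinarith
  have hX2 : 2 ≤ α * (f n : ℝ) ^ k := by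
    rw [Real.le_log_iff_exp_le hX0] at e3
    have := Real.exp_one_gt_d9
    linarith
  unfold gd
  rw [if_pos hX2]
  set Z := Real.log (α * (f n : ℝ) ^ k)
  have hZ0 : 0 < Z := by linarith
  have e4 : k * L * (1 / Z) - 1 = (k * L - Z) / Z := by
    field_simp
  rw [e4, abs_div, abs_of_pos hZ0, div_le_iff₀ hZ0, abs_le]
  have e5 : η * k * L ≤ δ * Z := by
    have h1 : (1 / 2) * (k * L) ≤ Z := by nlinarith
    have h2 : δ * ((1 / 2) * (k * L)) ≤ δ * Z := mul_le_mul_of_nonneg_left h1 hδ.le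
    nlinarith
  constructor <;> linarith

/-- all factors -/
theorem dens_asym {r : ℕ} (k : Fin r → ℝ) (hk : ∀ i, 0 < k i) (f : Fin r → ℕ → ℕ)
    (hf : ∀ i, StrictMono (f i)) (C : ℕ) (hfC : ∀ i, ∀ᶠ n : ℕ in atTop, (f i n : ℝ) ≤ n * Real.log n ^ C)
    (α : Fin r → ℝ) (hα : ∀ i, 0 < α i) (B : ℕ) (ε : ℝ) (hε : 0 < ε) :
    ∀ᶠ N : ℕ in atTop, ∀ n : ℕ, n ≤ N → (N : ℝ) ≤ n * Real.log N ^ B →
      |(∏ i, k i) * Real.log N ^ r * dens k f α n - 1| ≤ ε := by
  obtain ⟨δ, hδ0, hδ⟩ : ∃ δ : ℝ, 0 < δ ∧ Real.exp (r * δ) - 1 ≤ ε := by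
    have h1 : Tendsto (fun δ : ℝ => Real.exp (r * δ) - 1) (𝓝[>] 0) (𝓝 0) := by
      have h2 : Continuous (fun δ : ℝ => Real.exp (r * δ) - 1) := by fun_prop
      have h3 := h2.tendsto 0
      simp only [mul_zero, Real.exp_zero, sub_self] at h3
      exact h3.mono_left nhdsWithin_le_nhds
    have h4 := (h1.eventually (Iic_mem_nhds hε)).and self_mem_nhdsWithin
    obtain ⟨δ, hδ1, hδ2⟩ := h4.exists
    exact ⟨δ, hδ2, hδ1⟩
  have h1 : ∀ᶠ N : ℕ in atTop, ∀ i, ∀ n : ℕ, n ≤ N → (N : ℝ) ≤ n * Real.log N ^ B →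
      |k i * Real.log N * gd (α i * (f i n : ℝ) ^ (k i)) - 1| ≤ δ := by
    rw [eventually_all]
    intro i
    exact factor_asym (k i) (hk i) (f i) (hf i) C (hfC i) (α i) (hα i) B δ hδ0
  filter_upwards [h1] with N h2 n hnN hn
  have e : (∏ i, k i) * Real.log N ^ r * dens k f α n =
      ∏ i, (1 + (k i * Real.log N * gd (α i * (f i n : ℝ) ^ (k i)) - 1)) := by
    unfold dens
    have e2 : ∏ i : Fin r, (1 + (k i * Real.log N * gd (α i * (f i n : ℝ) ^ (k i)) - 1)) =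
        ∏ i : Fin r, (k i * Real.log N * gd (α i * (f i n : ℝ) ^ (k i))) :=
      Finset.prod_congr rfl fun i _ => by ring
    rw [e2, Finset.prod_mul_distrib, Finset.prod_mul_distrib]
    simp
  rw [e, ← Real.norm_eq_abs]
  refine (Finset.norm_prod_one_add_sub_one_le _ _).trans (le_trans ?_ hδ)
  have h3 : ∑ i : Fin r, ‖k i * Real.log N * gd (α i * (f i n : ℝ) ^ (k i)) - 1‖ ≤ r * δ := by
    calc _ ≤ ∑ _i : Fin r, δ := Finset.sum_le_sum fun i _ => h2 i n hnN hn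
      _ = r * δ := by simp
  linarith [Real.exp_le_exp.2 h3]

open Classical in
/-- the expected number of simultaneous primes at the elements of a set -/
theorem cnt_asym {r : ℕ} (k : Fin r → ℝ) (hk : ∀ i, 0 < k i) (f : Fin r → ℕ → ℕ)
    (hf : ∀ i, StrictMono (f i)) (C : ℕ) (hfC : ∀ i, ∀ᶠ n : ℕ in atTop, (f i n : ℝ) ≤ n * Real.log n ^ C)
    (α : Fin r → ℝ) (hα : ∀ i, 0 < α i) (A : Set ℕ) (K : ℕ) (ε : ℝ) (hε : 0 < ε) :
    ∀ᶠ N : ℕ in atTop,
      |(∏ i, k i) * Real.log N ^ r * ∑ n ∈ (Icc 1 N).filter (· ∈ A), dens k f α n -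
        (((Icc 1 N).filter (· ∈ A)).card : ℝ)| ≤ ε * ((Icc 1 N).filter (· ∈ A)).card + N / Real.log N ^ K := by
  have hκ : 0 < ∏ i, k i := Finset.prod_pos fun i _ => hk i
  obtain ⟨κ, hκe⟩ : ∃ κ, κ = ∏ i, k i := ⟨_, rfl⟩
  rw [← hκe] at hκ ⊢
  filter_upwards [dens_asym k hk f hf C hfC α hα (K + r + 1) ε hε, ev_logge (κ * 2 ^ r + 1), ev_logge 1,
    eventually_ge_atTop 1] with N h1 h2 h3 h4
  rw [← hκe] at h1
  have hN0 : (0 : ℝ) < N := by exact_mod_cast (show 0 < N by omega)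
  obtain ⟨L, hL⟩ : ∃ L, L = Real.log (N : ℝ) := ⟨_, rfl⟩
  simp only [← hL] at h1 h2 h3 ⊢
  have hL0 : 0 < L := by linarith
  have hLr : 1 ≤ L ^ r := one_le_pow₀ h3
  have e1 : κ * L ^ r * ∑ n ∈ (Icc 1 N).filter (· ∈ A), dens k f α n -
        (((Icc 1 N).filter (· ∈ A)).card : ℝ) =
      ∑ n ∈ (Icc 1 N).filter (· ∈ A), (κ * L ^ r * dens k f α n - 1) := by
    rw [Finset.sum_sub_distrib, Finset.mul_sum, Finset.sum_const, nsmul_eq_mul, mul_one]
  rw [e1]
  refine (Finset.abs_sum_le_sum_abs _ _).trans ?_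
  have e2 : ∀ n ∈ (Icc 1 N).filter (· ∈ A), |κ * L ^ r * dens k f α n - 1| ≤
      ε + if (n : ℝ) * L ^ (K + r + 1) < N then (κ * 2 ^ r + 1) * L ^ r else 0 := by
    intro n hn
    rw [Finset.mem_filter, Finset.mem_Icc] at hn
    split_ifs with hc
    · have a1 := dens_nonneg k f α n
      have a2 := dens_le k f α n
      have a3 : |κ * L ^ r * dens k f α n - 1| ≤ κ * L ^ r * dens k f α n + 1 := by
        rw [abs_le]
        have : 0 ≤ κ * L ^ r * dens k f α n := by positivity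
        constructor <;> linarith
      have a4 : κ * L ^ r * dens k f α n ≤ κ * L ^ r * 2 ^ r := mul_le_mul_of_nonneg_left a2 (by positivity)
      nlinarith
    · push Not at hc
      rw [add_zero]
      exact h1 n hn.1.2 hc
  refine (Finset.sum_le_sum e2).trans ?_
  rw [Finset.sum_add_distrib, Finset.sum_const, nsmul_eq_mul, mul_comm]
  apply add_le_add le_rfl
  rw [← Finset.sum_filter, Finset.sum_const, nsmul_eq_mul]
  have e3 : ((((Icc 1 N).filter (· ∈ A)).filter (fun n : ℕ => (n : ℝ) * L ^ (K + r + 1) < N)).card : ℝ) ≤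
      N / L ^ (K + r + 1) := by
    have a1 : (((Icc 1 N).filter (· ∈ A)).filter (fun n : ℕ => (n : ℝ) * L ^ (K + r + 1) < N)) ⊆
        Icc 1 ⌊(N : ℝ) / L ^ (K + r + 1)⌋₊ := by
      intro n hn
      rw [Finset.mem_filter, Finset.mem_filter, Finset.mem_Icc] at hn
      rw [Finset.mem_Icc]
      refine ⟨hn.1.1.1, Nat.le_floor ?_⟩
      rw [le_div_iff₀ (by positivity)]
      exact hn.2.le
    have a2 := Finset.card_le_card a1
    rw [Nat.card_Icc, Nat.add_sub_cancel] at a2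
    calc _ ≤ ((⌊(N : ℝ) / L ^ (K + r + 1)⌋₊ : ℕ) : ℝ) := by exact_mod_cast a2
      _ ≤ _ := Nat.floor_le (by positivity)
  calc _ ≤ (N / L ^ (K + r + 1)) * ((κ * 2 ^ r + 1) * L ^ r) :=
        mul_le_mul_of_nonneg_right e3 (by positivity)
    _ ≤ (N / L ^ (K + r + 1)) * (L * L ^ r) :=
        mul_le_mul_of_nonneg_left (mul_le_mul_of_nonneg_right h2 (by positivity)) (by positivity)
    _ = N / L ^ K := by
        rw [pow_succ, pow_add]
        field_simp

theorem prod_ip {r : ℕ} (m : Fin r → ℕ) [Decidable (∀ i, (m i).Prime)] :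
    ∏ i, ip (m i) = if ∀ i, (m i).Prime then 1 else 0 := by
  classical
  unfold ip
  split_ifs with h
  · exact Finset.prod_eq_one fun i _ => if_pos (h i)
  · push Not at h
    obtain ⟨i, hi⟩ := h
    exact Finset.prod_eq_zero (Finset.mem_univ i) (if_neg hi)

open Classical in
/-- **the number of simultaneous primes at the elements of a set** -/
theorem mixed {r : ℕ} (k : Fin r → ℝ) (hk : ∀ i, 0 < k i) (f : Fin r → ℕ → ℕ)
    (hf : ∀ i, StrictMono (f i)) (C : ℕ) (hfC : ∀ i, ∀ᶠ n : ℕ in atTop, (f i n : ℝ) ≤ n * Real.log n ^ C)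
    (A : Set ℕ) : ∀ᵐ α : Fin r → ℝ, (∀ i, 0 < α i) → ∀ (K : ℕ) (ε : ℝ), 0 < ε → ∀ᶠ N : ℕ in atTop,
      |(∏ i, k i) * Real.log N ^ r *
        (((Icc 1 N).filter (fun n => n ∈ A ∧ ∀ i, (⌊α i * (f i n : ℝ) ^ (k i)⌋₊).Prime)).card : ℝ) -
        (((Icc 1 N).filter (· ∈ A)).card : ℝ)| ≤ ε * ((Icc 1 N).filter (· ∈ A)).card + N / Real.log N ^ K := by
  have hκ : 0 < ∏ i, k i := Finset.prod_pos fun i _ => hk i
  filter_upwards [prime_several C r k hk f hf hfC (fun n => if n ∈ A then 1 else 0) 1 (fun n => by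
    split_ifs <;> simp)] with α hα hpos K ε hε
  obtain ⟨κ, hκe⟩ : ∃ κ, κ = ∏ i, k i := ⟨_, rfl⟩
  rw [← hκe] at hκ ⊢
  filter_upwards [hα hpos (K + r + 1), cnt_asym k hk f hf C hfC α hpos A (K + 1) ε hε, ev_logge (κ + 1),
    eventually_ge_atTop 1] with N h1 h2 h3 h4
  rw [← hκe] at h2
  have hN0 : (0 : ℝ) < N := by exact_mod_cast (show 0 < N by omega)
  obtain ⟨L, hL⟩ : ∃ L, L = Real.log (N : ℝ) := ⟨_, rfl⟩
  simp only [← hL] at h1 h2 h3 ⊢
  have hL0 : 0 < L := by linarith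
  have e1 : ∑ n ∈ Icc 1 N, (if n ∈ A then (1 : ℂ) else 0) * Dt k f α n =
      (((((Icc 1 N).filter (fun n => n ∈ A ∧ ∀ i, (⌊α i * (f i n : ℝ) ^ (k i)⌋₊).Prime)).card : ℝ) -
        ∑ n ∈ (Icc 1 N).filter (· ∈ A), dens k f α n : ℝ) : ℂ) := by
    have b1 : ∀ n ∈ Icc 1 N, (if n ∈ A then (1 : ℂ) else 0) * Dt k f α n =
        (if n ∈ A ∧ ∀ i, (⌊α i * (f i n : ℝ) ^ (k i)⌋₊).Prime then (1 : ℂ) else 0) -
          (if n ∈ A then ((dens k f α n : ℝ) : ℂ) else 0) := by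
      intro n _
      unfold Dt dens
      rw [prod_ip]
      by_cases hA : n ∈ A
      · simp [hA]
      · simp [hA]
    rw [Finset.sum_congr rfl b1, Finset.sum_sub_distrib]
    push_cast
    rw [← Finset.sum_filter, ← Finset.sum_filter, Finset.sum_const, nsmul_eq_mul, mul_one]
  rw [e1, Complex.norm_real, Real.norm_eq_abs] at h1
  set c1 := (((Icc 1 N).filter (fun n => n ∈ A ∧ ∀ i, (⌊α i * (f i n : ℝ) ^ (k i)⌋₊).Prime)).card : ℝ)
  set c2 := ∑ n ∈ (Icc 1 N).filter (· ∈ A), dens k f α n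
  set c3 := (((Icc 1 N).filter (· ∈ A)).card : ℝ)
  have e2 : κ * L ^ r * c1 - c3 = κ * L ^ r * (c1 - c2) + (κ * L ^ r * c2 - c3) := by ring
  rw [e2]
  refine (abs_add_le _ _).trans ?_
  have e3 : |κ * L ^ r * (c1 - c2)| ≤ κ * (N / L ^ (K + 1)) := by
    rw [abs_mul, abs_of_nonneg (by positivity)]
    calc κ * L ^ r * |c1 - c2| ≤ κ * L ^ r * (N / L ^ (K + r + 1)) := mul_le_mul_of_nonneg_left h1 (by positivity)
      _ = κ * (N / L ^ (K + 1)) := by
          rw [show K + r + 1 = (K + 1) + r by ring, pow_add L (K + 1) r]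
          field_simp
  have e4 : N / L ^ K = L * (N / L ^ (K + 1)) := by
    rw [pow_succ]
    field_simp
  have e5 : 0 ≤ (N : ℝ) / L ^ (K + 1) := by positivity
  have e6 : (κ + 1) * (N / L ^ (K + 1)) ≤ L * (N / L ^ (K + 1)) := mul_le_mul_of_nonneg_right h3 e5
  linarith

/-- transfer of limits -/
theorem lim_iff (E F : ℕ → ℝ) (hE : ∀ N, 0 ≤ E N)
    (h : ∀ ε : ℝ, 0 < ε → ∀ᶠ N in atTop, |F N - E N| ≤ ε * E N + ε) (S : ℝ) :
    Tendsto E atTop (𝓝 S) ↔ Tendsto F atTop (𝓝 S) := by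
  have key : ∀ B : ℝ, (∀ᶠ N in atTop, E N ≤ B) → Tendsto (fun N => F N - E N) atTop (𝓝 0) := by
    intro B hB
    rw [Metric.tendsto_atTop']
    intro δ hδ
    have hB1 : 0 < |B| + 1 := by positivity
    have h1 := (h (δ / (2 * (|B| + 1))) (by positivity)).and hB
    obtain ⟨N0, hN0⟩ := h1.exists_forall_of_atTop
    refine ⟨N0, fun N hN => ?_⟩
    obtain ⟨h2, h3⟩ := hN0 N hN.le
    rw [Real.dist_eq, sub_zero]
    have h4 : E N ≤ |B| := h3.trans (le_abs_self B)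
    calc |F N - E N| ≤ δ / (2 * (|B| + 1)) * E N + δ / (2 * (|B| + 1)) := h2
      _ ≤ δ / (2 * (|B| + 1)) * |B| + δ / (2 * (|B| + 1)) := by
          have : 0 ≤ δ / (2 * (|B| + 1)) := by positivity
          nlinarith
      _ = δ / 2 := by
          field_simp
      _ < δ := by linarith
  constructor
  · intro hS
    have h1 := key (S + 1) (hS.eventually (Iic_mem_nhds (by linarith)))
    have h2 := h1.add hS
    simpa using h2
  · intro hS
    have h0 : ∀ᶠ N in atTop, E N ≤ 2 * (S + 2) := by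
      filter_upwards [h (1 / 2) (by norm_num), hS.eventually (Iic_mem_nhds (show S < S + 1 by linarith))] with
        N h1 h2
      have h2' : F N ≤ S + 1 := h2
      have h3 := (abs_le.1 h1).1
      linarith
    have h1 := key _ h0
    have h2 := hS.sub h1
    simpa using h2

/-- the prime number theorem, in the form used below -/
theorem pnt : Tendsto (fun N : ℕ => Real.log N ^ 1 / N * (((Icc 1 N).filter Nat.Prime).card : ℝ)) atTop (𝓝 1) := by
  classical
  have h1 := fun ε hε => cnt_asym (r := 1) (fun _ => 1) (fun _ => one_pos) (fun _ n => n) (fun _ => strictMono_id) 0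
    (fun _ => Eventually.of_forall fun n => by simp) (fun _ => 1) (fun _ => one_pos) Set.univ 1 ε hε
  have h2 := ip_sum 2
  have h3 : Tendsto (fun _ : ℕ => (1 : ℝ)) atTop (𝓝 1) := tendsto_const_nhds
  refine (lim_iff (fun _ => 1) _ (fun _ => zero_le_one) (fun ε hε => ?_) 1).1 h3
  filter_upwards [h1 ε hε, h2, ev_logge (2 / ε), ev_logge 1, eventually_ge_atTop 1] with N g1 g2 g3 g4 g5
  have hN0 : (0 : ℝ) < N := by exact_mod_cast (show 0 < N by omega)
  obtain ⟨L, hL⟩ : ∃ L, L = Real.log (N : ℝ) := ⟨_, rfl⟩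
  simp only [← hL] at g1 g2 g3 g4 ⊢
  have hL0 : 0 < L := by linarith
  have e1 : ∑ n ∈ Icc 1 N, (ip n - (gd n : ℂ)) =
      (((((Icc 1 N).filter Nat.Prime).card : ℝ) - ∑ n ∈ Icc 1 N, gd n : ℝ) : ℂ) := by
    rw [Finset.sum_sub_distrib]
    push_cast
    congr 1
    unfold ip
    rw [← Finset.sum_filter, Finset.sum_const, nsmul_eq_mul, mul_one]
  rw [e1, Complex.norm_real, Real.norm_eq_abs] at g2
  have e2 : ∀ n : ℕ, dens (r := 1) (fun _ => 1) (fun _ n => n) (fun _ => 1) n = gd n := by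
    intro n
    unfold dens
    simp
  simp only [e2, Set.mem_univ, Finset.filter_true, Nat.card_Icc, Nat.add_sub_cancel, pow_one,
    Finset.univ_unique, Finset.prod_const_one, one_mul] at g1
  set c1 := (((Icc 1 N).filter Nat.Prime).card : ℝ)
  set c2 := ∑ n ∈ Icc 1 N, gd n
  have e3 : L ^ 1 / N * c1 - 1 = (L * (c1 - c2) + (L * c2 - N)) / N := by
    field_simp
    ring
  rw [e3, abs_div, abs_of_pos hN0, div_le_iff₀ hN0]
  refine (abs_add_le _ _).trans ?_
  rw [abs_mul, abs_of_pos hL0]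
  have e4 : L * |c1 - c2| ≤ N / L := by
    calc L * |c1 - c2| ≤ L * (N / L ^ 2) := mul_le_mul_of_nonneg_left g2 hL0.le
      _ = N / L := by
          field_simp
  have e5 : (N : ℝ) / L ≤ ε / 2 * N := by
    rw [div_le_iff₀ hL0]
    rw [div_le_iff₀ hε] at g3
    nlinarith
  linarith

end Pool.Agent.D0H91.MG
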