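import Mathlib
import Pool.Agent.D0H91.MG.Base
import Pool.Agent.W301.SS.Good

/-! The variance of Selberg's function at the points `e ^ (k w) n ^ k`, in mean over `w`. -/

set_option autoImplicit false

namespace Pool.Agent.D0H91.MG

open Finset MeasureTheory Filter Topology
open scoped ENNReal
open Pool.Agent.W301.SS (VV mv sel variance nu pn)

/-- change of variables, for the integer parts -/
theorem cov (k : ℝ) (hk : 0 < k) (c : ℝ) (hc : 0 < c) (w0 : ℝ) (h : ℕ → ℝ) (hh : ∀ m, 0 ≤ h m)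
    (hx : 1 ≤ Real.exp (k * w0) * c) (X : ℕ) (hX : Real.exp (k * (w0 + 1)) * c ≤ X) :
    ∫⁻ w in Set.Icc w0 (w0 + 1), ENNReal.ofReal (h ⌊Real.exp (k * w) * c⌋₊) ≤
      ENNReal.ofReal (2 / (k * (Real.exp (k * w0) * c)) * ∑ m ∈ Ioc 0 X, h m) := by
  obtain ⟨x0, hx0⟩ : ∃ x0, x0 = Real.exp (k * w0) * c := ⟨_, rfl⟩
  rw [← hx0] at hx ⊢
  have hx00 : 0 < x0 := by linarith
  set S : ℕ → Set ℝ := fun m => Set.Ico (Real.log (m / c) / k) (Real.log ((m + 1 : ℕ) / c) / k) with hS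
  set I : Finset ℕ := Icc ⌊x0⌋₊ X with hI
  have hm0 : ∀ m ∈ I, x0 / 2 ≤ m ∧ 1 ≤ m := by
    intro m hm
    rw [hI, Finset.mem_Icc] at hm
    have h1 : 1 ≤ ⌊x0⌋₊ := Nat.le_floor (by simpa using hx)
    have h2 : x0 < (⌊x0⌋₊ : ℝ) + 1 := Nat.lt_floor_add_one x0
    have h3 : (1 : ℝ) ≤ (⌊x0⌋₊ : ℝ) := by exact_mod_cast h1
    have h4 : (⌊x0⌋₊ : ℝ) ≤ m := by exact_mod_cast hm.1
    constructor
    · linarith
    · omega
  have hpt : ∀ w ∈ Set.Icc w0 (w0 + 1), ENNReal.ofReal (h ⌊Real.exp (k * w) * c⌋₊) ≤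
      ∑ m ∈ I, (S m).indicator (fun _ => ENNReal.ofReal (h m)) w := by
    intro w hw
    obtain ⟨m, hm⟩ : ∃ m, m = ⌊Real.exp (k * w) * c⌋₊ := ⟨_, rfl⟩
    rw [← hm]
    have hxw0 : x0 ≤ Real.exp (k * w) * c := by
      rw [hx0]
      exact mul_le_mul_of_nonneg_right (Real.exp_le_exp.2 (mul_le_mul_of_nonneg_left hw.1 hk.le)) hc.le
    have hxw1 : Real.exp (k * w) * c ≤ X := by
      refine le_trans ?_ hX
      exact mul_le_mul_of_nonneg_right (Real.exp_le_exp.2 (mul_le_mul_of_nonneg_left hw.2 hk.le)) hc.le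
    have hxp : 0 < Real.exp (k * w) * c := by positivity
    have hmI : m ∈ I := by
      rw [hI, Finset.mem_Icc]
      constructor
      · rw [hm]
        exact Nat.floor_le_floor hxw0
      · rw [hm]
        calc ⌊Real.exp (k * w) * c⌋₊ ≤ ⌊(X : ℝ)⌋₊ := Nat.floor_le_floor hxw1
          _ = X := Nat.floor_natCast X
    have hmS : w ∈ S m := by
      have h1 : (m : ℝ) ≤ Real.exp (k * w) * c := by
        rw [hm]
        exact Nat.floor_le hxp.le
      have h2 : Real.exp (k * w) * c < ((m + 1 : ℕ) : ℝ) := by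
        rw [hm]
        push_cast
        exact Nat.lt_floor_add_one _
      have hm1 : (0 : ℝ) < m := by exact_mod_cast (hm0 m hmI).2
      rw [hS]
      constructor
      · rw [div_le_iff₀ hk, mul_comm w k, Real.log_le_iff_le_exp (by positivity), div_le_iff₀ hc]
        exact h1
      · rw [lt_div_iff₀ hk, mul_comm w k, Real.lt_log_iff_exp_lt (by positivity), lt_div_iff₀ hc]
        exact h2
    calc ENNReal.ofReal (h m) = (S m).indicator (fun _ => ENNReal.ofReal (h m)) w := by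
          rw [Set.indicator_of_mem hmS]
      _ ≤ ∑ m ∈ I, (S m).indicator (fun _ => ENNReal.ofReal (h m)) w :=
          Finset.single_le_sum (f := fun m => (S m).indicator (fun _ => ENNReal.ofReal (h m)) w)
            (fun _ _ => bot_le) hmI
  have hvol : ∀ m ∈ I, volume (S m) ≤ ENNReal.ofReal (2 / (k * x0)) := by
    intro m hm
    obtain ⟨h1, h2⟩ := hm0 m hm
    have hm1 : (1 : ℝ) ≤ m := by exact_mod_cast h2
    rw [hS, Real.volume_Ico]
    apply ENNReal.ofReal_le_ofReal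
    rw [← sub_div, ← Real.log_div (by positivity) (by positivity)]
    have e : ((m + 1 : ℕ) : ℝ) / c / (m / c) = 1 + 1 / m := by
      push_cast
      field_simp
    rw [e]
    have h3 : Real.log (1 + 1 / m) ≤ 1 / m := by
      have := Real.log_le_sub_one_of_pos (show (0 : ℝ) < 1 + 1 / m by positivity)
      linarith
    have h4 : 1 / (m : ℝ) ≤ 2 / x0 := by
      rw [div_le_div_iff₀ (by linarith) hx00]
      linarith
    calc Real.log (1 + 1 / m) / k ≤ (2 / x0) / k := div_le_div_of_nonneg_right (h3.trans h4) hk.le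
      _ = 2 / (k * x0) := by
          field_simp
  calc ∫⁻ w in Set.Icc w0 (w0 + 1), ENNReal.ofReal (h ⌊Real.exp (k * w) * c⌋₊) ≤
        ∫⁻ w in Set.Icc w0 (w0 + 1), ∑ m ∈ I, (S m).indicator (fun _ => ENNReal.ofReal (h m)) w :=
        setLIntegral_mono' measurableSet_Icc hpt
    _ ≤ ∫⁻ w, ∑ m ∈ I, (S m).indicator (fun _ => ENNReal.ofReal (h m)) w := setLIntegral_le_lintegral _ _
    _ = ∑ m ∈ I, ENNReal.ofReal (h m) * volume (S m) := by
        rw [lintegral_finsetSum _ fun m _ => measurable_const.indicator measurableSet_Ico]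
        refine Finset.sum_congr rfl fun m _ => ?_
        rw [lintegral_indicator_const measurableSet_Ico]
    _ ≤ ∑ m ∈ I, ENNReal.ofReal (h m) * ENNReal.ofReal (2 / (k * x0)) :=
        Finset.sum_le_sum fun m hm => mul_le_mul_right (hvol m hm) _
    _ = ENNReal.ofReal (2 / (k * x0) * ∑ m ∈ I, h m) := by
        rw [← Finset.sum_mul, ← ENNReal.ofReal_sum_of_nonneg fun m _ => hh m, mul_comm,
          ← ENNReal.ofReal_mul (by positivity)]
    _ ≤ ENNReal.ofReal (2 / (k * x0) * ∑ m ∈ Ioc 0 X, h m) := by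
        apply ENNReal.ofReal_le_ofReal
        apply mul_le_mul_of_nonneg_left _ (by positivity)
        apply Finset.sum_le_sum_of_subset_of_nonneg
        · intro m hm
          have h1 := (hm0 m hm).2
          rw [hI, Finset.mem_Icc] at hm
          rw [Finset.mem_Ioc]
          omega
        · intro m _ _
          exact hh m

/-- the variance at one point -/
theorem var_n (k : ℝ) (hk : 0 < k) (w0 : ℝ) (n : ℕ) (l : ℕ → ℝ) (hl : ∀ d, |l d| ≤ 1) (D : ℕ) (hD : 1 ≤ D)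
    (hm0 : 0 ≤ mv l D) (hm1 : mv l D ≤ 1) (y : ℕ) (hy : 1 ≤ y)
    (hx : 1 ≤ Real.exp (k * w0) * (n : ℝ) ^ k) (hc : 0 < (n : ℝ) ^ k) :
    ∫⁻ w in Set.Icc w0 (w0 + 1), ENNReal.ofReal ((VV l D y ⌊Real.exp (k * w) * (n : ℝ) ^ k⌋₊ - mv l D) ^ 2) ≤
      ENNReal.ofReal (6 * (D : ℝ) ^ 4 / (k * (Real.exp (k * w0) * (n : ℝ) ^ k)) +
        4 * Real.exp k / (k * y) * (1 + 4 * Real.log D) ^ 16) := by
  have hy0 : (0 : ℝ) < y := by exact_mod_cast hy
  obtain ⟨X, hX⟩ : ∃ X : ℕ, X = ⌈Real.exp (k * (w0 + 1)) * (n : ℝ) ^ k⌉₊ := ⟨_, rfl⟩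
  have hX1 : Real.exp (k * (w0 + 1)) * (n : ℝ) ^ k ≤ X := by
    rw [hX]
    exact Nat.le_ceil _
  have he : Real.exp (k * (w0 + 1)) = Real.exp (k * w0) * Real.exp k := by
    rw [← Real.exp_add]
    congr 1
    ring
  obtain ⟨x0, hx0⟩ : ∃ x0, x0 = Real.exp (k * w0) * (n : ℝ) ^ k := ⟨_, rfl⟩
  have hek : 1 ≤ Real.exp k := Real.one_le_exp hk.le
  have hxx : Real.exp (k * (w0 + 1)) * (n : ℝ) ^ k = Real.exp k * x0 := by
    rw [he, hx0]
    ring
  have hX2 : (X : ℝ) ≤ 2 * (Real.exp k * x0) := by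
    have h1 := Nat.ceil_lt_add_one (show 0 ≤ Real.exp (k * (w0 + 1)) * (n : ℝ) ^ k by positivity)
    rw [← hX, hxx] at h1
    rw [← hx0] at hx
    nlinarith
  refine (cov k hk _ hc w0 (fun m => (VV l D y m - mv l D) ^ 2) (fun m => sq_nonneg _) hx X hX1).trans ?_
  apply ENNReal.ofReal_le_ofReal
  have hv := variance l hl D hD hm0 hm1 X y hy
  have hlog : 0 ≤ 1 + 4 * Real.log D := by
    have := Real.log_nonneg (show (1 : ℝ) ≤ D by exact_mod_cast hD)
    linarith
  rw [← hx0] at hx ⊢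
  have hx00 : 0 < x0 := by linarith
  calc 2 / (k * x0) * ∑ m ∈ Ioc 0 X, (VV l D y m - mv l D) ^ 2 ≤
        2 / (k * x0) * (3 * (D : ℝ) ^ 4 + X / y * (1 + 4 * Real.log D) ^ 16) :=
        mul_le_mul_of_nonneg_left hv (by positivity)
    _ ≤ 2 / (k * x0) * (3 * (D : ℝ) ^ 4 + (2 * (Real.exp k * x0)) / y * (1 + 4 * Real.log D) ^ 16) := by
        apply mul_le_mul_of_nonneg_left _ (by positivity)
        have : (X : ℝ) / y * (1 + 4 * Real.log D) ^ 16 ≤
            (2 * (Real.exp k * x0)) / y * (1 + 4 * Real.log D) ^ 16 := by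
          apply mul_le_mul_of_nonneg_right _ (by positivity)
          exact div_le_div_of_nonneg_right hX2 hy0.le
        linarith
    _ = _ := by
        field_simp
        ring

/-- Selberg's weights -/
noncomputable def lw (D : ℕ) : ℕ → ℝ := if h : 3 ≤ D then (sel D h).choose else fun _ => 0

theorem lw_spec (D : ℕ) (h : 3 ≤ D) : lw D 1 = 1 ∧ (∀ d, |lw D d| ≤ 1) ∧ 0 ≤ mv (lw D) D ∧
    mv (lw D) D ≤ 1 / Real.log D ∧ mv (lw D) D ≤ 1 := by
  unfold lw
  rw [dif_pos h]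
  exact (sel D h).choose_spec

end Pool.Agent.D0H91.MG
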