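import Mathlib
import Pool.Agent.D0H91.MG.Sv1

/-! The variance is small for almost every dilation, at all dyadic scales and all lengths. -/

set_option autoImplicit false

namespace Pool.Agent.D0H91.MG

open Finset MeasureTheory Filter Topology
open scoped ENNReal
open Pool.Agent.W301.SS (VV mv sel variance nu pn)

/-- the level -/
noncomputable def DM (k δ : ℝ) (M : ℕ) : ℕ := ⌊(M : ℝ) ^ (k * (1 - δ) / 4)⌋₊

/-- the grid of lengths -/
noncomputable def gy (δ : ℝ) (i : ℕ) : ℕ := ⌈(1 + δ) ^ i⌉₊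

theorem gy_pos {δ : ℝ} (hδ : 0 < δ) (i : ℕ) : 1 ≤ gy δ i := by
  unfold gy
  rw [Nat.one_le_ceil_iff]
  positivity

/-- the number of lengths -/
noncomputable def Im (k δ : ℝ) (M : ℕ) : ℕ := ⌈k * Real.log M / Real.log (1 + δ)⌉₊ + 2

/-- the variance over the integers up to `M` -/
noncomputable def Ph (k δ : ℝ) (B M y : ℕ) (w : ℝ) : ℝ :=
  ∑ n ∈ (Icc 1 M).filter (fun n : ℕ => (M : ℝ) ≤ n * Real.log M ^ B),
    (VV (lw (DM k δ M)) (DM k δ M) y ⌊Real.exp (k * w) * (n : ℝ) ^ k⌋₊ - mv (lw (DM k δ M)) (DM k δ M)) ^ 2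

theorem Ph_nonneg (k δ : ℝ) (B M y : ℕ) (w : ℝ) : 0 ≤ Ph k δ B M y w :=
  Finset.sum_nonneg fun _ _ => sq_nonneg _

theorem term_meas (k : ℝ) (n : ℕ) (h : ℕ → ℝ) : Measurable (fun w : ℝ => h ⌊Real.exp (k * w) * (n : ℝ) ^ k⌋₊) := by
  have h1 : Measurable h := measurable_from_nat
  have h2 : Measurable (fun x : ℝ => ⌊x⌋₊) := Nat.measurable_floor
  have h3 : Measurable (fun w : ℝ => Real.exp (k * w) * (n : ℝ) ^ k) := by fun_prop
  exact h1.comp (h2.comp h3)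

theorem Ph_meas (k δ : ℝ) (B M y : ℕ) : Measurable (Ph k δ B M y) := by
  unfold Ph
  refine Finset.measurable_fun_sum _ fun n _ => ?_
  exact term_meas k n (fun m => (VV (lw (DM k δ M)) (DM k δ M) y m - mv (lw (DM k δ M)) (DM k δ M)) ^ 2)

theorem Ph_int (k : ℝ) (hk : 0 < k) (δ : ℝ) (hδ : 0 < δ) (hδ1 : δ ≤ 1 / 4) (B : ℕ) (w0 : ℝ) (Q : ℕ) :
    ∀ᶠ M : ℕ in atTop, ∀ y : ℕ, 1 ≤ y →
      ∫⁻ w in Set.Icc w0 (w0 + 1), ENNReal.ofReal (Ph k δ B M y w) ≤
        ENNReal.ofReal (M * (1 / Real.log M ^ Q +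
          (4 * Real.exp k / k * (k + 1) ^ 16) * (Real.log M ^ 16 / y))) := by
  obtain ⟨q, hq⟩ : ∃ q : ℕ, q = ⌈k⌉₊ := ⟨_, rfl⟩
  have hkq : k ≤ q := by
    rw [hq]
    exact Nat.le_ceil k
  have hδ4 : 0 < k * (1 - δ) / 4 := by
    have : 0 < 1 - δ := by linarith
    positivity
  have hek : 0 < Real.exp (k * w0) := Real.exp_pos _
  filter_upwards [ev_logge 1, eventually_ge_atTop 2,
    Pool.Agent.W301.SS.ev_log (B * q) (1 / Real.exp (k * w0)) k hk,
    Pool.Agent.W301.SS.ev_log (B * q + Q) (6 / (k * Real.exp (k * w0))) (k * δ) (by positivity),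
    Pool.Agent.W301.SS.ev_log 0 3 (k * (1 - δ) / 4) hδ4] with M g1 g2 g3 g4 g5 y hy
  have hM0 : (0 : ℝ) < M := by
    have : (2 : ℝ) ≤ M := by exact_mod_cast g2
    linarith
  have hM1 : (1 : ℝ) ≤ M := by
    have : (2 : ℝ) ≤ M := by exact_mod_cast g2
    linarith
  have hy0 : (0 : ℝ) < y := by exact_mod_cast hy
  obtain ⟨L, hL⟩ : ∃ L, L = Real.log (M : ℝ) := ⟨_, rfl⟩
  simp only [← hL] at g1 g3 g4 g5 ⊢
  have hL0 : 0 < L := by linarith
  rw [pow_zero, mul_one] at g5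
  obtain ⟨D, hD⟩ : ∃ D, D = DM k δ M := ⟨_, rfl⟩
  have hD3 : 3 ≤ D := by
    rw [hD]
    unfold DM
    exact Nat.le_floor (by exact_mod_cast g5)
  have hDle : (D : ℝ) ≤ (M : ℝ) ^ (k * (1 - δ) / 4) := by
    rw [hD]
    exact Nat.floor_le (by positivity)
  have hD1 : (1 : ℝ) ≤ D := by exact_mod_cast (by omega : 1 ≤ D)
  have hD4 : (D : ℝ) ^ 4 ≤ (M : ℝ) ^ (k * (1 - δ)) := by
    calc (D : ℝ) ^ 4 ≤ ((M : ℝ) ^ (k * (1 - δ) / 4)) ^ 4 := pow_le_pow_left₀ (by positivity) hDle 4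
      _ = _ := by
        rw [← Real.rpow_natCast, ← Real.rpow_mul hM0.le]
        congr 1
        push_cast
        ring
  have hlogD : 1 + 4 * Real.log D ≤ (k + 1) * L := by
    have a1 := Real.log_le_log (by linarith) hDle
    rw [Real.log_rpow hM0, ← hL] at a1
    have a2 : 0 ≤ k * δ * L := by positivity
    have a3 : 4 * (k * (1 - δ) / 4 * L) = k * L - k * δ * L := by ring
    linarith
  have hlogD0 : 0 ≤ 1 + 4 * Real.log D := by
    have := Real.log_nonneg hD1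
    linarith
  obtain ⟨l1, l2, l3, l4, l5⟩ := lw_spec D hD3
  unfold Ph
  rw [← hD, ← hL]
  have hpt : ∀ n ∈ (Icc 1 M).filter (fun n : ℕ => (M : ℝ) ≤ n * L ^ B),
      ∫⁻ w in Set.Icc w0 (w0 + 1), ENNReal.ofReal ((VV (lw D) D y ⌊Real.exp (k * w) * (n : ℝ) ^ k⌋₊ -
        mv (lw D) D) ^ 2) ≤ ENNReal.ofReal (1 / L ^ Q + (4 * Real.exp k / k * (k + 1) ^ 16) * (L ^ 16 / y)) := by
    intro n hn
    rw [Finset.mem_filter, Finset.mem_Icc] at hn
    have hn1 : (1 : ℝ) ≤ n := by exact_mod_cast hn.1.1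
    have hn0 : (0 : ℝ) < n := by linarith
    have hMk : (M : ℝ) ^ k ≤ (n : ℝ) ^ k * L ^ (B * q) := by
      calc (M : ℝ) ^ k ≤ (n * L ^ B) ^ k := Real.rpow_le_rpow hM0.le hn.2 hk.le
        _ = (n : ℝ) ^ k * (L ^ B) ^ k := Real.mul_rpow hn0.le (by positivity)
        _ ≤ (n : ℝ) ^ k * L ^ (B * q) := by
            apply mul_le_mul_of_nonneg_left _ (by positivity)
            rw [pow_mul, ← Real.rpow_natCast (L ^ B) q]
            exact Real.rpow_le_rpow_of_exponent_le (one_le_pow₀ g1) hkq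
    have hx : 1 ≤ Real.exp (k * w0) * (n : ℝ) ^ k := by
      have h1 : 1 / Real.exp (k * w0) * L ^ (B * q) ≤ (n : ℝ) ^ k * L ^ (B * q) := g3.trans hMk
      have h2 : 1 / Real.exp (k * w0) ≤ (n : ℝ) ^ k := le_of_mul_le_mul_right h1 (by positivity)
      rw [div_le_iff₀ hek] at h2
      linarith
    refine (var_n k hk w0 n (lw D) l2 D (by omega) l3 l5 y hy hx (by positivity)).trans ?_
    apply ENNReal.ofReal_le_ofReal
    apply add_le_add
    · rw [div_le_div_iff₀ (by positivity) (by positivity), one_mul]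
      have e1 : (M : ℝ) ^ k = (M : ℝ) ^ (k * (1 - δ)) * (M : ℝ) ^ (k * δ) := by
        rw [← Real.rpow_add hM0]
        congr 1
        ring
      have e2 : 6 * (D : ℝ) ^ 4 * L ^ Q * L ^ (B * q) ≤ k * (Real.exp (k * w0) * (n : ℝ) ^ k) * L ^ (B * q) := by
        calc 6 * (D : ℝ) ^ 4 * L ^ Q * L ^ (B * q) ≤ 6 * (M : ℝ) ^ (k * (1 - δ)) * L ^ Q * L ^ (B * q) := by
              gcongr
          _ = k * Real.exp (k * w0) * (M : ℝ) ^ (k * (1 - δ)) *
              (6 / (k * Real.exp (k * w0)) * L ^ (B * q + Q)) := by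
              rw [pow_add]
              field_simp
          _ ≤ k * Real.exp (k * w0) * (M : ℝ) ^ (k * (1 - δ)) * (M : ℝ) ^ (k * δ) :=
              mul_le_mul_of_nonneg_left g4 (by positivity)
          _ = k * Real.exp (k * w0) * (M : ℝ) ^ k := by
              rw [e1]
              ring
          _ ≤ k * Real.exp (k * w0) * ((n : ℝ) ^ k * L ^ (B * q)) :=
              mul_le_mul_of_nonneg_left hMk (by positivity)
          _ = _ := by ring
      exact le_of_mul_le_mul_right e2 (by positivity)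
    · calc 4 * Real.exp k / (k * y) * (1 + 4 * Real.log D) ^ 16 ≤
            4 * Real.exp k / (k * y) * ((k + 1) * L) ^ 16 := by
            apply mul_le_mul_of_nonneg_left _ (by positivity)
            exact pow_le_pow_left₀ hlogD0 hlogD 16
        _ = _ := by
            rw [mul_pow]
            field_simp
  have e3 : ∀ w : ℝ, ENNReal.ofReal (∑ n ∈ (Icc 1 M).filter (fun n : ℕ => (M : ℝ) ≤ n * L ^ B),
      (VV (lw D) D y ⌊Real.exp (k * w) * (n : ℝ) ^ k⌋₊ - mv (lw D) D) ^ 2) =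
      ∑ n ∈ (Icc 1 M).filter (fun n : ℕ => (M : ℝ) ≤ n * L ^ B),
        ENNReal.ofReal ((VV (lw D) D y ⌊Real.exp (k * w) * (n : ℝ) ^ k⌋₊ - mv (lw D) D) ^ 2) :=
    fun w => ENNReal.ofReal_sum_of_nonneg fun _ _ => sq_nonneg _
  simp only [e3]
  rw [lintegral_finsetSum _ fun n _ =>
    (term_meas k n (fun m => (VV (lw D) D y m - mv (lw D) D) ^ 2)).ennreal_ofReal]
  refine (Finset.sum_le_sum hpt).trans ?_
  rw [← ENNReal.ofReal_sum_of_nonneg fun _ _ => by positivity]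
  apply ENNReal.ofReal_le_ofReal
  rw [Finset.sum_const, nsmul_eq_mul]
  apply mul_le_mul_of_nonneg_right _ (by positivity)
  have h1 := Finset.card_filter_le (Icc 1 M) (fun n : ℕ => (M : ℝ) ≤ n * L ^ B)
  rw [Nat.card_Icc, Nat.add_sub_cancel] at h1
  exact_mod_cast h1

/-- **the variance is small for almost every dilation** -/
theorem Ph_ae (k : ℝ) (hk : 0 < k) (δ : ℝ) (hδ : 0 < δ) (hδ1 : δ ≤ 1 / 4) (B C : ℕ) (w0 : ℝ) :
    ∀ᵐ w ∂(volume.restrict (Set.Icc w0 (w0 + 1))), ∀ᶠ j : ℕ in atTop, ∀ i : ℕ, i < Im k δ (2 ^ j) →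
      Real.log ((2 ^ j : ℕ) : ℝ) ^ (2 * C + 24) ≤ 2 ^ (2 * C + 24) * (gy δ i : ℝ) →
      Ph k δ B (2 ^ j) (gy δ i) w ≤ ((2 ^ j : ℕ) : ℝ) / Real.log ((2 ^ j : ℕ) : ℝ) ^ (2 * C + 4) := by
  obtain ⟨c2, hc2⟩ : ∃ c2, c2 = 4 * Real.exp k / k * (k + 1) ^ 16 := ⟨_, rfl⟩
  have hc20 : 0 < c2 := by
    rw [hc2]
    positivity
  have hlδ : 0 < Real.log (1 + δ) := Real.log_pos (by linarith)
  obtain ⟨c4, hc4⟩ : ∃ c4, c4 = k / Real.log (1 + δ) + 3 := ⟨_, rfl⟩
  have hc40 : 0 < c4 := by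
    rw [hc4]
    positivity
  have hpow : Tendsto (fun j : ℕ => 2 ^ j) atTop atTop := tendsto_pow_atTop_atTop_of_one_lt (by norm_num)
  obtain ⟨j0, hj0⟩ := ((hpow.eventually (Ph_int k hk δ hδ hδ1 B w0 (2 * C + 8))).and
    ((hpow.eventually (ev_logge (c4 * (1 + c2 * 2 ^ (2 * C + 24))))).and
    ((hpow.eventually (ev_logge 1)).and (eventually_ge_atTop 1)))).exists_forall_of_atTop
  set Ω : Set ℝ := Set.Icc w0 (w0 + 1) with hΩ
  -- the index sets
  obtain ⟨I, hI⟩ : ∃ I : ℕ → Finset ℕ, ∀ j, I j = (range (Im k δ (2 ^ j))).filter (fun i =>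
    Real.log ((2 ^ j : ℕ) : ℝ) ^ (2 * C + 24) ≤ 2 ^ (2 * C + 24) * (gy δ i : ℝ)) := ⟨_, fun _ => rfl⟩
  obtain ⟨G, hG⟩ : ∃ G : ℕ → ℝ → ℝ≥0∞, ∀ j w, G j w =
    ENNReal.ofReal (Real.log ((2 ^ (j + j0) : ℕ) : ℝ) ^ (2 * C + 4) / ((2 ^ (j + j0) : ℕ) : ℝ)) *
      ∑ i ∈ I (j + j0), ENNReal.ofReal (Ph k δ B (2 ^ (j + j0)) (gy δ i) w) := ⟨_, fun _ _ => rfl⟩
  have hGm : ∀ j, Measurable (G j) := by
    intro j
    have : G j = fun w => ENNReal.ofReal (Real.log ((2 ^ (j + j0) : ℕ) : ℝ) ^ (2 * C + 4) / ((2 ^ (j + j0) : ℕ) : ℝ)) *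
      ∑ i ∈ I (j + j0), ENNReal.ofReal (Ph k δ B (2 ^ (j + j0)) (gy δ i) w) := funext (hG j)
    rw [this]
    refine Measurable.const_mul (Finset.measurable_fun_sum _ fun i _ => ?_) _
    exact (Ph_meas k δ B _ _).ennreal_ofReal
  have hGi : ∀ j, ∫⁻ w in Ω, G j w ≤ ENNReal.ofReal (1 / Real.log ((2 ^ (j + j0) : ℕ) : ℝ) ^ 2) := by
    intro j
    obtain ⟨a1, a2, a3, a4⟩ := hj0 (j + j0) (by omega)
    obtain ⟨M, hM⟩ : ∃ M, M = 2 ^ (j + j0) := ⟨_, rfl⟩
    simp only [hG]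
    rw [hI]
    simp only [← hM] at a1 a2 a3 ⊢
    have hM1 : 1 ≤ M := by
      rw [hM]
      exact Nat.one_le_two_pow
    have hM0 : (0 : ℝ) < M := by exact_mod_cast hM1
    obtain ⟨L, hL⟩ : ∃ L, L = Real.log (M : ℝ) := ⟨_, rfl⟩
    simp only [← hL] at a1 a2 a3 ⊢
    have hL0 : 0 < L := by linarith
    rw [lintegral_const_mul _ (Finset.measurable_fun_sum _ fun i _ => (Ph_meas k δ B _ _).ennreal_ofReal),
      lintegral_finsetSum _ fun i _ => (Ph_meas k δ B _ _).ennreal_ofReal]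
    have e1 : ∀ i ∈ (range (Im k δ M)).filter (fun i => L ^ (2 * C + 24) ≤ 2 ^ (2 * C + 24) * (gy δ i : ℝ)),
        ∫⁻ w in Ω, ENNReal.ofReal (Ph k δ B M (gy δ i) w) ≤
          ENNReal.ofReal (M * ((1 + c2 * 2 ^ (2 * C + 24)) / L ^ (2 * C + 8))) := by
      intro i hi
      rw [Finset.mem_filter] at hi
      have hgy : (0 : ℝ) < gy δ i := by exact_mod_cast gy_pos hδ i
      refine (a1 (gy δ i) (gy_pos hδ i)).trans (ENNReal.ofReal_le_ofReal ?_)
      apply mul_le_mul_of_nonneg_left _ hM0.le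
      rw [← hc2, add_div]
      apply add_le_add le_rfl
      rw [mul_div_assoc]
      apply mul_le_mul_of_nonneg_left _ hc20.le
      rw [div_le_div_iff₀ hgy (by positivity), ← pow_add]
      calc L ^ (16 + (2 * C + 8)) = L ^ (2 * C + 24) := by
            congr 1
            ring
        _ ≤ _ := hi.2
    refine (mul_le_mul_right (Finset.sum_le_sum e1) _).trans ?_
    rw [← ENNReal.ofReal_sum_of_nonneg fun _ _ => by positivity, ← ENNReal.ofReal_mul (by positivity)]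
    apply ENNReal.ofReal_le_ofReal
    rw [Finset.sum_const, nsmul_eq_mul]
    have e2 : ((((range (Im k δ M)).filter (fun i => L ^ (2 * C + 24) ≤ 2 ^ (2 * C + 24) * (gy δ i : ℝ))).card : ℕ) : ℝ)
        ≤ c4 * L := by
      have b1 := Finset.card_filter_le (range (Im k δ M))
        (fun i => L ^ (2 * C + 24) ≤ 2 ^ (2 * C + 24) * (gy δ i : ℝ))
      rw [Finset.card_range] at b1
      have b2 : ((Im k δ M : ℕ) : ℝ) ≤ c4 * L := by
        unfold Im
        push_cast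
        rw [← hL]
        have b3 := Nat.ceil_lt_add_one (show 0 ≤ k * L / Real.log (1 + δ) by positivity)
        have b4 : c4 * L = k * L / Real.log (1 + δ) + 3 * L := by
          rw [hc4]
          ring
        rw [b4]
        linarith
      exact le_trans (by exact_mod_cast b1) b2
    calc L ^ (2 * C + 4) / M * (_ * (M * ((1 + c2 * 2 ^ (2 * C + 24)) / L ^ (2 * C + 8)))) ≤
          L ^ (2 * C + 4) / M * ((c4 * L) * (M * ((1 + c2 * 2 ^ (2 * C + 24)) / L ^ (2 * C + 8)))) := by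
          apply mul_le_mul_of_nonneg_left _ (by positivity)
          exact mul_le_mul_of_nonneg_right e2 (by positivity)
      _ = c4 * (1 + c2 * 2 ^ (2 * C + 24)) / L ^ 3 := by
          have e5 : L ^ (2 * C + 8) = L ^ (2 * C + 4) * L ^ 4 := by
            rw [← pow_add]
          rw [e5]
          field_simp
      _ ≤ L / L ^ 3 := div_le_div_of_nonneg_right a2 (by positivity)
      _ = 1 / L ^ 2 := by
          field_simp
  have hfin : ∑' j, ∫⁻ w in Ω, G j w ≠ ⊤ := by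
    have h1 : ∑' j, ∫⁻ w in Ω, G j w ≤ ∑' j : ℕ, ENNReal.ofReal (1 / Real.log ((2 ^ (j + j0) : ℕ) : ℝ) ^ 2) :=
      ENNReal.tsum_le_tsum hGi
    have h2 : Summable fun j : ℕ => 1 / Real.log ((2 ^ (j + j0) : ℕ) : ℝ) ^ 2 := by
      have h3 : Summable fun j : ℕ => (1 / Real.log 2 ^ 2) * (1 / ((j : ℝ)) ^ 2) :=
        (Real.summable_one_div_nat_pow.2 (by norm_num)).mul_left _
      have h4 := (summable_nat_add_iff j0).2 h3
      refine h4.congr fun j => ?_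
      push_cast
      rw [Real.log_pow]
      push_cast
      rw [mul_pow]
      field_simp
    have h5 : ∑' j : ℕ, ENNReal.ofReal (1 / Real.log ((2 ^ (j + j0) : ℕ) : ℝ) ^ 2) =
        ENNReal.ofReal (∑' j : ℕ, 1 / Real.log ((2 ^ (j + j0) : ℕ) : ℝ) ^ 2) :=
      (ENNReal.ofReal_tsum_of_nonneg (fun _ => by positivity) h2).symm
    rw [h5] at h1
    exact ne_top_of_le_ne_top ENNReal.ofReal_ne_top h1
  have hae : ∀ᵐ w ∂(volume.restrict Ω), ∑' j, G j w < ⊤ := by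
    apply ae_lt_top (Measurable.ennreal_tsum hGm)
    rw [lintegral_tsum fun j => (hGm j).aemeasurable]
    exact hfin
  filter_upwards [hae] with w hw
  have h1 : Tendsto (fun j => G j w) atTop (𝓝 0) := ENNReal.tendsto_atTop_zero_of_tsum_ne_top hw.ne
  have h2 : ∀ᶠ j in atTop, G j w < 1 := h1.eventually (Iio_mem_nhds one_pos)
  obtain ⟨j1, hj1⟩ := h2.exists_forall_of_atTop
  filter_upwards [eventually_ge_atTop (j1 + j0)] with j hj i hi hgi
  obtain ⟨j', rfl⟩ : ∃ j', j = j' + j0 := ⟨j - j0, by omega⟩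
  have h3 := hj1 j' (by omega)
  obtain ⟨a1, a2, a3, a4⟩ := hj0 (j' + j0) (by omega)
  rw [hG] at h3
  have hmem : i ∈ I (j' + j0) := by
    rw [hI, Finset.mem_filter, Finset.mem_range]
    exact ⟨hi, hgi⟩
  have h4 : ENNReal.ofReal (Real.log ((2 ^ (j' + j0) : ℕ) : ℝ) ^ (2 * C + 4) / ((2 ^ (j' + j0) : ℕ) : ℝ)) *
      ENNReal.ofReal (Ph k δ B (2 ^ (j' + j0)) (gy δ i) w) < 1 := by
    refine lt_of_le_of_lt (mul_le_mul_right ?_ _) h3
    exact Finset.single_le_sum (f := fun i => ENNReal.ofReal (Ph k δ B (2 ^ (j' + j0)) (gy δ i) w))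
      (fun _ _ => bot_le) hmem
  have hM0 : (0 : ℝ) < ((2 ^ (j' + j0) : ℕ) : ℝ) := by positivity
  have hL0 : 0 < Real.log ((2 ^ (j' + j0) : ℕ) : ℝ) := by linarith
  rw [← ENNReal.ofReal_mul (by positivity), ENNReal.ofReal_lt_one, div_mul_eq_mul_div, div_lt_one hM0] at h4
  rw [le_div_iff₀ (by positivity), mul_comm]
  exact h4.le

end Pool.Agent.D0H91.MG
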