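import Mathlib
import Pool.Agent.D0H91.MG.Sv2

/-! The upper bound for arbitrary subsets. -/

set_option autoImplicit false

namespace Pool.Agent.D0H91.MG

open Finset MeasureTheory Filter Topology
open scoped ENNReal
open Pool.Agent.W301.SS (VV mv sel variance nu pn pn_le pn_mono pn_le_VV)

theorem sub_det (k : ℝ) (hk : 0 < k) (δ : ℝ) (hδ : 0 < δ) (hδ1 : δ ≤ 1 / 4) (C : ℕ) (w0 w : ℝ)
    (hw : w ∈ Set.Icc w0 (w0 + 1))
    (h : ∀ᶠ j : ℕ in atTop, ∀ i : ℕ, i < Im k δ (2 ^ j) →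
      Real.log ((2 ^ j : ℕ) : ℝ) ^ (2 * C + 24) ≤ 2 ^ (2 * C + 24) * (gy δ i : ℝ) →
      Ph k δ (C + 2) (2 ^ j) (gy δ i) w ≤ ((2 ^ j : ℕ) : ℝ) / Real.log ((2 ^ j : ℕ) : ℝ) ^ (2 * C + 4)) :
    ∀ᶠ N : ℕ in atTop, ∀ y : ℕ, Real.log N ^ (2 * C + 24) ≤ y → (y : ℝ) ≤ (N : ℝ) ^ k →
      ∀ G : Finset ℕ, G ⊆ Icc 1 N →
      (∑ n ∈ G, (pn ⌊Real.exp (k * w) * (n : ℝ) ^ k⌋₊ y : ℝ)) * (k * Real.log N) ≤
        (4 / (1 - 2 * δ) * G.card + δ * (N / Real.log N ^ C)) * ((1 + 2 * δ) * y) := by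
  obtain ⟨q, hq⟩ : ∃ q : ℕ, q = ⌈k⌉₊ := ⟨_, rfl⟩
  have hkq : k ≤ q := by
    rw [hq]
    exact Nat.le_ceil k
  have hδ4 : 0 < k * (1 - δ) / 4 := by
    have : 0 < 1 - δ := by linarith
    positivity
  have hek : 0 < Real.exp (k * w0) := Real.exp_pos _
  obtain ⟨j0, hj0⟩ := h.exists_forall_of_atTop
  -- facts about the larger dyadic scale
  have hM : ∀ᶠ M : ℕ in atTop, 1 ≤ Real.log M ∧ 1 / Real.exp (k * w0) * Real.log M ^ ((C + 2) * q) ≤ (M : ℝ) ^ (3 * k / 4) ∧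
      3 * Real.log M ^ 0 ≤ (M : ℝ) ^ (k * (1 - δ) / 4) ∧ 4 / (δ * k) ≤ Real.log M := by
    filter_upwards [ev_logge 1, Pool.Agent.W301.SS.ev_log ((C + 2) * q) (1 / Real.exp (k * w0)) (3 * k / 4) (by positivity),
      Pool.Agent.W301.SS.ev_log 0 3 (k * (1 - δ) / 4) hδ4, ev_logge (4 / (δ * k))] with M a1 a2 a3 a4
    exact ⟨a1, a2, a3, a4⟩
  obtain ⟨M0, hM0⟩ := hM.exists_forall_of_atTop
  filter_upwards [ev_logge 1, ev_logge (1 / δ), ev_logge (4 * k / δ), eventually_ge_atTop (2 ^ j0 + 2 + M0)] with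
    N g1 g2 g3 g4 y hy1 hy2 G hG
  have hp0 : 1 ≤ 2 ^ j0 := Nat.one_le_two_pow
  have hN2 : 2 ≤ N := by omega
  have hN0 : (0 : ℝ) < N := by
    have : (2 : ℝ) ≤ N := by exact_mod_cast hN2
    linarith
  have hN1 : (1 : ℝ) ≤ N := by
    have : (2 : ℝ) ≤ N := by exact_mod_cast hN2
    linarith
  obtain ⟨L, hL⟩ : ∃ L, L = Real.log (N : ℝ) := ⟨_, rfl⟩
  simp only [← hL] at g1 g2 g3 hy1 ⊢
  have hL0 : 0 < L := by linarith
  -- the dyadic scale
  obtain ⟨j, hj⟩ : ∃ j, j = Nat.clog 2 N := ⟨_, rfl⟩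
  obtain ⟨M, hMe⟩ : ∃ M, M = 2 ^ j := ⟨_, rfl⟩
  have hNM : N ≤ M := by
    rw [hMe, hj]
    exact Nat.le_pow_clog (by norm_num) N
  have hMN : M ≤ 2 * N := by
    have h1 : 2 ^ (j - 1) < N := by
      have := Nat.pow_pred_clog_lt_self (b := 2) (by norm_num) (x := N) (by omega)
      rw [← hj] at this
      exact this
    have h2 : 1 ≤ j := by
      rw [hj]
      exact Nat.clog_pos (by norm_num) hN2
    have h3 : 2 ^ j = 2 * 2 ^ (j - 1) := by
      rw [← pow_succ']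
      congr 1
      omega
    rw [hMe, h3]
    omega
  have hj0j : j0 ≤ j := by
    by_contra hcon
    push Not at hcon
    have h1 : 2 ^ j ≤ 2 ^ j0 := Nat.pow_le_pow_right (by norm_num) hcon.le
    rw [← hMe] at h1
    omega
  have hMr1 : (N : ℝ) ≤ M := by exact_mod_cast hNM
  have hMr2 : (M : ℝ) ≤ 2 * N := by exact_mod_cast hMN
  have hMpos : (0 : ℝ) < M := by linarith
  have hph := hj0 j hj0j
  rw [← hMe] at hph
  obtain ⟨b1, b2, b3, b4⟩ := hM0 M (by omega)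
  obtain ⟨ℓ, hℓ⟩ : ∃ ℓ, ℓ = Real.log (M : ℝ) := ⟨_, rfl⟩
  simp only [← hℓ] at b1 b2 b3 b4 hph
  have hℓ0 : 0 < ℓ := by linarith
  have hLℓ : L ≤ ℓ := by
    rw [hL, hℓ]
    exact Real.log_le_log hN0 hMr1
  have hℓL : ℓ ≤ 2 * L := by
    have h1 := Real.log_le_log hMpos hMr2
    rw [Real.log_mul (by norm_num) hN0.ne', ← hL, ← hℓ] at h1
    have := Real.log_two_lt_d9
    linarith
  -- the length
  have hyL : L ≤ y := by
    refine le_trans ?_ hy1
    calc L = L ^ 1 := (pow_one L).symm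
      _ ≤ L ^ (2 * C + 24) := pow_le_pow_right₀ g1 (by omega)
  have hyδ : 1 ≤ δ * y := by
    rw [div_le_iff₀ hδ] at g2
    nlinarith
  have hy1' : (1 : ℝ) ≤ y := by linarith
  have hy0 : (0 : ℝ) < y := by linarith
  obtain ⟨n0, hn0, hn1⟩ := exists_nat_pow_near hy1' (show (1 : ℝ) < 1 + δ by linarith)
  obtain ⟨z, hz⟩ : ∃ z, z = gy δ (n0 + 1) := ⟨_, rfl⟩
  have hzy : y ≤ z := by
    have h1 : (y : ℝ) ≤ z := by
      rw [hz]
      unfold gy
      exact hn1.le.trans (Nat.le_ceil _)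
    exact_mod_cast h1
  have hzy2 : (z : ℝ) ≤ (1 + 2 * δ) * y := by
    have h1 := Nat.ceil_lt_add_one (show 0 ≤ (1 + δ) ^ (n0 + 1) by positivity)
    rw [hz]
    unfold gy
    have h2 : (1 + δ) ^ (n0 + 1) ≤ (1 + δ) * y := by
      rw [pow_succ, mul_comm]
      exact mul_le_mul_of_nonneg_left hn0 (by linarith)
    linarith
  have hz1 : 1 ≤ z := by
    rw [hz]
    exact gy_pos hδ _
  have hz0 : (0 : ℝ) < z := by exact_mod_cast hz1
  have hIm : n0 + 1 < Im k δ M := by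
    unfold Im
    rw [← hℓ]
    have hlδ : 0 < Real.log (1 + δ) := Real.log_pos (by linarith)
    have h1 : (n0 : ℝ) * Real.log (1 + δ) ≤ k * ℓ := by
      have h2 := Real.log_le_log (by positivity) (hn0.trans hy2)
      rw [Real.log_pow, Real.log_rpow hN0, ← hL] at h2
      have h3 : k * L ≤ k * ℓ := mul_le_mul_of_nonneg_left hLℓ hk.le
      linarith
    have h2 : n0 ≤ ⌈k * ℓ / Real.log (1 + δ)⌉₊ := by
      have h3 : (n0 : ℝ) ≤ k * ℓ / Real.log (1 + δ) := by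
        rw [le_div_iff₀ hlδ]
        exact h1
      exact_mod_cast h3.trans (Nat.le_ceil _)
    omega
  have hPh := hph (n0 + 1) hIm (by
    rw [← hz]
    calc ℓ ^ (2 * C + 24) ≤ (2 * L) ^ (2 * C + 24) := pow_le_pow_left₀ hℓ0.le hℓL _
      _ = 2 ^ (2 * C + 24) * L ^ (2 * C + 24) := by rw [mul_pow]
      _ ≤ 2 ^ (2 * C + 24) * (z : ℝ) := by
          apply mul_le_mul_of_nonneg_left _ (by positivity)
          exact hy1.trans (by exact_mod_cast hzy))
  rw [← hz] at hPh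
  -- the level
  obtain ⟨D, hD⟩ : ∃ D, D = DM k δ M := ⟨_, rfl⟩
  rw [pow_zero, mul_one] at b3
  have hD3 : 3 ≤ D := by
    rw [hD]
    unfold DM
    exact Nat.le_floor (by exact_mod_cast b3)
  have hDle : (D : ℝ) ≤ (M : ℝ) ^ (k * (1 - δ) / 4) := by
    rw [hD]
    exact Nat.floor_le (by positivity)
  have hDge : (M : ℝ) ^ (k * (1 - δ) / 4) ≤ 2 * D := by
    have h1 : (M : ℝ) ^ (k * (1 - δ) / 4) < (D : ℝ) + 1 := by
      rw [hD]
      exact Nat.lt_floor_add_one _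
    have h2 : (1 : ℝ) ≤ D := by exact_mod_cast (by omega : 1 ≤ D)
    linarith
  have hD1 : (3 : ℝ) ≤ D := by exact_mod_cast hD3
  have hM1 : (1 : ℝ) ≤ M := by linarith
  obtain ⟨l1, l2, l3, l4, l5⟩ := lw_spec D hD3
  have hlogD : (1 - 2 * δ) / 4 * (k * ℓ) ≤ Real.log D := by
    have a1 := Real.log_le_log (by positivity) hDge
    rw [Real.log_rpow hMpos, Real.log_mul (by norm_num) (by linarith), ← hℓ] at a1
    have a2 := Real.log_two_lt_d9
    have a3 : 1 ≤ δ * k * ℓ / 4 := by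
      rw [div_le_iff₀ (by positivity)] at b4
      linarith
    have a4 : k * (1 - δ) / 4 * ℓ = (1 - 2 * δ) / 4 * (k * ℓ) + δ * k * ℓ / 4 := by ring
    linarith
  have hmvk : mv (lw D) D * (k * L) ≤ 4 / (1 - 2 * δ) := by
    have hpos : 0 < (1 - 2 * δ) / 4 * (k * ℓ) := by
      have : 0 < 1 - 2 * δ := by linarith
      positivity
    have hne : 1 - 2 * δ ≠ 0 := by
      have : 0 < 1 - 2 * δ := by linarith
      exact this.ne'
    calc mv (lw D) D * (k * L) ≤ mv (lw D) D * (k * ℓ) :=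
          mul_le_mul_of_nonneg_left (mul_le_mul_of_nonneg_left hLℓ hk.le) l3
      _ ≤ (1 / Real.log D) * (k * ℓ) := mul_le_mul_of_nonneg_right l4 (by positivity)
      _ ≤ (1 / ((1 - 2 * δ) / 4 * (k * ℓ))) * (k * ℓ) :=
          mul_le_mul_of_nonneg_right (one_div_le_one_div_of_le hpos hlogD) (by positivity)
      _ = 4 / (1 - 2 * δ) := by
          field_simp
  -- the two parts of the sum
  set e : ℕ → ℕ := fun n => ⌊Real.exp (k * w) * (n : ℝ) ^ k⌋₊ with he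
  have hsum : ∑ n ∈ G, (pn (e n) y : ℝ) ≤
      z * (G.card * mv (lw D) D + M / ℓ ^ (C + 2) + M / ℓ ^ (C + 2)) := by
    rw [← sum_filter_add_sum_filter_not G (fun n : ℕ => (M : ℝ) ≤ n * ℓ ^ (C + 2))]
    have p1 : ∑ n ∈ G.filter (fun n : ℕ => (M : ℝ) ≤ n * ℓ ^ (C + 2)), (pn (e n) y : ℝ) ≤
        z * (G.card * mv (lw D) D + M / ℓ ^ (C + 2)) := by
      have q1 : ∀ n ∈ G.filter (fun n : ℕ => (M : ℝ) ≤ n * ℓ ^ (C + 2)), (pn (e n) y : ℝ) ≤
          z * (mv (lw D) D + |VV (lw D) D z (e n) - mv (lw D) D|) := by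
        intro n hn
        rw [Finset.mem_filter] at hn
        have hnN := Finset.mem_Icc.1 (hG hn.1)
        have hn1' : (1 : ℝ) ≤ n := by exact_mod_cast hnN.1
        have hn0' : (0 : ℝ) < n := by linarith
        have hMk : (M : ℝ) ^ k ≤ (n : ℝ) ^ k * ℓ ^ ((C + 2) * q) := by
          calc (M : ℝ) ^ k ≤ (n * ℓ ^ (C + 2)) ^ k := Real.rpow_le_rpow hMpos.le hn.2 hk.le
            _ = (n : ℝ) ^ k * (ℓ ^ (C + 2)) ^ k := Real.mul_rpow hn0'.le (by positivity)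
            _ ≤ (n : ℝ) ^ k * ℓ ^ ((C + 2) * q) := by
                apply mul_le_mul_of_nonneg_left _ (by positivity)
                rw [pow_mul, ← Real.rpow_natCast (ℓ ^ (C + 2)) q]
                exact Real.rpow_le_rpow_of_exponent_le (one_le_pow₀ b1) hkq
        have hDe : D ≤ e n := by
          rw [he]
          apply Nat.le_floor
          have c1 : (M : ℝ) ^ (k / 4) * (M : ℝ) ^ (3 * k / 4) = (M : ℝ) ^ k := by
            rw [← Real.rpow_add hMpos]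
            congr 1
            ring
          have c2 : (D : ℝ) ≤ (M : ℝ) ^ (k / 4) := by
            refine hDle.trans (Real.rpow_le_rpow_of_exponent_le hM1 ?_)
            nlinarith
          have c3 : Real.exp (k * w0) ≤ Real.exp (k * w) :=
            Real.exp_le_exp.2 (mul_le_mul_of_nonneg_left hw.1 hk.le)
          have c4 : (M : ℝ) ^ (k / 4) * (1 / Real.exp (k * w0) * ℓ ^ ((C + 2) * q)) ≤
              (n : ℝ) ^ k * ℓ ^ ((C + 2) * q) := by
            calc _ ≤ (M : ℝ) ^ (k / 4) * (M : ℝ) ^ (3 * k / 4) := mul_le_mul_of_nonneg_left b2 (by positivity)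
              _ = (M : ℝ) ^ k := c1
              _ ≤ _ := hMk
          have c5 : (M : ℝ) ^ (k / 4) * (1 / Real.exp (k * w0)) ≤ (n : ℝ) ^ k := by
            rw [← mul_assoc] at c4
            exact le_of_mul_le_mul_right c4 (by positivity)
          rw [mul_one_div, div_le_iff₀ hek] at c5
          calc (D : ℝ) ≤ (M : ℝ) ^ (k / 4) := c2
            _ ≤ (n : ℝ) ^ k * Real.exp (k * w0) := c5
            _ ≤ Real.exp (k * w) * (n : ℝ) ^ k := by
                rw [mul_comm]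
                exact mul_le_mul_of_nonneg_right c3 (by positivity)
        have d1 : (pn (e n) y : ℝ) ≤ pn (e n) z := by exact_mod_cast pn_mono hzy
        have d2 := pn_le_VV l1 (D := D) (by omega) hz1 hDe
        rw [div_le_iff₀ hz0] at d2
        have d3 := le_abs_self (VV (lw D) D z (e n) - mv (lw D) D)
        nlinarith
      refine (Finset.sum_le_sum q1).trans ?_
      rw [← Finset.mul_sum]
      apply mul_le_mul_of_nonneg_left _ hz0.le
      rw [Finset.sum_add_distrib, Finset.sum_const, nsmul_eq_mul]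
      apply add_le_add
      · apply mul_le_mul_of_nonneg_right _ l3
        exact_mod_cast Finset.card_filter_le _ _
      · calc ∑ n ∈ G.filter (fun n : ℕ => (M : ℝ) ≤ n * ℓ ^ (C + 2)), |VV (lw D) D z (e n) - mv (lw D) D| ≤
              ∑ n ∈ (Icc 1 M).filter (fun n : ℕ => (M : ℝ) ≤ n * ℓ ^ (C + 2)), |VV (lw D) D z (e n) - mv (lw D) D| := by
              apply Finset.sum_le_sum_of_subset_of_nonneg
              · apply Finset.filter_subset_filter
                refine hG.trans (Finset.Icc_subset_Icc le_rfl hNM)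
              · intro _ _ _
                exact abs_nonneg _
          _ ≤ √((((Icc 1 M).filter (fun n : ℕ => (M : ℝ) ≤ n * ℓ ^ (C + 2))).card : ℝ)) *
              √(∑ n ∈ (Icc 1 M).filter (fun n : ℕ => (M : ℝ) ≤ n * ℓ ^ (C + 2)), (VV (lw D) D z (e n) - mv (lw D) D) ^ 2) := by
              have h5 := Real.sum_mul_le_sqrt_mul_sqrt ((Icc 1 M).filter (fun n : ℕ => (M : ℝ) ≤ n * ℓ ^ (C + 2)))
                (fun _ => (1 : ℝ)) (fun n => |VV (lw D) D z (e n) - mv (lw D) D|)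
              simp only [one_mul, one_pow, sum_const, nsmul_eq_mul, mul_one, sq_abs] at h5
              exact h5
          _ ≤ √(M : ℝ) * √((M : ℝ) / ℓ ^ (2 * C + 4)) := by
              apply mul_le_mul _ _ (Real.sqrt_nonneg _) (Real.sqrt_nonneg _)
              · apply Real.sqrt_le_sqrt
                have h1 := Finset.card_filter_le (Icc 1 M) (fun n : ℕ => (M : ℝ) ≤ n * ℓ ^ (C + 2))
                rw [Nat.card_Icc, Nat.add_sub_cancel] at h1
                exact_mod_cast h1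
              · apply Real.sqrt_le_sqrt
                refine le_trans (le_of_eq ?_) hPh
                unfold Ph
                rw [← hD, ← hℓ]
          _ = M / ℓ ^ (C + 2) := by
              rw [← Real.sqrt_mul hMpos.le]
              have e1 : (M : ℝ) * (M / ℓ ^ (2 * C + 4)) = (M / ℓ ^ (C + 2)) ^ 2 := by
                rw [div_pow, ← pow_mul]
                have : (C + 2) * 2 = 2 * C + 4 := by ring
                rw [this]
                ring
              rw [e1, Real.sqrt_sq (by positivity)]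
    have p2 : ∑ n ∈ G.filter (fun n : ℕ => ¬ ((M : ℝ) ≤ n * ℓ ^ (C + 2))), (pn (e n) y : ℝ) ≤
        z * (M / ℓ ^ (C + 2)) := by
      have q1 : ∀ n ∈ G.filter (fun n : ℕ => ¬ ((M : ℝ) ≤ n * ℓ ^ (C + 2))), (pn (e n) y : ℝ) ≤ z := by
        intro n _
        exact_mod_cast (pn_le _ _).trans hzy
      refine (Finset.sum_le_sum q1).trans ?_
      rw [Finset.sum_const, nsmul_eq_mul, mul_comm]
      apply mul_le_mul_of_nonneg_left _ hz0.le
      have a1 : G.filter (fun n : ℕ => ¬ ((M : ℝ) ≤ n * ℓ ^ (C + 2))) ⊆ Icc 1 ⌊(M : ℝ) / ℓ ^ (C + 2)⌋₊ := by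
        intro n hn
        rw [Finset.mem_filter, not_le] at hn
        have hnN := Finset.mem_Icc.1 (hG hn.1)
        rw [Finset.mem_Icc]
        refine ⟨hnN.1, Nat.le_floor ?_⟩
        rw [le_div_iff₀ (by positivity)]
        exact hn.2.le
      have a2 := Finset.card_le_card a1
      rw [Nat.card_Icc, Nat.add_sub_cancel] at a2
      calc _ ≤ ((⌊(M : ℝ) / ℓ ^ (C + 2)⌋₊ : ℕ) : ℝ) := by exact_mod_cast a2
        _ ≤ _ := Nat.floor_le (by positivity)
    refine (add_le_add p1 p2).trans (le_of_eq ?_)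
    ring
  have hgc : (0 : ℝ) ≤ G.card := Nat.cast_nonneg _
  have hdiv : 0 < 1 - 2 * δ := by linarith
  have hfin : (M / ℓ ^ (C + 2) + M / ℓ ^ (C + 2)) * (k * L) ≤ δ * (N / L ^ C) := by
    have t1 : (M : ℝ) / ℓ ^ (C + 2) ≤ 2 * N / L ^ (C + 2) := by
      apply div_le_div₀ (by positivity) hMr2 (by positivity) (pow_le_pow_left₀ hL0.le hLℓ _)
    calc (M / ℓ ^ (C + 2) + M / ℓ ^ (C + 2)) * (k * L) ≤ (2 * N / L ^ (C + 2) + 2 * N / L ^ (C + 2)) * (k * L) := by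
          apply mul_le_mul_of_nonneg_right _ (by positivity)
          linarith
      _ = (4 * k / L) * (N / L ^ C) := by
          rw [show C + 2 = C + 1 + 1 by ring, pow_succ, pow_succ]
          field_simp
          ring
      _ ≤ δ * (N / L ^ C) := by
          apply mul_le_mul_of_nonneg_right _ (by positivity)
          rw [div_le_iff₀ hL0]
          rw [div_le_iff₀ hδ] at g3
          linarith
  calc (∑ n ∈ G, (pn (e n) y : ℝ)) * (k * L) ≤
        (z * (G.card * mv (lw D) D + M / ℓ ^ (C + 2) + M / ℓ ^ (C + 2))) * (k * L) :=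
        mul_le_mul_of_nonneg_right hsum (by positivity)
    _ = z * (G.card * (mv (lw D) D * (k * L)) + (M / ℓ ^ (C + 2) + M / ℓ ^ (C + 2)) * (k * L)) := by ring
    _ ≤ z * (G.card * (4 / (1 - 2 * δ)) + δ * (N / L ^ C)) := by
        apply mul_le_mul_of_nonneg_left _ hz0.le
        exact add_le_add (mul_le_mul_of_nonneg_left hmvk hgc) hfin
    _ ≤ ((1 + 2 * δ) * y) * (G.card * (4 / (1 - 2 * δ)) + δ * (N / L ^ C)) :=
        mul_le_mul_of_nonneg_right hzy2 (by positivity)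
    _ = _ := by ring

/-- **The upper bound for all subsets, for almost every dilation.** -/
theorem subs (k : ℝ) (hk : 0 < k) (C : ℕ) :
    ∀ᵐ w : ℝ, ∀ ε : ℝ, 0 < ε → ∀ᶠ N : ℕ in atTop, ∀ y : ℕ, Real.log N ^ (2 * C + 24) ≤ y →
      (y : ℝ) ≤ (N : ℝ) ^ k → ∀ G : Finset ℕ, G ⊆ Icc 1 N →
      (∑ n ∈ G, (pn ⌊Real.exp (k * w) * (n : ℝ) ^ k⌋₊ y : ℝ)) * (k * Real.log N) ≤
        ((4 + ε) * G.card + ε * (N / Real.log N ^ C)) * y := by
  have h1 : ∀ᵐ w : ℝ, ∀ m : ℕ, ∀ᶠ N : ℕ in atTop, ∀ y : ℕ, Real.log N ^ (2 * C + 24) ≤ y → (y : ℝ) ≤ (N : ℝ) ^ k →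
      ∀ G : Finset ℕ, G ⊆ Icc 1 N →
      (∑ n ∈ G, (pn ⌊Real.exp (k * w) * (n : ℝ) ^ k⌋₊ y : ℝ)) * (k * Real.log N) ≤
        (4 / (1 - 2 * (1 / ((m : ℝ) + 4))) * G.card + (1 / ((m : ℝ) + 4)) * (N / Real.log N ^ C)) *
          ((1 + 2 * (1 / ((m : ℝ) + 4))) * y) := by
    rw [ae_all_iff]
    intro m
    obtain ⟨δ, hδe⟩ : ∃ δ : ℝ, δ = 1 / ((m : ℝ) + 4) := ⟨_, rfl⟩
    rw [← hδe]
    have hδ : 0 < δ := by
      rw [hδe]
      positivity
    have hδ1 : δ ≤ 1 / 4 := by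
      rw [hδe]
      apply one_div_le_one_div_of_le (by norm_num)
      have : (0 : ℝ) ≤ m := Nat.cast_nonneg m
      linarith
    have h2 : ∀ z : ℤ, ∀ᵐ w ∂(volume.restrict (Set.Icc (z : ℝ) (z + 1))), ∀ᶠ N : ℕ in atTop, ∀ y : ℕ,
        Real.log N ^ (2 * C + 24) ≤ y → (y : ℝ) ≤ (N : ℝ) ^ k → ∀ G : Finset ℕ, G ⊆ Icc 1 N →
        (∑ n ∈ G, (pn ⌊Real.exp (k * w) * (n : ℝ) ^ k⌋₊ y : ℝ)) * (k * Real.log N) ≤
        (4 / (1 - 2 * δ) * G.card + δ * (N / Real.log N ^ C)) * ((1 + 2 * δ) * y) := by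
      intro z
      have h3 := Ph_ae k hk δ hδ hδ1 (C + 2) C z
      filter_upwards [h3, ae_restrict_mem measurableSet_Icc] with w hw1 hw2
      exact sub_det k hk δ hδ hδ1 C z w hw2 hw1
    have h3 : (⋃ z : ℤ, Set.Icc (z : ℝ) (z + 1)) = Set.univ := by
      rw [Set.eq_univ_iff_forall]
      intro w
      rw [Set.mem_iUnion]
      exact ⟨⌊w⌋, Int.floor_le w, (Int.lt_floor_add_one w).le⟩
    have h4 := (ae_restrict_iUnion_iff (fun z : ℤ => Set.Icc (z : ℝ) (z + 1)) _).2 h2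
    rw [h3, Measure.restrict_univ] at h4
    exact h4
  filter_upwards [h1] with w hw ε hε
  -- choose `δ`
  have hlim : Tendsto (fun m : ℕ => 1 / ((m : ℝ) + 4)) atTop (𝓝 0) := by
    have h5 : Tendsto (fun m : ℕ => (m : ℝ) + 4) atTop atTop :=
      tendsto_atTop_add_const_right _ _ tendsto_natCast_atTop_atTop
    have := h5.inv_tendsto_atTop
    refine this.congr fun m => ?_
    rw [Pi.inv_apply, one_div]
  have hl1 : Tendsto (fun δ : ℝ => 4 / (1 - 2 * δ) * (1 + 2 * δ)) (𝓝 0) (𝓝 (4 / (1 - 2 * 0) * (1 + 2 * 0))) := by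
    apply Tendsto.mul
    · apply Tendsto.div tendsto_const_nhds
      · apply Continuous.tendsto
        fun_prop
      · norm_num
    · apply Continuous.tendsto
      fun_prop
  have hl2 : Tendsto (fun δ : ℝ => δ * (1 + 2 * δ)) (𝓝 0) (𝓝 (0 * (1 + 2 * 0))) := by
    apply Continuous.tendsto
    fun_prop
  norm_num at hl1 hl2
  have e1 := (hl1.comp hlim).eventually (Iio_mem_nhds (show (4 : ℝ) < 4 + ε by linarith))
  have e2 := (hl2.comp hlim).eventually (Iio_mem_nhds hε)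
  obtain ⟨m, hm1, hm2⟩ := (e1.and e2).exists
  have hm1' : 4 / (1 - 2 * (1 / ((m : ℝ) + 4))) * (1 + 2 * (1 / ((m : ℝ) + 4))) < 4 + ε := hm1
  have hm2' : 1 / ((m : ℝ) + 4) * (1 + 2 * (1 / ((m : ℝ) + 4))) < ε := hm2
  filter_upwards [hw m, ev_logge 1] with N h5 h6 y hy1 hy2 G hG
  refine (h5 y hy1 hy2 G hG).trans ?_
  have hL0 : 0 < Real.log (N : ℝ) := by linarith
  have c1 : (0 : ℝ) ≤ G.card := Nat.cast_nonneg _
  have c2 : (0 : ℝ) ≤ N / Real.log N ^ C := by positivity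
  have c3 : (0 : ℝ) ≤ y := Nat.cast_nonneg _
  obtain ⟨δ, hδe⟩ : ∃ δ : ℝ, δ = 1 / ((m : ℝ) + 4) := ⟨_, rfl⟩
  rw [← hδe] at hm1' hm2' ⊢
  calc (4 / (1 - 2 * δ) * G.card + δ * (N / Real.log N ^ C)) * ((1 + 2 * δ) * y) =
        ((4 / (1 - 2 * δ) * (1 + 2 * δ)) * G.card + (δ * (1 + 2 * δ)) * (N / Real.log N ^ C)) * y := by ring
    _ ≤ ((4 + ε) * G.card + ε * (N / Real.log N ^ C)) * y := by
        apply mul_le_mul_of_nonneg_right _ c3
        exact add_le_add (mul_le_mul_of_nonneg_right hm1'.le c1) (mul_le_mul_of_nonneg_right hm2'.le c2)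

end Pool.Agent.D0H91.MG
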