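import Mathlib
import Pool.Agent.D0H91.MG.Sv3
import Pool.Agent.D0H91.MG.Asy

/-! Primes in the intervals `(α n ^ k, α n ^ k + y]`, `n` in a dense set: average and frequency. -/

set_option autoImplicit false

namespace Pool.Agent.D0H91.MG

open Finset MeasureTheory Filter Topology
open Pool.Agent.W301.SS (om om_nonneg pn pn_le pn_mono)

open Classical in
/-- the elements of `A` up to `N` -/
noncomputable def At (A : Set ℕ) (N : ℕ) : Finset ℕ := (Icc 1 N).filter (· ∈ A)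

theorem mem_At {A : Set ℕ} {N n : ℕ} : n ∈ At A N ↔ (1 ≤ n ∧ n ≤ N) ∧ n ∈ A := by
  classical
  unfold At
  simp only [Finset.mem_filter, Finset.mem_Icc]

theorem At_sub (A : Set ℕ) (N : ℕ) : At A N ⊆ Icc 1 N := fun _ hn => Finset.mem_Icc.2 (mem_At.1 hn).1

/-- the sum of `log p` over the primes of `(m, m + y]` -/
noncomputable def th (m y : ℕ) : ℝ := ∑ p ∈ Ioc m (m + y), om p

theorem th_up (m y : ℕ) (c : ℝ) (hc : 0 ≤ c) (h : ∀ p : ℕ, m < p → p ≤ m + y → Real.log p ≤ c) :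
    th m y ≤ pn m y * c := by
  unfold th pn
  have e : ∑ p ∈ Ioc m (m + y), om p = ∑ p ∈ (Ioc m (m + y)).filter Nat.Prime, Real.log p := by
    rw [Finset.sum_filter]
    rfl
  rw [e]
  calc ∑ p ∈ (Ioc m (m + y)).filter Nat.Prime, Real.log p ≤ ∑ p ∈ (Ioc m (m + y)).filter Nat.Prime, c := by
        refine Finset.sum_le_sum fun p hp => ?_
        rw [Finset.mem_filter, Finset.mem_Ioc] at hp
        exact h p hp.1.1 hp.1.2
    _ = _ := by rw [Finset.sum_const, nsmul_eq_mul]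

theorem th_low (m y : ℕ) (c : ℝ) (h : ∀ p : ℕ, m < p → p ≤ m + y → c ≤ Real.log p) :
    pn m y * c ≤ th m y := by
  unfold th pn
  have e : ∑ p ∈ Ioc m (m + y), om p = ∑ p ∈ (Ioc m (m + y)).filter Nat.Prime, Real.log p := by
    rw [Finset.sum_filter]
    rfl
  rw [e]
  calc _ = ∑ p ∈ (Ioc m (m + y)).filter Nat.Prime, c := by rw [Finset.sum_const, nsmul_eq_mul]
    _ ≤ ∑ p ∈ (Ioc m (m + y)).filter Nat.Prime, Real.log p := by
        refine Finset.sum_le_sum fun p hp => ?_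
        rw [Finset.mem_filter, Finset.mem_Ioc] at hp
        exact h p hp.1.1 hp.1.2

theorem th_nonneg (m y : ℕ) : 0 ≤ th m y := Finset.sum_nonneg fun _ _ => om_nonneg _

theorem Ws_tb (y : ℕ) (x : ℝ) : Ws tb 0 y x = ((th ⌊x⌋₊ y - y : ℝ) : ℂ) := by
  unfold Ws th tb
  rw [sub_zero]
  push_cast
  rw [Finset.sum_sub_distrib, Finset.sum_const, Nat.card_Ioc, Nat.add_sub_cancel_left, nsmul_eq_mul, mul_one]

/-- **the average number of primes** -/
theorem first (k : ℝ) (hk : 0 < k) (A : Set ℕ) (C : ℕ) (c : ℝ) (hc : 0 < c)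
    (hA : ∀ᶠ N : ℕ in atTop, c * (N / Real.log N ^ C) ≤ (At A N).card) :
    ∀ᵐ α : ℝ, 0 < α → ∀ ε η : ℝ, 0 < ε → 0 < η → ∀ᶠ N : ℕ in atTop, ∀ y : ℕ, 1 ≤ y →
      (y : ℝ) ≤ (N : ℝ) ^ (k * (1 - η)) →
      |(∑ n ∈ At A N, (pn ⌊α * (n : ℝ) ^ k⌋₊ y : ℝ)) * (k * Real.log N) - (At A N).card * y| ≤
        ε * ((At A N).card * y) := by
  classical
  filter_upwards [engine tb tb_le tb_neg k hk 0 le_rfl zero_le_one (fun n => if n ∈ A then 1 else 0) (fun n => by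
    split_ifs <;> simp)] with α hα hα0 ε' η hε' hη
  obtain ⟨ε, hεe⟩ : ∃ ε, ε = min ε' 1 := ⟨_, rfl⟩
  have hε0 : 0 < ε := by
    rw [hεe]
    exact lt_min hε' one_pos
  have hε1 : ε ≤ 1 := by
    rw [hεe]
    exact min_le_right _ _
  have hεε : ε ≤ ε' := by
    rw [hεe]
    exact min_le_left _ _
  obtain ⟨a, ha⟩ : ∃ a, a = Real.log (α + 1) := ⟨_, rfl⟩
  have ha0 : 0 ≤ a := by
    rw [ha]
    exact Real.log_nonneg (by linarith)
  filter_upwards [hα hα0 (C + 1) η hη, hA, ev_logge 1, ev_logge (8 / (c * ε)), ev_logge (8 * k / (c * ε)),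
    ev_logge (8 * a / (k * ε)), ev_loglog (|Real.log α| + (C + 2) * k) (ε / 8 * k) (by positivity),
    eventually_ge_atTop 1] with N h1 h2 g1 g2 g3 g4 g5 g6 y hy hyN
  have hN1 : (1 : ℝ) ≤ N := by exact_mod_cast g6
  have hN0 : (0 : ℝ) < N := by linarith
  obtain ⟨L, hL⟩ : ∃ L, L = Real.log (N : ℝ) := ⟨_, rfl⟩
  simp only [← hL] at h1 h2 g1 g2 g3 g4 g5 ⊢
  have hL0 : 0 < L := by linarith
  have hy1 : (1 : ℝ) ≤ y := by exact_mod_cast hy
  have hy0 : (0 : ℝ) < y := by linarith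
  obtain ⟨P, hP⟩ : ∃ P : ℝ, P = (At A N).card := ⟨_, rfl⟩
  have hP0 : 0 ≤ P := by
    rw [hP]
    exact Nat.cast_nonneg _
  rw [← hP] at h2 ⊢
  have hNP : N / L ^ C ≤ P / c := by
    rw [le_div_iff₀ hc, mul_comm]
    exact h2
  obtain ⟨T, hT⟩ : ∃ T : ℝ, T = ∑ n ∈ At A N, (pn ⌊α * (n : ℝ) ^ k⌋₊ y : ℝ) := ⟨_, rfl⟩
  obtain ⟨W, hW⟩ : ∃ W : ℝ, W = ∑ n ∈ At A N, th ⌊α * (n : ℝ) ^ k⌋₊ y := ⟨_, rfl⟩
  rw [← hT]
  have hT0 : 0 ≤ T := by
    rw [hT]
    exact Finset.sum_nonneg fun _ _ => Nat.cast_nonneg _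
  -- the engine
  have e1 : |W - P * y| ≤ ε / 8 * (P * y) := by
    have h3 := h1 y hy hyN
    have e2 : ∑ n ∈ Icc 1 N, (if n ∈ A then (1 : ℂ) else 0) * Ws tb 0 y (α * (n : ℝ) ^ k) = ((W - P * y : ℝ) : ℂ) := by
      have e3 : ∑ n ∈ Icc 1 N, (if n ∈ A then (1 : ℂ) else 0) * Ws tb 0 y (α * (n : ℝ) ^ k) =
          ∑ n ∈ At A N, ((th ⌊α * (n : ℝ) ^ k⌋₊ y - y : ℝ) : ℂ) := by
        unfold At
        rw [Finset.sum_filter]
        refine Finset.sum_congr rfl fun n _ => ?_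
        rw [Ws_tb]
        split_ifs <;> simp
      rw [e3, ← Complex.ofReal_sum, Finset.sum_sub_distrib, Finset.sum_const, nsmul_eq_mul, ← hW, ← hP]
    rw [e2, Complex.norm_real, Real.norm_eq_abs] at h3
    refine h3.trans ?_
    have e4 : N * y / L ^ (C + 1) = (N / L ^ C) * (y / L) := by
      rw [pow_succ]
      field_simp
    rw [e4]
    calc (N / L ^ C) * (y / L) ≤ (P / c) * (y / L) := mul_le_mul_of_nonneg_right hNP (by positivity)
      _ = (1 / (c * L)) * (P * y) := by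
          field_simp
      _ ≤ ε / 8 * (P * y) := by
          apply mul_le_mul_of_nonneg_right _ (by positivity)
          rw [div_le_iff₀ (by positivity)] at g2 ⊢
          nlinarith
  -- from `θ` to `π`
  have hyk : (y : ℝ) ≤ (N : ℝ) ^ k := by
    refine hyN.trans (Real.rpow_le_rpow_of_exponent_le hN1 ?_)
    nlinarith
  have hpt : ∀ n ∈ At A N, α * (n : ℝ) ^ k ≤ α * (N : ℝ) ^ k := by
    intro n hn
    apply mul_le_mul_of_nonneg_left _ hα0.le
    exact Real.rpow_le_rpow (Nat.cast_nonneg _) (by exact_mod_cast (mem_At.1 hn).1.2) hk.le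
  have p1 : W ≤ T * (k * L + a) := by
    rw [hW, hT, Finset.sum_mul]
    refine Finset.sum_le_sum fun n hn => ?_
    apply th_up _ _ _ (by positivity)
    intro p hp1 hp2
    have hx0 : 0 ≤ α * (n : ℝ) ^ k := by positivity
    have a1 : (p : ℝ) ≤ (⌊α * (n : ℝ) ^ k⌋₊ : ℝ) + y := by exact_mod_cast hp2
    have a2 : (⌊α * (n : ℝ) ^ k⌋₊ : ℝ) ≤ α * (n : ℝ) ^ k := Nat.floor_le hx0
    have a3 := hpt n hn
    have a4 : (p : ℝ) ≤ (α + 1) * (N : ℝ) ^ k := by linarith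
    have a5 : (0 : ℝ) < p := by
      have : 0 < p := by omega
      exact_mod_cast this
    have a6 := Real.log_le_log a5 a4
    rw [Real.log_mul (by positivity) (by positivity), Real.log_rpow hN0, ← ha, ← hL] at a6
    linarith
  have p2 : (1 - ε / 8) * (k * L) * T ≤ W + (k * L * y) * (N / L ^ (C + 2)) := by
    have q1 : ∀ n ∈ At A N, (1 - ε / 8) * (k * L) * (pn ⌊α * (n : ℝ) ^ k⌋₊ y : ℝ) ≤
        th ⌊α * (n : ℝ) ^ k⌋₊ y + if (n : ℝ) * L ^ (C + 2) < N then k * L * y else 0 := by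
      intro n hn
      have hn1 : (1 : ℝ) ≤ n := by exact_mod_cast (mem_At.1 hn).1.1
      have hn0 : (0 : ℝ) < n := by linarith
      split_ifs with hcon
      · have b1 : (pn ⌊α * (n : ℝ) ^ k⌋₊ y : ℝ) ≤ y := by exact_mod_cast pn_le _ _
        have b2 := th_nonneg ⌊α * (n : ℝ) ^ k⌋₊ y
        have b3 : (1 - ε / 8) * (k * L) * (pn ⌊α * (n : ℝ) ^ k⌋₊ y : ℝ) ≤ (1 * (k * L)) * y := by
          apply mul_le_mul _ b1 (Nat.cast_nonneg _) (by positivity)
          apply mul_le_mul_of_nonneg_right _ (by positivity)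
          linarith
        linarith
      · rw [add_zero, mul_comm]
        apply th_low
        intro p hp1 _
        push Not at hcon
        have hx0 : 0 < α * (n : ℝ) ^ k := by positivity
        have a1 : α * (n : ℝ) ^ k < (⌊α * (n : ℝ) ^ k⌋₊ : ℝ) + 1 := Nat.lt_floor_add_one _
        have a2 : (⌊α * (n : ℝ) ^ k⌋₊ : ℝ) + 1 ≤ p := by exact_mod_cast hp1
        have a3 := Real.log_le_log hx0 (a1.le.trans a2)
        rw [Real.log_mul hα0.ne' (by positivity), Real.log_rpow hn0] at a3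
        have a4 := Real.log_le_log hN0 hcon
        rw [Real.log_mul hn0.ne' (by positivity), Real.log_pow, ← hL] at a4
        push_cast at a4
        have a5 := neg_abs_le (Real.log α)
        have a6 : 0 ≤ Real.log L := Real.log_nonneg g1
        have a7 : 0 ≤ |Real.log α| * Real.log L := by positivity
        have a8 : (0 : ℝ) ≤ (C + 2) * k := by positivity
        have a9 : k * (L - (C + 2) * Real.log L) ≤ k * Real.log n := by
          apply mul_le_mul_of_nonneg_left _ hk.le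
          linarith
        nlinarith
    rw [hT, hW, Finset.mul_sum]
    refine (Finset.sum_le_sum q1).trans ?_
    rw [Finset.sum_add_distrib]
    apply add_le_add le_rfl
    rw [← Finset.sum_filter, Finset.sum_const, nsmul_eq_mul, mul_comm]
    apply mul_le_mul_of_nonneg_left _ (by positivity)
    have a1 : (At A N).filter (fun n : ℕ => (n : ℝ) * L ^ (C + 2) < N) ⊆ Icc 1 ⌊(N : ℝ) / L ^ (C + 2)⌋₊ := by
      intro n hn
      rw [Finset.mem_filter, mem_At] at hn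
      rw [Finset.mem_Icc]
      refine ⟨hn.1.1.1, Nat.le_floor ?_⟩
      rw [le_div_iff₀ (by positivity)]
      exact hn.2.le
    have a2 := Finset.card_le_card a1
    rw [Nat.card_Icc, Nat.add_sub_cancel] at a2
    calc _ ≤ ((⌊(N : ℝ) / L ^ (C + 2)⌋₊ : ℕ) : ℝ) := by exact_mod_cast a2
      _ ≤ _ := Nat.floor_le (by positivity)
  have p3 : (k * L * y) * (N / L ^ (C + 2)) ≤ ε / 8 * (P * y) := by
    have e4 : (k * L * y) * (N / L ^ (C + 2)) = (N / L ^ C) * (k * y / L) := by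
      rw [pow_add]
      field_simp
    rw [e4]
    calc (N / L ^ C) * (k * y / L) ≤ (P / c) * (k * y / L) := mul_le_mul_of_nonneg_right hNP (by positivity)
      _ = (k / (c * L)) * (P * y) := by
          field_simp
      _ ≤ ε / 8 * (P * y) := by
          apply mul_le_mul_of_nonneg_right _ (by positivity)
          rw [div_le_iff₀ (by positivity)] at g3 ⊢
          nlinarith
  have p4 : a ≤ ε / 8 * (k * L) := by
    rw [div_le_iff₀ (by positivity)] at g4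
    linarith
  have hPy : 0 ≤ P * y := by positivity
  have hTk : 0 ≤ T * (k * L) := by positivity
  have q1 := (abs_le.1 e1).1
  have q2 := (abs_le.1 e1).2
  have q3 : T * a ≤ T * (ε / 8 * (k * L)) := mul_le_mul_of_nonneg_left p4 hT0
  have r1 : (1 - ε / 8) * (P * y) ≤ (1 + ε / 8) * (T * (k * L)) := by linarith
  have r2 : (1 - ε / 8) * (T * (k * L)) ≤ (1 + ε / 4) * (P * y) := by linarith
  have r3 : (1 - ε) * (P * y) ≤ T * (k * L) := by
    by_contra hcon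
    push Not at hcon
    have s1 : (1 + ε / 8) * (T * (k * L)) < (1 + ε / 8) * ((1 - ε) * (P * y)) :=
      mul_lt_mul_of_pos_left hcon (by positivity)
    have s2 : (1 + ε / 8) * (1 - ε) ≤ 1 - ε / 8 := by nlinarith
    have s3 : (1 + ε / 8) * (1 - ε) * (P * y) ≤ (1 - ε / 8) * (P * y) := mul_le_mul_of_nonneg_right s2 hPy
    linarith
  have r4 : T * (k * L) ≤ (1 + ε) * (P * y) := by
    by_contra hcon
    push Not at hcon
    have s1 : (1 - ε / 8) * ((1 + ε) * (P * y)) < (1 - ε / 8) * (T * (k * L)) :=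
      mul_lt_mul_of_pos_left hcon (by linarith)
    have s2 : 1 + ε / 4 ≤ (1 - ε / 8) * (1 + ε) := by nlinarith
    have s3 : (1 + ε / 4) * (P * y) ≤ (1 - ε / 8) * (1 + ε) * (P * y) := mul_le_mul_of_nonneg_right s2 hPy
    linarith
  have r5 : ε * (P * y) ≤ ε' * (P * y) := mul_le_mul_of_nonneg_right hεε hPy
  rw [abs_le]
  constructor <;> linarith

open Classical in
/-- **many elements are followed by many primes** -/
theorem many_k (k : ℝ) (hk : 0 < k) (A : Set ℕ) (C : ℕ) (c : ℝ) (hc : 0 < c)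
    (hA : ∀ᶠ N : ℕ in atTop, c * (N / Real.log N ^ C) ≤ (At A N).card) :
    ∀ᵐ α : ℝ, 0 < α → ∀ ε η : ℝ, 0 < ε → 0 < η → ∀ᶠ N : ℕ in atTop, ∀ y : ℕ,
      Real.log N ^ (2 * C + 24) ≤ y → (y : ℝ) ≤ (N : ℝ) ^ (k * (1 - η)) → ∀ τ : ℝ, 0 ≤ τ → τ ≤ 1 →
      ((1 - τ) / 4 - ε) * (At A N).card ≤
        (((At A N).filter fun n : ℕ => τ * y ≤ (pn ⌊α * (n : ℝ) ^ k⌋₊ y : ℝ) * (k * Real.log N)).card : ℝ) := by
  have hsub : ∀ᵐ α : ℝ, 0 < α → ∀ ε : ℝ, 0 < ε → ∀ᶠ N : ℕ in atTop, ∀ y : ℕ, Real.log N ^ (2 * C + 24) ≤ y →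
      (y : ℝ) ≤ (N : ℝ) ^ k → ∀ G : Finset ℕ, G ⊆ Icc 1 N →
      (∑ n ∈ G, (pn ⌊α * (n : ℝ) ^ k⌋₊ y : ℝ)) * (k * Real.log N) ≤
        ((4 + ε) * G.card + ε * (N / Real.log N ^ C)) * y :=
    ae_of_exp (P := fun α => ∀ ε : ℝ, 0 < ε → ∀ᶠ N : ℕ in atTop, ∀ y : ℕ, Real.log N ^ (2 * C + 24) ≤ y →
      (y : ℝ) ≤ (N : ℝ) ^ k → ∀ G : Finset ℕ, G ⊆ Icc 1 N →
      (∑ n ∈ G, (pn ⌊α * (n : ℝ) ^ k⌋₊ y : ℝ)) * (k * Real.log N) ≤
        ((4 + ε) * G.card + ε * (N / Real.log N ^ C)) * y) hk (subs k hk C)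
  filter_upwards [hsub, first k hk A C c hc hA] with α h1 h2 hα0 ε η hε hη
  obtain ⟨e, he⟩ : ∃ e, e = min (ε / 4) 1 := ⟨_, rfl⟩
  have he0 : 0 < e := by
    rw [he]
    positivity
  have he1 : e ≤ 1 := by
    rw [he]
    exact min_le_right _ _
  have heε : e ≤ ε / 4 := by
    rw [he]
    exact min_le_left _ _
  obtain ⟨e', he'⟩ : ∃ e', e' = e * min c 1 := ⟨_, rfl⟩
  have hmc : 0 < min c 1 := lt_min hc one_pos
  have he'0 : 0 < e' := by
    rw [he']
    positivity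
  have he'e : e' ≤ e := by
    rw [he']
    have : min c 1 ≤ 1 := min_le_right _ _
    nlinarith
  have he'c : e' ≤ e * c := by
    rw [he']
    exact mul_le_mul_of_nonneg_left (min_le_left _ _) he0.le
  filter_upwards [h1 hα0 e' he'0, h2 hα0 e η he0 hη, hA, ev_logge 1, eventually_ge_atTop 1] with
    N h3 h4 h5 g1 g2 y hy1 hy2 τ hτ0 hτ1
  have hN1 : (1 : ℝ) ≤ N := by exact_mod_cast g2
  have hN0 : (0 : ℝ) < N := by linarith
  obtain ⟨L, hL⟩ : ∃ L, L = Real.log (N : ℝ) := ⟨_, rfl⟩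
  simp only [← hL] at h3 h4 h5 g1 hy1 ⊢
  have hL0 : 0 < L := by linarith
  have hyr : (1 : ℝ) ≤ y := by
    refine le_trans ?_ hy1
    exact one_le_pow₀ g1
  have hy0 : (0 : ℝ) < y := by linarith
  have hyn : 1 ≤ y := by exact_mod_cast hyr
  have hyk : (y : ℝ) ≤ (N : ℝ) ^ k := by
    refine hy2.trans (Real.rpow_le_rpow_of_exponent_le hN1 ?_)
    nlinarith
  set G := (At A N).filter fun n : ℕ => τ * y ≤ (pn ⌊α * (n : ℝ) ^ k⌋₊ y : ℝ) * (k * L) with hG
  have h6 := h3 y hy1 hyk G ((Finset.filter_subset _ _).trans (At_sub A N))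
  have h7 := h4 y hyn hy2
  obtain ⟨P, hP⟩ : ∃ P : ℝ, P = (At A N).card := ⟨_, rfl⟩
  have hP0 : 0 ≤ P := by
    rw [hP]
    exact Nat.cast_nonneg _
  rw [← hP] at h5 h7 ⊢
  have h8 : ∑ n ∈ At A N, (pn ⌊α * (n : ℝ) ^ k⌋₊ y : ℝ) = ∑ n ∈ G, (pn ⌊α * (n : ℝ) ^ k⌋₊ y : ℝ) +
      ∑ n ∈ (At A N).filter (fun n : ℕ => ¬ (τ * y ≤ (pn ⌊α * (n : ℝ) ^ k⌋₊ y : ℝ) * (k * L))),
        (pn ⌊α * (n : ℝ) ^ k⌋₊ y : ℝ) := by
    rw [hG, Finset.sum_filter_add_sum_filter_not]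
  have h9 : (∑ n ∈ (At A N).filter (fun n : ℕ => ¬ (τ * y ≤ (pn ⌊α * (n : ℝ) ^ k⌋₊ y : ℝ) * (k * L))),
        (pn ⌊α * (n : ℝ) ^ k⌋₊ y : ℝ)) * (k * L) ≤ τ * y * P := by
    rw [Finset.sum_mul]
    have a1 : ∀ n ∈ (At A N).filter (fun n : ℕ => ¬ (τ * y ≤ (pn ⌊α * (n : ℝ) ^ k⌋₊ y : ℝ) * (k * L))),
        (pn ⌊α * (n : ℝ) ^ k⌋₊ y : ℝ) * (k * L) ≤ τ * y := by
      intro n hn
      rw [Finset.mem_filter, not_le] at hn
      exact hn.2.le
    refine (Finset.sum_le_sum a1).trans ?_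
    rw [Finset.sum_const, nsmul_eq_mul, mul_comm]
    apply mul_le_mul_of_nonneg_left _ (by positivity)
    rw [hP]
    exact_mod_cast Finset.card_filter_le _ _
  have h10 := (abs_le.1 h7).1
  rw [h8, add_mul] at h10
  have hGc : (0 : ℝ) ≤ G.card := Nat.cast_nonneg _
  have h11 : e' * (N / L ^ C) ≤ e * P := by
    have a1 : 0 ≤ (N : ℝ) / L ^ C := by positivity
    calc e' * (N / L ^ C) ≤ (e * c) * (N / L ^ C) := mul_le_mul_of_nonneg_right he'c a1
      _ = e * (c * (N / L ^ C)) := by ring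
      _ ≤ e * P := mul_le_mul_of_nonneg_left h5 he0.le
  have h12 : ((4 + e') * G.card + e' * (N / L ^ C)) * y ≤ ((4 + e) * G.card + e * P) * y := by
    apply mul_le_mul_of_nonneg_right _ hy0.le
    have : (4 + e') * (G.card : ℝ) ≤ (4 + e) * G.card := mul_le_mul_of_nonneg_right (by linarith) hGc
    linarith
  have h13 : (1 - τ - 2 * e) * P * y ≤ ((4 + e) * G.card) * y := by linarith
  have h14 : (1 - τ - 2 * e) * P ≤ (4 + e) * G.card := le_of_mul_le_mul_right h13 hy0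
  have h15 : (4 + e) * ((1 - τ) / 4 - ε) ≤ 1 - τ - 2 * e := by
    have t1 : e * (1 - τ) ≤ e * 1 := mul_le_mul_of_nonneg_left (by linarith) he0.le
    have t2 : 0 ≤ e * ε := by positivity
    nlinarith
  have h16 : (4 + e) * (((1 - τ) / 4 - ε) * P) ≤ (4 + e) * G.card := by
    calc (4 + e) * (((1 - τ) / 4 - ε) * P) = ((4 + e) * ((1 - τ) / 4 - ε)) * P := by ring
      _ ≤ (1 - τ - 2 * e) * P := mul_le_mul_of_nonneg_right h15 hP0
      _ ≤ _ := h14
  exact le_of_mul_le_mul_left h16 (by linarith)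

end Pool.Agent.D0H91.MG
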