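import Mathlib
import Pool.Agent.D0H91.MG.Fm

/-! Primes at polylogarithmic distance from several points `α_j n ^ (k_j)` at the same time. -/

set_option autoImplicit false

namespace Pool.Agent.D0H91.MG

open Finset MeasureTheory Filter Topology
open Pool.Agent.W301.SS (om om_nonneg pn pn_le pn_mono)

/-- there is a prime in `(α n ^ k, α n ^ k + (log n) ^ K]` -/
def near (K : ℕ) (k α : ℝ) (n : ℕ) : Prop :=
  ∃ p : ℕ, p.Prime ∧ α * (n : ℝ) ^ k < p ∧ (p : ℝ) ≤ α * (n : ℝ) ^ k + Real.log n ^ K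

theorem near_meas {r : ℕ} (K : ℕ) (k : ℝ) (n : ℕ) (i : Fin r) :
    MeasurableSet {α : Fin r → ℝ | near K k (α i) n} := by
  have e : {α : Fin r → ℝ | near K k (α i) n} =
      ⋃ p : ℕ, ⋃ (_ : p.Prime), {α : Fin r → ℝ | α i * (n : ℝ) ^ k < p} ∩
        {α : Fin r → ℝ | (p : ℝ) ≤ α i * (n : ℝ) ^ k + Real.log n ^ K} := by
    ext α
    simp only [Set.mem_iUnion]
    unfold near
    simp only [Set.mem_setOf_eq, Set.mem_inter_iff, exists_prop]
  rw [e]
  refine MeasurableSet.iUnion fun p => MeasurableSet.iUnion fun _ => MeasurableSet.inter ?_ ?_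
  · exact measurableSet_lt ((coord_meas i).mul measurable_const) measurable_const
  · exact measurableSet_le measurable_const (((coord_meas i).mul measurable_const).add measurable_const)

/-- one dilation -/
theorem near_one (k : ℝ) (hk : 0 < k) (A : Set ℕ) (C : ℕ) (c : ℝ) (hc : 0 < c)
    (hA : ∀ᶠ N : ℕ in atTop, c * (N / Real.log N ^ C) ≤ (At A N).card) :
    ∀ᵐ α : ℝ, 0 < α → ∀ ε : ℝ, 0 < ε → ∀ᶠ N : ℕ in atTop,
      (1 / 4 - ε) * (At A N).card ≤ ((At {n | n ∈ A ∧ near (2 * C + 25) k α n} N).card : ℝ) := by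
  classical
  filter_upwards [many_k k hk A C c hc hA] with α hα hα0 ε hε
  obtain ⟨τ, hτ⟩ : ∃ τ, τ = min ε 1 := ⟨_, rfl⟩
  have hτ0 : 0 < τ := by
    rw [hτ]
    exact lt_min hε one_pos
  have hτ1 : τ ≤ 1 := by
    rw [hτ]
    exact min_le_right _ _
  have hτε : τ ≤ ε := by
    rw [hτ]
    exact min_le_left _ _
  have hsq : ∀ᶠ N : ℕ in atTop, 4 / (c * ε) * Real.log N ^ C ≤ (N : ℝ) ^ ((1 : ℝ) / 2) :=
    Pool.Agent.W301.SS.ev_log C (4 / (c * ε)) (1 / 2) (by norm_num)
  filter_upwards [hα hα0 (ε / 4) (1 / 2) (by positivity) (by norm_num), hA, hsq,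
    Pool.Agent.W301.SS.ev_log (2 * C + 25) (1 / 2 ^ (2 * C + 25)) (k / 2) (by positivity),
    ev_logge (2 * 2 ^ (2 * C + 25)), ev_logge 2, eventually_ge_atTop 1] with N h1 h2 h3 h4 g1 g2 g3
  have hN1 : (1 : ℝ) ≤ N := by exact_mod_cast g3
  have hN0 : (0 : ℝ) < N := by linarith
  obtain ⟨L, hL⟩ : ∃ L, L = Real.log (N : ℝ) := ⟨_, rfl⟩
  simp only [← hL] at h1 h2 h3 h4 g1 g2
  have hL0 : 0 < L := by linarith
  have hL2 : 1 ≤ L / 2 := by linarith
  -- the length
  obtain ⟨y, hy⟩ : ∃ y : ℕ, y = ⌊(L / 2) ^ (2 * C + 25)⌋₊ := ⟨_, rfl⟩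
  have hyle : (y : ℝ) ≤ (L / 2) ^ (2 * C + 25) := by
    rw [hy]
    exact Nat.floor_le (by positivity)
  have hyge : L ^ (2 * C + 24) ≤ y := by
    have a1 : (L / 2) ^ (2 * C + 25) < (y : ℝ) + 1 := by
      rw [hy]
      exact Nat.lt_floor_add_one _
    have a2 : 2 * L ^ (2 * C + 24) ≤ (L / 2) ^ (2 * C + 25) := by
      rw [div_pow, le_div_iff₀ (by positivity)]
      calc 2 * L ^ (2 * C + 24) * 2 ^ (2 * C + 25) = (2 * 2 ^ (2 * C + 25)) * L ^ (2 * C + 24) := by ring
        _ ≤ L * L ^ (2 * C + 24) := mul_le_mul_of_nonneg_right g1 (by positivity)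
        _ = L ^ (2 * C + 25) := by rw [← pow_succ']
    have a3 : 1 ≤ L ^ (2 * C + 24) := one_le_pow₀ (by linarith)
    linarith
  have hyk : (y : ℝ) ≤ (N : ℝ) ^ (k * (1 - 1 / 2)) := by
    have e : k * (1 - 1 / 2) = k / 2 := by ring
    rw [e]
    refine hyle.trans (le_trans (le_of_eq ?_) h4)
    rw [div_pow]
    field_simp
  have h5 := h1 y hyge hyk τ hτ0.le hτ1
  obtain ⟨P, hP⟩ : ∃ P : ℝ, P = (At A N).card := ⟨_, rfl⟩
  rw [← hP] at h2 h5 ⊢
  have hP0 : 0 ≤ P := by
    rw [hP]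
    exact Nat.cast_nonneg _
  have hy0 : (0 : ℝ) < y := by
    have : 0 < L ^ (2 * C + 24) := by positivity
    linarith
  -- few small elements
  obtain ⟨s, hs⟩ : ∃ s, s = (N : ℝ) ^ ((1 : ℝ) / 2) := ⟨_, rfl⟩
  rw [← hs] at h3
  have hs2 : s * s = N := by
    rw [hs, ← Real.rpow_add hN0]
    norm_num
  have hs0 : 0 < s := by
    rw [hs]
    positivity
  have hsP : s ≤ ε / 4 * P := by
    have a1 : 4 / (c * ε) * s * L ^ C ≤ N := by
      calc 4 / (c * ε) * s * L ^ C = s * (4 / (c * ε) * L ^ C) := by ring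
        _ ≤ s * s := mul_le_mul_of_nonneg_left h3 hs0.le
        _ = N := hs2
    have a2 : 4 / (c * ε) * s ≤ N / L ^ C := by
      rw [le_div_iff₀ (by positivity)]
      exact a1
    calc s = (ε / 4) * (c * (4 / (c * ε) * s)) := by
          field_simp
      _ ≤ (ε / 4) * (c * (N / L ^ C)) := by
          apply mul_le_mul_of_nonneg_left _ (by positivity)
          exact mul_le_mul_of_nonneg_left a2 hc.le
      _ ≤ (ε / 4) * P := mul_le_mul_of_nonneg_left h2 (by positivity)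
  have hsub : (At A N).filter (fun n : ℕ => τ * y ≤ (pn ⌊α * (n : ℝ) ^ k⌋₊ y : ℝ) * (k * L)) ⊆
      At {n | n ∈ A ∧ near (2 * C + 25) k α n} N ∪ Icc 1 ⌊s⌋₊ := by
    intro n hn
    rw [Finset.mem_filter, mem_At] at hn
    obtain ⟨⟨⟨hn1, hnN⟩, hnA⟩, hn2⟩ := hn
    rw [Finset.mem_union, mem_At, Finset.mem_Icc]
    by_cases hns : (n : ℝ) ≤ s
    · right
      exact ⟨hn1, Nat.le_floor hns⟩
    · left
      push Not at hns
      refine ⟨⟨hn1, hnN⟩, hnA, ?_⟩
      have hn0 : (0 : ℝ) < n := by exact_mod_cast hn1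
      have hx0 : 0 ≤ α * (n : ℝ) ^ k := by positivity
      have hpos : 0 < (pn ⌊α * (n : ℝ) ^ k⌋₊ y : ℝ) := by
        by_contra hcon
        push Not at hcon
        have : (pn ⌊α * (n : ℝ) ^ k⌋₊ y : ℝ) * (k * L) ≤ 0 :=
          mul_nonpos_of_nonpos_of_nonneg hcon (by positivity)
        have : 0 < τ * y := by positivity
        linarith
      have hpos' : 0 < pn ⌊α * (n : ℝ) ^ k⌋₊ y := by exact_mod_cast hpos
      unfold pn at hpos'
      obtain ⟨p, hp⟩ := Finset.card_pos.1 hpos'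
      rw [Finset.mem_filter, Finset.mem_Ioc] at hp
      refine ⟨p, hp.2, ?_, ?_⟩
      · have a1 : α * (n : ℝ) ^ k < (⌊α * (n : ℝ) ^ k⌋₊ : ℝ) + 1 := Nat.lt_floor_add_one _
        have a2 : (⌊α * (n : ℝ) ^ k⌋₊ : ℝ) + 1 ≤ p := by exact_mod_cast hp.1.1
        linarith
      · have a1 : (p : ℝ) ≤ (⌊α * (n : ℝ) ^ k⌋₊ : ℝ) + y := by exact_mod_cast hp.1.2
        have a2 : (⌊α * (n : ℝ) ^ k⌋₊ : ℝ) ≤ α * (n : ℝ) ^ k := Nat.floor_le hx0
        have a3 : L / 2 ≤ Real.log n := by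
          have b1 := Real.log_le_log hs0 hns.le
          rw [hs, Real.log_rpow hN0, ← hL] at b1
          linarith
        have a4 : (L / 2) ^ (2 * C + 25) ≤ Real.log n ^ (2 * C + 25) :=
          pow_le_pow_left₀ (by linarith) a3 _
        linarith
  have h6 := Finset.card_le_card hsub
  have h7 : (((At A N).filter (fun n : ℕ => τ * y ≤ (pn ⌊α * (n : ℝ) ^ k⌋₊ y : ℝ) * (k * L))).card : ℝ) ≤
      ((At {n | n ∈ A ∧ near (2 * C + 25) k α n} N).card : ℝ) + s := by
    have b1 := h6.trans (Finset.card_union_le _ _)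
    rw [Nat.card_Icc, Nat.add_sub_cancel] at b1
    have b2 : ((⌊s⌋₊ : ℕ) : ℝ) ≤ s := Nat.floor_le hs0.le
    have b3 : (((At A N).filter (fun n : ℕ => τ * y ≤ (pn ⌊α * (n : ℝ) ^ k⌋₊ y : ℝ) * (k * L))).card : ℝ) ≤
        ((At {n | n ∈ A ∧ near (2 * C + 25) k α n} N).card : ℝ) + ((⌊s⌋₊ : ℕ) : ℝ) := by
      exact_mod_cast b1
    linarith
  have h8 : (1 / 4 - ε) * P + s ≤ ((1 - τ) / 4 - ε / 4) * P := by
    have : τ * P ≤ ε * P := mul_le_mul_of_nonneg_right hτε hP0
    nlinarith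
  have h5' : ((1 - τ) / 4 - ε / 4) * P ≤
      (((At A N).filter (fun n : ℕ => τ * y ≤ (pn ⌊α * (n : ℝ) ^ k⌋₊ y : ℝ) * (k * L))).card : ℝ) := by
    refine h5.trans (le_of_eq ?_)
    congr 3
  linarith

/-- the elements of `A` which are near primes for all the dilations -/
def An (K : ℕ) {r : ℕ} (k : Fin r → ℝ) (A : Set ℕ) (α : Fin r → ℝ) : Set ℕ :=
  {n | n ∈ A ∧ ∀ i, near K (k i) (α i) n}

theorem An_meas (K : ℕ) {r : ℕ} (k : Fin r → ℝ) (A : Set ℕ) (N : ℕ) :
    Measurable (fun α : Fin r → ℝ => ((At (An K k A α) N).card : ℝ)) := by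
  classical
  have e : (fun α : Fin r → ℝ => ((At (An K k A α) N).card : ℝ)) = fun α =>
      ∑ n ∈ At A N, (⋂ i, {α : Fin r → ℝ | near K (k i) (α i) n}).indicator (fun _ => (1 : ℝ)) α := by
    funext α
    have e1 : At (An K k A α) N = (At A N).filter (fun n => ∀ i, near K (k i) (α i) n) := by
      ext n
      rw [Finset.mem_filter, mem_At, mem_At]
      unfold An
      simp only [Set.mem_setOf_eq]
      tauto
    rw [e1, Finset.card_filter]
    push_cast
    refine Finset.sum_congr rfl fun n _ => ?_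
    by_cases h : ∀ i, near K (k i) (α i) n
    · rw [if_pos h, Set.indicator_of_mem]
      rw [Set.mem_iInter]
      exact h
    · rw [if_neg h, Set.indicator_of_notMem]
      rw [Set.mem_iInter]
      exact h
  rw [e]
  refine Finset.measurable_fun_sum _ fun n _ => ?_
  exact measurable_const.indicator (MeasurableSet.iInter fun i => near_meas K (k i) n i)

theorem near_several (C : ℕ) (r : ℕ) : ∀ (k : Fin r → ℝ), (∀ i, 0 < k i) → ∀ (A : Set ℕ),
    (∃ c : ℝ, 0 < c ∧ ∀ᶠ N : ℕ in atTop, c * (N / Real.log N ^ C) ≤ (At A N).card) →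
    ∀ᵐ α : Fin r → ℝ, (∀ i, 0 < α i) → ∀ m : ℕ, ∀ᶠ N : ℕ in atTop,
      ((1 / 4) ^ r - 1 / ((m : ℝ) + 1)) * (At A N).card ≤ ((At (An (2 * C + 25) k A α) N).card : ℝ) := by
  induction r with
  | zero =>
    intro k _ A _
    refine Eventually.of_forall fun α _ m => Eventually.of_forall fun N => ?_
    have e : An (2 * C + 25) k A α = A := by
      unfold An
      ext n
      simp
    rw [e, pow_zero]
    have h1 : (0 : ℝ) < 1 / ((m : ℝ) + 1) := by positivity
    have h2 : (0 : ℝ) ≤ (At A N).card := Nat.cast_nonneg _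
    nlinarith
  | succ r ih =>
    intro k hk A hA
    obtain ⟨c, hc, hAc⟩ := hA
    refine fubini_ae' (P := fun α => (∀ i, 0 < α i) → ∀ m : ℕ, ∀ᶠ N : ℕ in atTop,
      ((1 / 4) ^ (r + 1) - 1 / ((m : ℝ) + 1)) * (At A N).card ≤ ((At (An (2 * C + 25) k A α) N).card : ℝ)) ?_ ?_
    · have e : {α : Fin (r + 1) → ℝ | (∀ i, 0 < α i) → ∀ m : ℕ, ∀ᶠ N : ℕ in atTop,
          ((1 / 4) ^ (r + 1) - 1 / ((m : ℝ) + 1)) * (At A N).card ≤ ((At (An (2 * C + 25) k A α) N).card : ℝ)} =
          (⋂ i, {α : Fin (r + 1) → ℝ | 0 < α i})ᶜ ∪ ⋂ m : ℕ, ⋃ N0 : ℕ, ⋂ N : ℕ, ⋂ (_ : N0 ≤ N),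
          {α : Fin (r + 1) → ℝ | ((1 / 4) ^ (r + 1) - 1 / ((m : ℝ) + 1)) * (At A N).card ≤
            ((At (An (2 * C + 25) k A α) N).card : ℝ)} := by
        ext α
        rw [Set.mem_union, Set.mem_compl_iff, Set.mem_iInter]
        simp only [Set.mem_iInter, Set.mem_iUnion]
        rw [Set.mem_setOf_eq, imp_iff_not_or]
        apply or_congr Iff.rfl
        apply forall_congr'
        intro m
        exact eventually_atTop
      rw [e]
      refine MeasurableSet.union (MeasurableSet.compl (MeasurableSet.iInter fun i => pos_meas i))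
        (MeasurableSet.iInter fun m => MeasurableSet.iUnion fun N0 =>
          MeasurableSet.iInter fun N => MeasurableSet.iInter fun _ => ?_)
      exact measurableSet_le measurable_const (An_meas _ k A N)
    · filter_upwards [near_one (k 0) (hk 0) A C c hc hAc] with t ht
      by_cases ht0 : 0 < t
      · obtain ⟨A', hA'⟩ : ∃ A' : Set ℕ, A' = {n | n ∈ A ∧ near (2 * C + 25) (k 0) t n} := ⟨_, rfl⟩
        have h1 : ∀ ε : ℝ, 0 < ε → ∀ᶠ N : ℕ in atTop, (1 / 4 - ε) * (At A N).card ≤ ((At A' N).card : ℝ) := by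
          intro ε hε
          rw [hA']
          exact ht ht0 ε hε
        have h2 := ih (fun i => k i.succ) (fun i => hk i.succ) A' ⟨c / 8, by positivity, by
          filter_upwards [h1 (1 / 8) (by norm_num), hAc] with N h3 h4
          calc c / 8 * (N / Real.log N ^ C) = (1 / 8) * (c * (N / Real.log N ^ C)) := by ring
            _ ≤ (1 / 8) * (At A N).card := mul_le_mul_of_nonneg_left h4 (by norm_num)
            _ = (1 / 4 - 1 / 8) * (At A N).card := by norm_num
            _ ≤ _ := h3⟩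
        filter_upwards [h2] with β hβ hpos m
        have h3 := hβ (fun i => by simpa using hpos i.succ)
        have e1 : An (2 * C + 25) k A (Fin.cons t β) = An (2 * C + 25) (fun i => k i.succ) A' β := by
          rw [hA']
          unfold An
          ext n
          simp only [Set.mem_setOf_eq]
          constructor
          · rintro ⟨a1, a2⟩
            exact ⟨⟨a1, a2 0⟩, fun i => a2 i.succ⟩
          · rintro ⟨⟨a1, a2⟩, a3⟩
            exact ⟨a1, fun i => Fin.cases a2 a3 i⟩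
        rw [e1]
        -- small parameters
        have hq : (0 : ℝ) < (1 / 4) ^ r := by positivity
        have hq1 : ((1 : ℝ) / 4) ^ r ≤ 1 := pow_le_one₀ (by norm_num) (by norm_num)
        obtain ⟨e, he⟩ : ∃ e : ℝ, e = min ((1 / 4) ^ r) (1 / (2 * ((m : ℝ) + 1))) := ⟨_, rfl⟩
        have he0 : 0 < e := by
          rw [he]
          positivity
        have he1 : e ≤ (1 / 4) ^ r := by
          rw [he]
          exact min_le_left _ _
        have he2 : e ≤ 1 / (2 * ((m : ℝ) + 1)) := by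
          rw [he]
          exact min_le_right _ _
        obtain ⟨m', hm'⟩ := exists_nat_one_div_lt he0
        filter_upwards [h3 m', h1 e he0] with N h4 h5
        have hP0 : (0 : ℝ) ≤ (At A N).card := Nat.cast_nonneg _
        have hP1 : (0 : ℝ) ≤ (At A' N).card := Nat.cast_nonneg _
        have h6 : ((1 / 4) ^ r - e) * (At A' N).card ≤
            ((At (An (2 * C + 25) (fun i => k i.succ) A' β) N).card : ℝ) := by
          refine le_trans (mul_le_mul_of_nonneg_right ?_ hP1) h4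
          linarith
        refine le_trans ?_ h6
        have h7 : ((1 / 4) ^ r - e) * ((1 / 4 - e) * (At A N).card) ≤ ((1 / 4) ^ r - e) * (At A' N).card :=
          mul_le_mul_of_nonneg_left h5 (by linarith)
        refine le_trans ?_ h7
        rw [← mul_assoc]
        apply mul_le_mul_of_nonneg_right _ hP0
        have h8 : 1 / ((m : ℝ) + 1) = 2 * (1 / (2 * ((m : ℝ) + 1))) := by
          field_simp
        rw [h8, pow_succ]
        have h9 : e * ((1 / 4) ^ r) ≤ e * 1 := mul_le_mul_of_nonneg_left hq1 he0.le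
        nlinarith
      · refine Eventually.of_forall fun β hpos => ?_
        exact absurd (by simpa using hpos 0) ht0

end Pool.Agent.D0H91.MG
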